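import Pool.Agent.Lib.MP_0430e4_lc.Lgv.Defs
import Pool.Agent.Lib.MP_0430e4_lc.Lin.FIN
import Pool.Agent.Lib.MP_0430e4_lc.Lin.SAN

/-!
# SND: soundness

`parLP_le`: every feasible `f` is feasible for linLP (`S = ∅` and `S = univ`). `sound`: `f = 1` on the tuples of
words of `K`; partial transforms are products of `∑_{x ∈ K} chw y x >= 0` and indicators (compare
Lin/SAN.lean). The value set is bounded above (Lin/BDD.lean).
-/

set_option autoImplicit false

namespace Pool.Agent.Lib.MP_0430e4_lc.Lgv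

open Finset
open Pool.Agent.Lib.MP_0430e4_lc.Lin (W wt chw sg)

variable {n : ℕ}

open Lin.Asm in
/-- A function that is feasible for all partial transforms is feasible for `linLP`. -/
theorem snd_le {l d : ℕ} {f : (Fin l → Fin n → ZMod 2) → ℝ} (h1 : f 0 = 1)
    (h3 : ∀ X, (∃ c : Fin l → ZMod 2, 0 < hammingNorm (∑ j, c j • X j) ∧
      hammingNorm (∑ j, c j • X j) < d) → f X = 0)
    (h4 : ∀ (S : Finset (Fin l)) (X Y : Fin l → Fin n → ZMod 2),
      0 ≤ ∑ Z ∈ univ.filter (fun Z : Fin l → Fin n → ZMod 2 => ∀ j, j ∉ S → Z j = X j),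
        f Z * ∏ j ∈ S, ∏ i, if Z j i = 1 ∧ Y j i = 1 then -1 else 1) :
    ∑ X, f X ≤ Lin.linLP l n d := by
  have hn : ∀ X, 0 ≤ f X := by
    intro X
    have h := h4 ∅ X 0
    have e : univ.filter (fun Z : Fin l → Fin n → ZMod 2 =>
        ∀ j, j ∉ (∅ : Finset (Fin l)) → Z j = X j) = {X} := by
      ext Z
      simp only [mem_filter, mem_univ, true_and, notMem_empty, not_false_eq_true, true_imp_iff,
        mem_singleton]
      exact ⟨fun h => funext h, fun h j => by rw [h]⟩
    rw [e, sum_singleton, prod_empty, mul_one] at h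
    exact h
  have hf : Feas l n d (fun X => f ((Lin.Asm.tr l n).symm X)) := by
    refine ⟨fun X => hn _, h1, ?_, ?_⟩
    · intro X c hc hcd
      apply h3
      refine ⟨c, ?_, ?_⟩
      · rw [norm_eq, Equiv.apply_symm_apply]; exact hc
      · rw [norm_eq, Equiv.apply_symm_apply]; exact hcd
    · intro Ξ
      have := h4 univ 0 ((Lin.Asm.tr l n).symm Ξ)
      have e : univ.filter (fun Z : Fin l → Fin n → ZMod 2 =>
          ∀ j, j ∉ (univ : Finset (Fin l)) → Z j = (0 : Fin l → Fin n → ZMod 2) j) = univ := by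
        apply filter_true_of_mem
        intro Z _ j hj
        exact absurd (mem_univ j) hj
      rw [e] at this
      rw [← Equiv.sum_comp (Lin.Asm.tr l n)]
      refine this.trans_eq (Finset.sum_congr rfl fun X _ => ?_)
      rw [sign_eq, Equiv.apply_symm_apply, Equiv.symm_apply_apply]
  refine le_trans (le_of_eq ?_) (le_linLP hf)
  rw [← Equiv.sum_comp (Lin.Asm.tr l n)]
  exact Finset.sum_congr rfl fun X _ => by rw [Equiv.symm_apply_apply]

open Classical in
/-- The indicator of the tuples of words of `K`. -/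
noncomputable def sndF (l : ℕ) (K : Submodule (ZMod 2) (Fin n → ZMod 2))
    (X : Fin l → Fin n → ZMod 2) : ℝ := if ∀ j, X j ∈ K then 1 else 0

open Classical in
theorem sndF_prod (l : ℕ) (K : Submodule (ZMod 2) (Fin n → ZMod 2))
    (X : Fin l → Fin n → ZMod 2) : sndF l K X = ∏ j, (if X j ∈ K then (1 : ℝ) else 0) := by
  unfold sndF
  by_cases h : ∀ j, X j ∈ K
  · rw [if_pos h]
    symm
    exact Finset.prod_eq_one fun j _ => by rw [if_pos (h j)]
  · rw [if_neg h]
    push Not at h
    obtain ⟨j, hj⟩ := h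
    symm
    exact Finset.prod_eq_zero (mem_univ j) (if_neg hj)

theorem snd_chw (Y X : Fin n → ZMod 2) :
    (∏ i, if X i = 1 ∧ Y i = 1 then (-1 : ℝ) else 1) = chw Y X := by
  unfold chw
  apply Finset.prod_congr rfl
  intro i _
  rw [Lin.Asm.sg_mul]
  exact if_congr and_comm rfl rfl

theorem snd_mem (l n d : ℕ) (K : Submodule (ZMod 2) (Fin n → ZMod 2))
    (hK : ∀ x ∈ K, x ≠ 0 → d ≤ hammingNorm x) :
    (Nat.card K : ℝ) ^ l ∈ {s : ℝ | ∃ f : (Fin l → Fin n → ZMod 2) → ℝ,
    f 0 = 1 ∧
    (∀ A : Matrix (Fin l) (Fin l) (ZMod 2), IsUnit A →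
      ∀ X, f (fun i => ∑ j, A i j • X j) = f X) ∧
    (∀ X, (∃ c : Fin l → ZMod 2, 0 < hammingNorm (∑ j, c j • X j) ∧
      hammingNorm (∑ j, c j • X j) < d) → f X = 0) ∧
    (∀ (S : Finset (Fin l)) (X Y : Fin l → Fin n → ZMod 2),
      0 ≤ ∑ Z ∈ univ.filter (fun Z : Fin l → Fin n → ZMod 2 => ∀ j, j ∉ S → Z j = X j),
        f Z * ∏ j ∈ S, ∏ i, if Z j i = 1 ∧ Y j i = 1 then -1 else 1) ∧
    s = ∑ X, f X} := by
  classical
  refine ⟨sndF l K, ?_, ?_, ?_, ?_, ?_⟩
  · unfold sndF
    rw [if_pos]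
    intro j
    exact K.zero_mem
  · intro A hA X
    unfold sndF
    apply if_congr _ rfl rfl
    constructor
    · intro h j
      obtain ⟨u, hu⟩ := hA
      set B : Matrix (Fin l) (Fin l) (ZMod 2) := ↑(u⁻¹) with hB
      have h1 : X j = ∑ i, B j i • ∑ k, A i k • X k := by
        have h2 : ∀ k, ∑ i, B j i * A i k = if j = k then 1 else 0 := by
          intro k
          have h3 : B * A = 1 := by
            rw [← hu]
            exact u.inv_mul
          have h4 := congrFun (congrFun h3 j) k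
          rw [Matrix.mul_apply, Matrix.one_apply] at h4
          exact h4
        simp_rw [Finset.smul_sum, smul_smul]
        rw [Finset.sum_comm]
        simp_rw [← Finset.sum_smul, h2]
        simp
      rw [h1]
      exact K.sum_mem fun i _ => K.smul_mem _ (h i)
    · intro h i
      exact K.sum_mem fun j _ => K.smul_mem _ (h j)
  · rintro X ⟨c, hc, hcd⟩
    unfold sndF
    rw [if_neg]
    intro h
    have h1 : ∑ j, c j • X j ∈ K := K.sum_mem fun j _ => K.smul_mem _ (h j)
    have h3 : ∑ j, c j • X j ≠ 0 := by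
      intro h4
      rw [h4, hammingNorm_zero] at hc
      omega
    have h4 := hK _ h1 h3
    omega
  · intro S X Y
    set t : Fin l → Finset (Fin n → ZMod 2) := fun j => if j ∈ S then univ else {X j} with ht
    set g : Fin l → (Fin n → ZMod 2) → ℝ := fun j x =>
      (if x ∈ K then 1 else 0) * (if j ∈ S then chw (Y j) x else 1) with hg
    have e1 : univ.filter (fun Z : Fin l → Fin n → ZMod 2 => ∀ j, j ∉ S → Z j = X j) =
        Fintype.piFinset t := by
      ext Z
      simp only [mem_filter, mem_univ, true_and, Fintype.mem_piFinset, ht]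
      constructor
      · intro h j
        by_cases hj : j ∈ S
        · rw [if_pos hj]; exact mem_univ _
        · rw [if_neg hj, mem_singleton]; exact h j hj
      · intro h j hj
        have := h j
        rw [if_neg hj, mem_singleton] at this
        exact this
    have e2 : ∀ Z : Fin l → Fin n → ZMod 2,
        sndF l K Z * (∏ j ∈ S, ∏ i, if Z j i = 1 ∧ Y j i = 1 then (-1 : ℝ) else 1) =
        ∏ j, g j (Z j) := by
      intro Z
      rw [sndF_prod]
      simp_rw [snd_chw]
      have e3 : ∏ j ∈ S, chw (Y j) (Z j) = ∏ j, if j ∈ S then chw (Y j) (Z j) else 1 := by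
        rw [Finset.prod_ite_mem, Finset.univ_inter]
      rw [e3, ← Finset.prod_mul_distrib]
    rw [e1]
    simp_rw [e2]
    rw [← Finset.prod_univ_sum]
    apply Finset.prod_nonneg
    intro j _
    by_cases hj : j ∈ S
    · have h1 := Lin.Asm.sum_code_nonneg K (Y j)
      simp only [ht, hg, if_pos hj]
      refine h1.trans_eq (Finset.sum_congr rfl fun x _ => ?_)
      split_ifs <;> simp
    · simp only [ht, hg, if_neg hj, sum_singleton]
      split_ifs <;> norm_num
  · simp_rw [sndF_prod]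
    have h2 : ∑ X : Fin l → Fin n → ZMod 2, ∏ j, (if X j ∈ K then (1 : ℝ) else 0) =
        ∏ _j : Fin l, ∑ x : W n, (if x ∈ K then (1 : ℝ) else 0) := by
      rw [Finset.prod_univ_sum, Fintype.piFinset_univ]
    rw [h2, Finset.prod_const, Finset.card_univ, Fintype.card_fin]
    congr 1
    rw [Finset.sum_boole, Nat.card_eq_fintype_card, Fintype.card_subtype]

theorem parLP_le (l n d : ℕ) : parLP l n d ≤ Lin.linLP l n d := by
  unfold parLP
  apply csSup_le
  · exact ⟨_, snd_mem l n d ⊥ (by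
      intro x hx hx0
      exact absurd ((Submodule.mem_bot _).1 hx) hx0)⟩
  · rintro s ⟨f, h1, _, h3, h4, rfl⟩
    exact snd_le h1 h3 h4

theorem sound (l n d : ℕ) (K : Submodule (ZMod 2) (Fin n → ZMod 2))
    (hK : ∀ x ∈ K, x ≠ 0 → d ≤ hammingNorm x) : (Nat.card K : ℝ) ^ l ≤ parLP l n d := by
  unfold parLP
  refine le_csSup ⟨Lin.linLP l n d, ?_⟩ (snd_mem l n d K hK)
  rintro s ⟨f, h1, _, h3, h4, rfl⟩
  exact snd_le h1 h3 h4

end Pool.Agent.Lib.MP_0430e4_lc.Lgv
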