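import Pool.Agent.Lib.MP_0430e4_lc.Lgv.PAR
import Pool.Agent.Lib.MP_0430e4_lc.Lgv.SND

/-!
# ASM: the assembly

PROOF. `f = fA (M/(2^(l*l+4) C)) φ`. Feasibility: fA_zero, fA_inv, fA_bad (`hammingNorm = wt`), par_nonneg
(`∏ i, if Z j i = 1 ∧ Y j i = 1 then -1 else 1 = chw (Y j) (Z j)`). `∑ gg > 0`: `hG 0 l` with `Θ = 0` gives
`Gh >= 1 - C/M > 0`, and for `u = 0` `gc φ X Z = gg φ Z`. Value: fA_total. The set of values is bounded above:
`f` is also feasible for Lin.linLP (take `S = univ`, and `S = ∅` for `f >= 0`), Lin/BDD.lean has the bound.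
-/

set_option autoImplicit false

namespace Pool.Agent.Lib.MP_0430e4_lc.Lgv

open Finset
open Pool.Agent.Lib.MP_0430e4_lc.Lin (W wt chw sg)

variable {n : ℕ}

/-- Without fixed words the two products agree. -/
theorem asm_gc {l : ℕ} (φ : W n → ℝ) (X : Fin 0 → W n) (Z : Fin l → W n) :
    gc φ X Z = gg φ Z := by
  classical
  unfold gc gg
  refine Finset.prod_bij' (fun p _ => p.2) (fun a _ => ((fun i => i.elim0), a)) ?_ ?_ ?_ ?_ ?_
  · intro p hp
    simpa [Pz] using hp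
  · intro a ha
    simpa [Pz] using ha
  · intro p hp
    exact Prod.ext (Subsingleton.elim _ _) rfl
  · intro a ha
    rfl
  · intro p hp
    have h : wd X Z p = cmb Z p.2 := by
      unfold wd cmb
      simp
    rw [h]

theorem asm_cht {j : ℕ} (Z : Fin j → W n) : cht 0 Z = 1 := by
  unfold cht
  refine Finset.prod_eq_one fun i _ => ?_
  unfold Lin.chw
  refine Finset.prod_eq_one fun k _ => ?_
  simp [Lin.sg]

theorem asm_wt (x : W n) : hammingNorm x = wt x := by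
  unfold hammingNorm Lin.wt
  rfl

theorem asm_pos {l d : ℕ} {φ : W n → ℝ} {M C : ℝ}
    (hC : 1 ≤ C) (hM : 2 ^ (l * l + 4) * C ≤ M)
    (hG : ∀ u j : ℕ, u + j = l → ∀ X : Fin u → W n, Good d X → ∀ Θ : Fin j → W n,
      |Gh φ X Θ - if Θ = 0 then 1 else 0| ≤ C * M⁻¹ ^ max (rk Θ) 1) :
    0 < ∑ Y : Fin l → W n, gg φ Y := by
  have h := hG 0 l (zero_add l) (fun i => i.elim0)
    (fun a ha => absurd (Subsingleton.elim a 0) ha) 0
  rw [if_pos rfl] at h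
  unfold Gh at h
  simp_rw [asm_gc, asm_cht, mul_one] at h
  have h16 : (16 : ℝ) ≤ 2 ^ (l * l + 4) := by
    rw [pow_add]
    have : (1 : ℝ) ≤ 2 ^ (l * l) := one_le_pow₀ (by norm_num)
    nlinarith
  have hM16 : 16 * C ≤ M := le_trans (mul_le_mul_of_nonneg_right h16 (by linarith)) hM
  have hM0 : 0 < M := by linarith
  have hM1 : M⁻¹ ≤ 1 := inv_le_one_of_one_le₀ (by linarith)
  have hp : M⁻¹ ^ max (rk (0 : Fin l → W n)) 1 ≤ M⁻¹ ^ 1 :=
    pow_le_pow_of_le_one (inv_nonneg.2 hM0.le) hM1 (le_max_right _ _)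
  rw [pow_one] at hp
  have hp2 : C * M⁻¹ ^ max (rk (0 : Fin l → W n)) 1 ≤ C * M⁻¹ :=
    mul_le_mul_of_nonneg_left hp (by linarith)
  have hp3 : C * M⁻¹ ≤ 1 / 16 := by
    rw [← div_eq_mul_inv, div_le_iff₀ hM0]
    linarith
  have h1 := (abs_le.1 (h.trans (hp2.trans hp3))).1
  have h2 : 0 < (∑ Z : Fin l → W n, gg φ Z) / 2 ^ (n * l) := by linarith
  have h3 : (0 : ℝ) < 2 ^ (n * l) := by positivity
  by_contra hcon
  push Not at hcon
  exact absurd (div_nonpos_of_nonpos_of_nonneg hcon h3.le) (not_le.2 h2)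

/-- THE ASSEMBLY. -/
theorem asm {l d : ℕ} (hd : 1 ≤ d) {φ : W n → ℝ} {M C : ℝ} (hφ0 : ∀ x, wt x < d → φ x = -1)
    (hφ1 : ∀ x, -1 ≤ φ x) (hC : 1 ≤ C) (hM : 2 ^ (l * l + 4) * C ≤ M)
    (hG : ∀ u j : ℕ, u + j = l → ∀ X : Fin u → W n, Good d X → ∀ Θ : Fin j → W n,
      |Gh φ X Θ - if Θ = 0 then 1 else 0| ≤ C * M⁻¹ ^ max (rk Θ) 1) :
    (M / (2 ^ (l * l + 4) * C)) ^ l ≤ parLP l n d := by
  have hs := asm_pos hC hM hG
  have hc : 0 ≤ M / (2 ^ (l * l + 4) * C) := by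
    have hC0 : 0 < C := by linarith
    have h1 : 0 < 2 ^ (l * l + 4) * C := by positivity
    exact div_nonneg (h1.le.trans hM) h1.le
  refine (fA_total hc hs).trans ?_
  unfold parLP
  refine le_csSup ⟨Lin.linLP l n d, ?_⟩ ⟨fA (M / (2 ^ (l * l + 4) * C)) φ, ?_, ?_, ?_, ?_, rfl⟩
  · rintro s ⟨f, h1, _, h3, h4, rfl⟩
    exact snd_le h1 h3 h4
  · exact fA_zero hd hφ0 hs.ne'
  · intro A hA X
    exact fA_inv A hA X
  · rintro X ⟨a, ha, had⟩
    rw [asm_wt] at ha had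
    exact fA_bad hφ0 ha had
  · intro S X Y
    have h := par_nonneg hd hφ0 hφ1 hC hM hG S X Y
    simp_rw [snd_chw]
    exact h

end Pool.Agent.Lib.MP_0430e4_lc.Lgv
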