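import Pool.Agent.Lib.MP_0430e4_lc.Lgv.PARB
import Pool.Agent.Lib.MP_0430e4_lc.Lgv.SND

/-!
# ASMB: the assembly, stronger version

PROOF. `f = fA c φ`. Feasibility: fA_zero, fA_inv, fA_bad (`hammingNorm = wt`), par_nonnegB. `∑ gg > 0`:
`hG 0 l` with `Θ = 0`. Value: fA_total. The set of values is bounded above by `Lin.linLP`.
-/

set_option autoImplicit false

namespace Pool.Agent.Lib.MP_0430e4_lc.Lgv

open Finset
open Pool.Agent.Lib.MP_0430e4_lc.Lin (W wt chw sg)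

variable {n : ℕ}

/-- Without fixed words the two products agree. -/
theorem asmb_gc {l : ℕ} (φ : W n → ℝ) (X : Fin 0 → W n) (Z : Fin l → W n) :
    gc φ X Z = gg φ Z := by
  classical
  unfold gc gg
  refine Finset.prod_bij' (fun p _ => p.2) (fun a _ => ((fun i => i.elim0), a)) ?_ ?_ ?_ ?_ ?_
  · intro p hp
    simpa [Pz] using hp
  · intro a ha
    simpa [Pz] using ha
  · intro p hp
    exact Prod.ext (Subsingleton.elim _ _) rfl
  · intro a ha
    rfl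
  · intro p hp
    have h : wd X Z p = cmb Z p.2 := by
      unfold wd cmb
      simp
    rw [h]

theorem asmb_cht {j : ℕ} (Z : Fin j → W n) : cht 0 Z = 1 := by
  unfold cht
  refine Finset.prod_eq_one fun i _ => ?_
  unfold Lin.chw
  refine Finset.prod_eq_one fun k _ => ?_
  simp [Lin.sg]

theorem asmb_wt (x : W n) : hammingNorm x = wt x := by
  unfold hammingNorm Lin.wt
  rfl

theorem asmb_pos {l : ℕ} {d : ℕ} {φ : W n → ℝ} {M c : ℝ}
    (hc : 1 ≤ c) (hM : 2 ^ (2 * l + 2) * c ≤ M)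
    (hG : ∀ u j : ℕ, u + j = l → ∀ X : Fin u → W n, Good d X → ∀ Θ : Fin j → W n,
      |Gh φ X Θ - if Θ = 0 then 1 else 0| ≤ M⁻¹ ^ max (rk Θ) 1) :
    0 < ∑ Y : Fin l → W n, gg φ Y := by
  have h := hG 0 l (zero_add l) (fun i => i.elim0)
    (fun a ha => absurd (Subsingleton.elim a 0) ha) 0
  rw [if_pos rfl] at h
  unfold Gh at h
  simp_rw [asmb_gc, asmb_cht, mul_one] at h
  have h4 : (4 : ℝ) ≤ 2 ^ (2 * l + 2) := by
    rw [pow_add]
    have : (1 : ℝ) ≤ 2 ^ (2 * l) := one_le_pow₀ (by norm_num)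
    nlinarith
  have hM4 : 4 ≤ M := by nlinarith
  have hM0 : 0 < M := by linarith
  have hM1 : M⁻¹ ≤ 1 := inv_le_one_of_one_le₀ (by linarith)
  have hp : M⁻¹ ^ max (rk (0 : Fin l → W n)) 1 ≤ M⁻¹ ^ 1 :=
    pow_le_pow_of_le_one (inv_nonneg.2 hM0.le) hM1 (le_max_right _ _)
  rw [pow_one] at hp
  have hp3 : M⁻¹ ≤ 1 / 4 := by
    rw [inv_eq_one_div]
    exact one_div_le_one_div_of_le (by norm_num) hM4
  have h1 := (abs_le.1 (h.trans (hp.trans hp3))).1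
  have h2 : 0 < (∑ Z : Fin l → W n, gg φ Z) / 2 ^ (n * l) := by linarith
  have h3 : (0 : ℝ) < 2 ^ (n * l) := by positivity
  by_contra hcon
  push Not at hcon
  exact absurd (div_nonpos_of_nonpos_of_nonneg hcon h3.le) (not_le.2 h2)

/-- THE ASSEMBLY, stronger version. -/
theorem asmB {l d : ℕ} (hd : 1 ≤ d) {φ : W n → ℝ} {M c : ℝ} (hφ0 : ∀ x, wt x < d → φ x = -1)
    (hφ1 : ∀ x, -1 ≤ φ x) (hc : 1 ≤ c) (hM : 2 ^ (2 * l + 2) * c ≤ M)
    (hG : ∀ u j : ℕ, u + j = l → ∀ X : Fin u → W n, Good d X → ∀ Θ : Fin j → W n,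
      |Gh φ X Θ - if Θ = 0 then 1 else 0| ≤ M⁻¹ ^ max (rk Θ) 1) :
    c ^ l ≤ parLP l n d := by
  have hs := asmb_pos hc hM hG
  refine (fA_total (zero_le_one.trans hc) hs).trans ?_
  unfold parLP
  refine le_csSup ⟨Lin.linLP l n d, ?_⟩ ⟨fA c φ, ?_, ?_, ?_, ?_, rfl⟩
  · rintro s ⟨f, h1, _, h3, h4, rfl⟩
    exact snd_le h1 h3 h4
  · exact fA_zero hd hφ0 hs.ne'
  · intro A hA X
    exact fA_inv A hA X
  · rintro X ⟨a, ha, had⟩
    rw [asmb_wt] at ha had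
    exact fA_bad hφ0 ha had
  · intro S X Y
    have h := par_nonnegB hd hφ0 hφ1 hc hM hG S X Y
    simp_rw [snd_chw]
    exact h

end Pool.Agent.Lib.MP_0430e4_lc.Lgv
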