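import Pool.Agent.Lib.MP_0430e4_lc.Lgv.Defs

/-!
# BAS: completion of independent coefficient vectors

PROOF. Extend `b` to a basis `b ⊕ e` of `Fin l → ZMod 2` (Module.Basis.sumExtend and a reindexing; the number
of new vectors is `l - u = j`). (1) coordinates with respect to the basis. (2) A tuple `Y` is the linear map
`cmb Y` from `Fin l → ZMod 2` to words, and a linear map is given by its values on a basis (Module.Basis.constr).
(3) the span of `b` and the vectors `∑ C s i • b i + ∑ B s k • e k` is the span of `b` and `∑ B s k • e k`, i.e. in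
coordinates the direct sum of everything and the row space of `B`.
-/

set_option autoImplicit false

namespace Pool.Agent.Lib.MP_0430e4_lc.Lgv

open Finset
open Pool.Agent.Lib.MP_0430e4_lc.Lin (W wt chw sg)

/-- extension to a basis -/
theorem bas_exists_basis {l u j : ℕ} (huj : u + j = l) {b : Fin u → Fin l → ZMod 2}
    (hb : LinearIndependent (ZMod 2) b) : ∃ e : Fin j → Fin l → ZMod 2,
      ∃ β : Module.Basis (Fin u ⊕ Fin j) (ZMod 2) (Fin l → ZMod 2),
        (∀ i, β (Sum.inl i) = b i) ∧ ∀ k, β (Sum.inr k) = e k := by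
  obtain ⟨q, hq⟩ := Submodule.exists_isCompl (Submodule.span (ZMod 2) (Set.range b))
  have h1 : Module.finrank (ZMod 2) (Submodule.span (ZMod 2) (Set.range b)) = u := by
    rw [finrank_span_eq_card hb, Fintype.card_fin]
  have h2 := Submodule.finrank_add_eq_of_isCompl hq
  rw [h1, Module.finrank_fin_fun] at h2
  have h3 : Module.finrank (ZMod 2) q = j := by omega
  obtain ⟨c⟩ : Nonempty (Module.Basis (Fin j) (ZMod 2) q) := ⟨Module.finBasisOfFinrankEq _ _ h3⟩
  have hc : LinearIndependent (ZMod 2) (fun k => (c k : Fin l → ZMod 2)) :=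
    c.linearIndependent.map' q.subtype (Submodule.ker_subtype q)
  have hspan : Submodule.span (ZMod 2) (Set.range (fun k => (c k : Fin l → ZMod 2))) ≤ q := by
    rw [Submodule.span_le]
    rintro _ ⟨k, rfl⟩
    exact (c k).2
  have hli : LinearIndependent (ZMod 2) (Sum.elim b (fun k => (c k : Fin l → ZMod 2))) :=
    hb.sum_type hc (hq.disjoint.mono_right hspan)
  have hcard : Fintype.card (Fin u ⊕ Fin j) = Module.finrank (ZMod 2) (Fin l → ZMod 2) := by
    rw [Fintype.card_sum, Fintype.card_fin, Fintype.card_fin, Module.finrank_fin_fun, huj]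
  have hne : Nonempty (Fin u ⊕ Fin j) ∨ IsEmpty (Fin u ⊕ Fin j) := (isEmpty_or_nonempty _).symm
  refine ⟨fun k => (c k : Fin l → ZMod 2), Module.Basis.mk hli ?_, ?_, ?_⟩
  · have := hli.span_eq_top_of_card_eq_finrank' hcard
    rw [this]
  · intro i
    rw [Module.Basis.mk_apply]
    rfl
  · intro k
    rw [Module.Basis.mk_apply]
    rfl

/-- product of everything and a subspace -/
noncomputable def basProdEquiv {M₁ M₂ : Type} [AddCommGroup M₁] [Module (ZMod 2) M₁]
    [AddCommGroup M₂] [Module (ZMod 2) M₂] (q : Submodule (ZMod 2) M₂) :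
    (M₁ × q) ≃ₗ[ZMod 2] (Submodule.prod (⊤ : Submodule (ZMod 2) M₁) q) where
  toFun p := ⟨(p.1, p.2.1), ⟨trivial, p.2.2⟩⟩
  map_add' _ _ := rfl
  map_smul' _ _ := rfl
  invFun x := (x.1.1, ⟨x.1.2, x.2.2⟩)
  left_inv _ := rfl
  right_inv _ := rfl

theorem bas_finrank {u j : ℕ} (q : Submodule (ZMod 2) (Fin j → ZMod 2)) :
    Module.finrank (ZMod 2) (Submodule.prod (⊤ : Submodule (ZMod 2) (Fin u → ZMod 2)) q) =
      u + Module.finrank (ZMod 2) q := by
  rw [← (basProdEquiv (M₁ := Fin u → ZMod 2) q).finrank_eq, Module.finrank_prod,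
    Module.finrank_fin_fun]

theorem bas_span {u j : ℕ} {S : Type} (C : Matrix S (Fin u) (ZMod 2))
    (B : Matrix S (Fin j) (ZMod 2)) :
    Submodule.span (ZMod 2) (Set.range (fun i : Fin u =>
        ((Pi.single i 1, 0) : (Fin u → ZMod 2) × (Fin j → ZMod 2))) ∪
        Set.range fun s => ((C s, B s) : (Fin u → ZMod 2) × (Fin j → ZMod 2))) =
      Submodule.prod ⊤ (Submodule.span (ZMod 2) (Set.range B.row)) := by
  apply le_antisymm
  · rw [Submodule.span_le]
    rintro _ (⟨i, rfl⟩ | ⟨s, rfl⟩)
    · exact ⟨trivial, Submodule.zero_mem _⟩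
    · exact ⟨trivial, Submodule.subset_span ⟨s, rfl⟩⟩
  · obtain ⟨T, hT⟩ : ∃ T, T = Submodule.span (ZMod 2) (Set.range (fun i : Fin u =>
        ((Pi.single i 1, 0) : (Fin u → ZMod 2) × (Fin j → ZMod 2))) ∪
        Set.range fun s => ((C s, B s) : (Fin u → ZMod 2) × (Fin j → ZMod 2))) := ⟨_, rfl⟩
    rw [← hT]
    have hx : ∀ x : Fin u → ZMod 2, ((x, 0) : (Fin u → ZMod 2) × (Fin j → ZMod 2)) ∈ T := by
      intro x
      have e : ((x, 0) : (Fin u → ZMod 2) × (Fin j → ZMod 2)) =
          ∑ i, x i • ((Pi.single i 1, 0) : (Fin u → ZMod 2) × (Fin j → ZMod 2)) := by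
        apply Prod.ext
        · rw [Prod.fst_sum]
          simp only [Prod.smul_mk]
          exact (pi_eq_sum_univ' x).trans (Finset.sum_congr rfl fun i _ => by
            congr 1)
        · rw [Prod.snd_sum]
          simp
      rw [e]
      refine Submodule.sum_mem _ fun i _ => Submodule.smul_mem _ _ ?_
      rw [hT]
      exact Submodule.subset_span (Or.inl ⟨i, rfl⟩)
    have hy : Submodule.span (ZMod 2) (Set.range B.row) ≤
        T.comap (LinearMap.inr (ZMod 2) (Fin u → ZMod 2) (Fin j → ZMod 2)) := by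
      rw [Submodule.span_le]
      rintro _ ⟨s, rfl⟩
      change ((0, B s) : (Fin u → ZMod 2) × (Fin j → ZMod 2)) ∈ T
      have e : ((0, B s) : (Fin u → ZMod 2) × (Fin j → ZMod 2)) = (C s, B s) - (C s, 0) := by
        simp
      rw [e]
      refine Submodule.sub_mem _ ?_ (hx _)
      rw [hT]
      exact Submodule.subset_span (Or.inr ⟨s, rfl⟩)
    rintro ⟨x, y⟩ ⟨_, hy'⟩
    have e : ((x, y) : (Fin u → ZMod 2) × (Fin j → ZMod 2)) = (x, 0) + (0, y) := by simp
    rw [e]
    exact Submodule.add_mem _ (hx x) (hy hy')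

/-- Completion of independent coefficient vectors. -/
theorem exists_compl {l u j : ℕ} (huj : u + j = l) {b : Fin u → Fin l → ZMod 2}
    (hb : LinearIndependent (ZMod 2) b) : ∃ e : Fin j → Fin l → ZMod 2,
      Function.Bijective (fun p : P u j => ∑ i, p.1 i • b i + ∑ k, p.2 k • e k) ∧
      (∀ n : ℕ, Function.Bijective (fun Y : Fin l → W n =>
        ((fun i => cmb Y (b i), fun k => cmb Y (e k)) : (Fin u → W n) × (Fin j → W n)))) ∧
      ∀ (S : Type) [Fintype S] [DecidableEq S] (C : Matrix S (Fin u) (ZMod 2))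
        (B : Matrix S (Fin j) (ZMod 2)),
        Module.finrank (ZMod 2) (Submodule.span (ZMod 2) (Set.range b ∪
          Set.range fun s => ∑ i, C s i • b i + ∑ k, B s k • e k)) = u + B.rank := by
  obtain ⟨e, β, hβl, hβr⟩ := bas_exists_basis huj hb
  let Φ : ((Fin u → ZMod 2) × (Fin j → ZMod 2)) ≃ₗ[ZMod 2] (Fin l → ZMod 2) :=
    (LinearEquiv.sumArrowLequivProdArrow (Fin u) (Fin j) (ZMod 2) (ZMod 2)).symm.trans
      β.equivFun.symm
  have hΦ : ∀ p, Φ p = ∑ i, p.1 i • b i + ∑ k, p.2 k • e k := by
    intro p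
    change β.equivFun.symm ((LinearEquiv.sumArrowLequivProdArrow (Fin u) (Fin j) (ZMod 2)
      (ZMod 2)).symm p) = _
    rw [Module.Basis.equivFun_symm_apply, Fintype.sum_sum_type]
    simp only [hβl, hβr]
    rfl
  refine ⟨e, ?_, ?_, ?_⟩
  · have : (fun p : P u j => ∑ i, p.1 i • b i + ∑ k, p.2 k • e k) = Φ := by
      funext p
      exact (hΦ p).symm
    rw [this]
    exact Φ.bijective
  · intro n
    have hlin : ∀ Y : Fin l → W n, ∃ f : (Fin l → ZMod 2) →ₗ[ZMod 2] W n, ∀ a, f a = cmb Y a := by
      intro Y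
      refine ⟨Fintype.linearCombination (ZMod 2) Y, fun a => ?_⟩
      rw [Fintype.linearCombination_apply]
      rfl
    have hsingle : ∀ (Y : Fin l → W n) (k : Fin l), cmb Y (Pi.single k 1) = Y k := by
      intro Y k
      unfold cmb
      rw [Finset.sum_eq_single k]
      · simp
      · intro i _ hi
        rw [Pi.single_eq_of_ne hi, zero_smul]
      · intro h; exact absurd (Finset.mem_univ _) h
    constructor
    · intro Y Y' h
      obtain ⟨f, hf⟩ := hlin Y
      obtain ⟨f', hf'⟩ := hlin Y'
      have h1 := congrArg Prod.fst h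
      have h2 := congrArg Prod.snd h
      have hff : f = f' := by
        apply β.ext
        rintro (i | k)
        · rw [hβl, hf, hf']; exact congrFun h1 i
        · rw [hβr, hf, hf']; exact congrFun h2 k
      funext k
      rw [← hsingle Y k, ← hsingle Y' k, ← hf, ← hf', hff]
    · rintro ⟨X, Z⟩
      let f : (Fin l → ZMod 2) →ₗ[ZMod 2] W n := β.constr (ZMod 2) (Sum.elim X Z)
      have hcmb : ∀ a, cmb (fun k => f (Pi.single k 1)) a = f a := by
        intro a
        have ha : a = ∑ k, a k • (Pi.single k 1 : Fin l → ZMod 2) :=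
          (pi_eq_sum_univ' a).trans (Finset.sum_congr rfl fun i _ => by
            congr 1)
        conv_rhs => rw [ha]
        rw [map_sum]
        unfold cmb
        exact Finset.sum_congr rfl fun k _ => (map_smul f _ _).symm
      refine ⟨fun k => f (Pi.single k 1), ?_⟩
      apply Prod.ext
      · funext i
        change cmb (fun k => f (Pi.single k 1)) (b i) = X i
        rw [hcmb, ← hβl]
        change β.constr (ZMod 2) (Sum.elim X Z) (β (Sum.inl i)) = X i
        rw [Module.Basis.constr_basis]
        rfl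
      · funext i
        change cmb (fun k => f (Pi.single k 1)) (e i) = Z i
        rw [hcmb, ← hβr]
        change β.constr (ZMod 2) (Sum.elim X Z) (β (Sum.inr i)) = Z i
        rw [Module.Basis.constr_basis]
        rfl
  · intro S _ _ C B
    have h1 : (Set.range b ∪ Set.range fun s => ∑ i, C s i • b i + ∑ k, B s k • e k) =
        Φ '' (Set.range (fun i : Fin u =>
          ((Pi.single i 1, 0) : (Fin u → ZMod 2) × (Fin j → ZMod 2))) ∪
          Set.range fun s => ((C s, B s) : (Fin u → ZMod 2) × (Fin j → ZMod 2))) := by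
      rw [Set.image_union, ← Set.range_comp, ← Set.range_comp]
      congr 2
      · funext i
        simp only [Function.comp_apply]
        rw [hΦ]
        simp only [Pi.zero_apply, zero_smul, Finset.sum_const_zero, add_zero]
        rw [Finset.sum_eq_single i]
        · simp
        · intro k _ hk
          rw [Pi.single_eq_of_ne hk, zero_smul]
        · intro h; exact absurd (Finset.mem_univ _) h
      · funext s
        simp only [Function.comp_apply]
        rw [hΦ]
    have h2 : Submodule.span (ZMod 2) (Φ '' (Set.range (fun i : Fin u =>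
          ((Pi.single i 1, 0) : (Fin u → ZMod 2) × (Fin j → ZMod 2))) ∪
          Set.range fun s => ((C s, B s) : (Fin u → ZMod 2) × (Fin j → ZMod 2)))) =
        (Submodule.prod ⊤ (Submodule.span (ZMod 2) (Set.range B.row))).map
          (Φ : ((Fin u → ZMod 2) × (Fin j → ZMod 2)) →ₗ[ZMod 2] (Fin l → ZMod 2)) := by
      rw [← bas_span C B, Submodule.map_span]
      rfl
    rw [h1, h2, LinearEquiv.finrank_map_eq, bas_finrank, Matrix.rank_eq_finrank_span_row]

end Pool.Agent.Lib.MP_0430e4_lc.Lgv
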