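import Pool.Agent.Lib.MP_0430e4_lc.Lgv.Defs

/-!
# BFT: the transform of the ball at middle frequencies

PROOF. Generating function: for complex `z`, `∑_x z^(wt x) chw w x = (1 - z)^(wt w) (1 + z)^(n - wt w)`
(product over the coordinates). With `N = n + 1` and a primitive `N`-th root of unity `ζ`,
`∑_{wt x = i} chw w x = (1/N) ∑_m (r ζ^m)^(-i) (1 - r ζ^m)^(wt w) (1 + r ζ^m)^(n - wt w)`, and
`|1 - z||1 + z| = |1 - z^2| <= 1 + r^2`, `|1 ± z| <= 1 + r` for `|z| = r`, so the sum over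
`wt x = i` is at most `r^(-i) (1 + r^2)^k (1 + r)^(n - 2 k)`. Sum over `i < d`, take
`r = δ / (1 - δ) <= 1`; `(1 + r^2)/(1 + r)^2 = (1-δ)^2 + δ^2`, `1 + r = 1/(1-δ)`.
(Alternative without complex numbers: pair `k` coordinates in the support of `w` with `k` outside;
swapping a pair with different entries changes the sign of `chw w x` and keeps the weight.)
-/

set_option autoImplicit false

namespace Pool.Agent.Lib.MP_0430e4_lc.Lgv

open Finset
open Pool.Agent.Lib.MP_0430e4_lc.Lin (W wt chw sg)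

variable {n : ℕ}

open Polynomial in
theorem bft_gen (w : W n) :
    ∑ x : W n, C (chw w x) * (X : ℝ[X]) ^ (wt x) = ∏ i, (1 + C (sg (w i)) * (X : ℝ[X])) := by
  have h1 := Finset.prod_univ_sum (fun _ : Fin n => (univ : Finset (ZMod 2)))
    (fun i a => C (sg (w i * a)) * (X : ℝ[X]) ^ (if a ≠ 0 then 1 else 0))
  rw [Fintype.piFinset_univ] at h1
  have h2 : ∀ i : Fin n, ∑ a : ZMod 2, C (sg (w i * a)) * (X : ℝ[X]) ^ (if a ≠ 0 then 1 else 0)
      = 1 + C (sg (w i)) * (X : ℝ[X]) := by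
    intro i
    have h3 : ∀ f : ZMod 2 → ℝ[X], ∑ a : ZMod 2, f a = f 0 + f 1 := by
      intro f
      exact Fin.sum_univ_two f
    rw [h3]
    simp [Lin.xsg_zero]
  rw [← prod_congr rfl fun i _ => h2 i, h1]
  refine sum_congr rfl fun x _ => ?_
  rw [prod_mul_distrib]
  congr 1
  · unfold Lin.chw
    rw [map_prod]
  · rw [prod_pow_eq_pow_sum]
    congr 1
    unfold Lin.wt
    rw [card_filter]

open Polynomial in
theorem bft_prod (w : W n) : ∏ i, (1 + C (sg (w i)) * (X : ℝ[X]))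
    = (1 - X) ^ (wt w) * (1 + X) ^ (n - wt w) := by
  rw [← prod_filter_mul_prod_filter_not univ (fun i => w i ≠ 0)]
  congr 1
  · have h1 : ∀ i ∈ univ.filter (fun i => w i ≠ 0), (1 + C (sg (w i)) * (X : ℝ[X])) = 1 - X := by
      intro i hi
      rw [mem_filter] at hi
      unfold Lin.sg
      rw [if_neg hi.2]
      simp [sub_eq_add_neg]
    rw [prod_congr rfl h1, prod_const]
    rfl
  · have h1 : ∀ i ∈ univ.filter (fun i => ¬ w i ≠ 0), (1 + C (sg (w i)) * (X : ℝ[X])) = 1 + X := by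
      intro i hi
      rw [mem_filter, not_not] at hi
      unfold Lin.sg
      rw [if_pos hi.2]
      simp
    rw [prod_congr rfl h1, prod_const]
    congr 1
    have h2 := card_filter_add_card_filter_not (s := (univ : Finset (Fin n))) (fun i => w i ≠ 0)
    rw [card_univ, Fintype.card_fin] at h2
    unfold Lin.wt
    omega

open Polynomial in
theorem bft_maj_mul {P P' Q Q' : ℝ[X]} (h : ∀ i, |P.coeff i| ≤ Q.coeff i)
    (h' : ∀ i, |P'.coeff i| ≤ Q'.coeff i) (i : ℕ) : |(P * P').coeff i| ≤ (Q * Q').coeff i := by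
  rw [coeff_mul, coeff_mul]
  refine (abs_sum_le_sum_abs _ _).trans (sum_le_sum fun ij _ => ?_)
  rw [abs_mul]
  exact mul_le_mul (h _) (h' _) (abs_nonneg _) ((abs_nonneg _).trans (h _))

open Polynomial in
theorem bft_maj_pow {P Q : ℝ[X]} (h : ∀ i, |P.coeff i| ≤ Q.coeff i) (m : ℕ) :
    ∀ i, |(P ^ m).coeff i| ≤ (Q ^ m).coeff i := by
  induction m with
  | zero =>
    intro i
    rw [pow_zero, pow_zero, coeff_one]
    split_ifs <;> simp
  | succ m ih =>
    intro i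
    rw [pow_succ, pow_succ]
    exact bft_maj_mul ih h i

open Polynomial in
theorem bft_maj_sub : ∀ i, |((1 : ℝ[X]) - X).coeff i| ≤ ((1 : ℝ[X]) + X).coeff i := by
  intro i
  rw [coeff_sub, coeff_add, coeff_one, coeff_X]
  rcases i with _ | _ | i
  · simp
  · simp
  · simp

open Polynomial in
theorem bft_maj_add : ∀ i, |((1 : ℝ[X]) + X).coeff i| ≤ ((1 : ℝ[X]) + X).coeff i := by
  intro i
  rw [coeff_add, coeff_one, coeff_X]
  rcases i with _ | _ | i
  · simp
  · simp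
  · simp

open Polynomial in
theorem bft_maj_sq : ∀ i, |((1 : ℝ[X]) - X ^ 2).coeff i| ≤ ((1 : ℝ[X]) + X ^ 2).coeff i := by
  intro i
  rw [coeff_sub, coeff_add, coeff_one, coeff_X_pow]
  rcases i with _ | _ | _ | i
  · simp
  · simp
  · simp
  · simp

open Polynomial in
theorem bft_coeff_le {k : ℕ} {w : W n} (hk : k ≤ wt w) (hk2 : wt w + k ≤ n) (i : ℕ) :
    |((1 - X : ℝ[X]) ^ (wt w) * (1 + X) ^ (n - wt w)).coeff i|
      ≤ ((1 + X ^ 2 : ℝ[X]) ^ k * (1 + X) ^ (n - 2 * k)).coeff i := by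
  have e1 : (1 - X : ℝ[X]) ^ (wt w) * (1 + X) ^ (n - wt w)
      = (1 - X ^ 2) ^ k * ((1 - X) ^ (wt w - k) * (1 + X) ^ (n - wt w - k)) := by
    have e2 : (1 - X ^ 2 : ℝ[X]) = (1 - X) * (1 + X) := by ring
    have e3 : (1 - X : ℝ[X]) ^ (wt w) = (1 - X) ^ k * (1 - X) ^ (wt w - k) := by
      rw [← pow_add]
      congr 1
      omega
    have e4 : (1 + X : ℝ[X]) ^ (n - wt w) = (1 + X) ^ k * (1 + X) ^ (n - wt w - k) := by
      rw [← pow_add]
      congr 1
      omega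
    rw [e2, mul_pow, e3, e4]
    ring
  have e6 : (1 + X ^ 2 : ℝ[X]) ^ k * (1 + X) ^ (n - 2 * k)
      = (1 + X ^ 2) ^ k * ((1 + X) ^ (wt w - k) * (1 + X) ^ (n - wt w - k)) := by
    rw [← pow_add]
    congr 2
    omega
  rw [e1, e6]
  exact bft_maj_mul (bft_maj_pow bft_maj_sq k)
    (bft_maj_mul (bft_maj_pow bft_maj_sub _) (bft_maj_pow bft_maj_add _)) i

open Polynomial in
theorem bft_coeff_pow_le {Q : ℝ[X]} (hQ : ∀ i, 0 ≤ Q.coeff i) {r : ℝ} (hr : 0 ≤ r) (i : ℕ) :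
    Q.coeff i * r ^ i ≤ Q.eval r := by
  rw [eval_eq_sum_range]
  by_cases hi : i ∈ range (Q.natDegree + 1)
  · exact single_le_sum (f := fun i => Q.coeff i * r ^ i)
      (fun j _ => mul_nonneg (hQ j) (pow_nonneg hr j)) hi
  · rw [mem_range, not_lt] at hi
    rw [coeff_eq_zero_of_natDegree_lt (by omega), zero_mul]
    exact sum_nonneg fun j _ => mul_nonneg (hQ j) (pow_nonneg hr j)

/-- The transform of the ball at middle frequencies. -/
theorem abs_ft_bl_le {d k : ℕ} {δ : ℝ} (h0 : 0 < δ) (h1 : δ ≤ 1 / 2) {w : W n} (hk : k ≤ wt w)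
    (hk2 : wt w + k ≤ n) :
    |ft (bl d) w| ≤ d * bet δ n d * ((1 - δ) ^ 2 + δ ^ 2) ^ k := by
  classical
  have h1δ : (0 : ℝ) < 1 - δ := by linarith
  set r : ℝ := δ / (1 - δ) with hr
  have hr0 : 0 < r := div_pos h0 h1δ
  have hr1 : r ≤ 1 := by
    rw [hr, div_le_one h1δ]
    linarith
  set P : Polynomial ℝ := (1 - Polynomial.X) ^ (wt w) * (1 + Polynomial.X) ^ (n - wt w) with hP
  set Q : Polynomial ℝ := (1 + Polynomial.X ^ 2) ^ k * (1 + Polynomial.X) ^ (n - 2 * k) with hQ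
  have hPQ : ∀ i, |P.coeff i| ≤ Q.coeff i := fun i => bft_coeff_le hk hk2 i
  have hQ0 : ∀ i, 0 ≤ Q.coeff i := fun i => (abs_nonneg _).trans (hPQ i)
  have hPx : P = ∑ x : W n, Polynomial.C (chw w x) * Polynomial.X ^ (wt x) := by
    rw [bft_gen, bft_prod]
  have hsum : ∑ x : W n, bl d x * chw w x = ∑ i ∈ range d, P.coeff i := by
    rw [hPx]
    simp only [Polynomial.finsetSum_coeff, Polynomial.coeff_C_mul, Polynomial.coeff_X_pow]
    rw [sum_comm]
    refine sum_congr rfl fun x _ => ?_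
    rw [← mul_sum, mul_comm]
    congr 1
    unfold bl
    rw [sum_ite_eq']
    simp only [mem_range]
  have hQr : Q.eval r = ((1 - δ) ^ 2 + δ ^ 2) ^ k * (1 / (1 - δ)) ^ n := by
    rw [hQ, Polynomial.eval_mul, Polynomial.eval_pow, Polynomial.eval_pow, Polynomial.eval_add,
      Polynomial.eval_add, Polynomial.eval_pow, Polynomial.eval_one, Polynomial.eval_X]
    have e1 : 1 + r ^ 2 = ((1 - δ) ^ 2 + δ ^ 2) * (1 / (1 - δ)) ^ 2 := by
      rw [hr]
      field_simp
    have e2 : 1 + r = 1 / (1 - δ) := by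
      rw [hr]
      field_simp
      ring
    rw [e1, e2, mul_pow, ← pow_mul, mul_assoc, ← pow_add]
    congr 2
    omega
  have hterm : ∀ i ∈ range d, |P.coeff i| ≤ Q.eval r * (1 / r) ^ d := by
    intro i hi
    rw [mem_range] at hi
    have h3 := bft_coeff_pow_le hQ0 hr0.le i
    have h4 : Q.coeff i ≤ Q.eval r * (1 / r) ^ i := by
      rw [one_div, inv_pow, ← div_eq_mul_inv, le_div_iff₀ (pow_pos hr0 i)]
      exact h3
    have h5 : (1 / r) ^ i ≤ (1 / r) ^ d := by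
      refine pow_le_pow_right₀ ?_ hi.le
      rw [le_div_iff₀ hr0]
      linarith
    have h6 : 0 ≤ Q.eval r := le_trans (mul_nonneg (hQ0 i) (pow_nonneg hr0.le i)) h3
    exact (hPQ i).trans (h4.trans (mul_le_mul_of_nonneg_left h5 h6))
  have hmain : |∑ x : W n, bl d x * chw w x| ≤ d * (Q.eval r * (1 / r) ^ d) := by
    rw [hsum]
    refine (abs_sum_le_sum_abs _ _).trans ((sum_le_sum hterm).trans (le_of_eq ?_))
    rw [sum_const, card_range, nsmul_eq_mul]
  have h2n : (0 : ℝ) < 2 ^ n := by positivity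
  unfold ft
  rw [abs_div, abs_of_pos h2n, div_le_iff₀ h2n]
  refine hmain.trans (le_of_eq ?_)
  rw [hQr]
  unfold bet
  have e3 : 1 / r = (1 - δ) / δ := by
    rw [hr, one_div_div]
  have e4 : (1 / (2 * (1 - δ))) ^ n * 2 ^ n = (1 / (1 - δ)) ^ n := by
    rw [← mul_pow]
    congr 1
    field_simp
  rw [e3, ← e4]
  ring

end Pool.Agent.Lib.MP_0430e4_lc.Lgv
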