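import Pool.Agent.Lib.MP_0430e4_lc.Lgv.Defs

/-!
# COL: sums over tuples, column by column

PROOF. `Z : Fin j → Fin n → ZMod 2` is the same as its columns `c : Fin n → Fin j → ZMod 2` (Equiv.piComm),
`wd X Z p i = (cmb X p.1) i + ∑ k, p.2 k * Z k i` depends only on column `i`, so the sum is
`∏ i, ∑ c : Fin j → ZMod 2, F i (fun p => (cmb X p.1) i + ∑ k, p.2 k * c k)` (Finset.prod_univ_sum or
Fintype.piFinset). The linear map `c ↦ (∑ k, p.2 k * c k)_p` is surjective (the second components are linearly
independent, `T.card <= j`), so its fibres have `2^(j - T.card)` elements; the translation by `(cmb X p.1) i`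
is a bijection.
-/

set_option autoImplicit false

namespace Pool.Agent.Lib.MP_0430e4_lc.Lgv

open Finset
open Pool.Agent.Lib.MP_0430e4_lc.Lin (W wt chw sg)

variable {n : ℕ}

theorem card_le_of_indp {u j : ℕ} {T : Finset (P u j)} (hT : Indp T) : T.card ≤ j := by
  have h := LinearIndependent.fintype_card_le_finrank hT
  rwa [Fintype.card_coe, Module.finrank_fin_fun] at h

theorem col_fiber {A B : Type} [AddCommGroup A] [Fintype A] [DecidableEq B] [AddCommGroup B]
    [Fintype B] (L : A →+ B) (hL : Function.Surjective L) (G : B → ℝ) (K : ℕ)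
    (hK : K * Fintype.card B = Fintype.card A) : ∑ c, G (L c) = K * ∑ b, G b := by
  have hB : 0 < Fintype.card B := Fintype.card_pos_iff.2 ⟨0⟩
  have hc : ∀ b, (univ.filter fun c => L c = b).card = (univ.filter fun c => L c = 0).card :=
    fun b => AddMonoidHom.card_fiber_eq_of_mem_range L (hL b) (hL 0)
  have hsum : ∑ b : B, (univ.filter fun c => L c = b).card = Fintype.card A := by
    rw [← Finset.card_univ]
    exact (Finset.card_eq_sum_card_fiberwise (f := L) (t := univ) (fun _ _ => mem_univ _)).symm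
  have hK' : (univ.filter fun c => L c = 0).card = K := by
    rw [sum_congr rfl fun b _ => hc b, sum_const, card_univ, smul_eq_mul, ← hK, mul_comm] at hsum
    exact Nat.eq_of_mul_eq_mul_right hB hsum
  rw [← Finset.sum_fiberwise univ (fun c => L c) (fun c => G (L c)), mul_sum]
  refine sum_congr rfl fun b _ => ?_
  rw [sum_congr rfl (g := fun _ => G b) (fun c hc => by rw [(mem_filter.1 hc).2]), sum_const,
    hc b, hK', nsmul_eq_mul]

theorem col_surj {u j : ℕ} {T : Finset (P u j)} (hT : Indp T) :
    Function.Surjective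
      (Matrix.mulVecLin (Matrix.of fun (p : {p // p ∈ T}) (k : Fin j) => (p : P u j).2 k)) := by
  rw [← LinearMap.range_eq_top]
  apply Submodule.eq_top_of_finrank_eq
  have h : (Matrix.of fun (p : {p // p ∈ T}) (k : Fin j) => (p : P u j).2 k).rank =
      Fintype.card {p // p ∈ T} := LinearIndependent.rank_matrix hT
  rw [Matrix.rank] at h
  rw [h, Module.finrank_fintype_fun_eq_card]

/-- Sums over tuples, column by column. -/
theorem sum_col {u j : ℕ} (X : Fin u → W n) {T : Finset (P u j)} (hT : Indp T)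
    (F : Fin n → ({p // p ∈ T} → ZMod 2) → ℝ) :
    ∑ Z : Fin j → W n, ∏ i, F i (fun p => wd X Z p i) =
      ∏ i, (2 ^ (j - T.card) * ∑ b : {p // p ∈ T} → ZMod 2, F i b) := by
  set M := Matrix.of fun (p : {p // p ∈ T}) (k : Fin j) => (p : P u j).2 k with hM
  have h1 : ∀ Z : Fin j → W n, ∏ i, F i (fun p => wd X Z p i) =
      ∏ i, F i (fun p => cmb X (p : P u j).1 i + Matrix.mulVecLin M (fun k => Z k i) p) := by
    intro Z
    refine prod_congr rfl fun i _ => ?_
    congr 1
    funext p
    simp only [wd, cmb, Pi.add_apply, Finset.sum_apply, Pi.smul_apply, smul_eq_mul, hM,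
      Matrix.mulVecLin_apply, Matrix.mulVec, dotProduct, Matrix.of_apply]
  rw [sum_congr rfl fun Z _ => h1 Z]
  have h2 : ∑ Z : Fin j → W n, ∏ i, F i (fun p => cmb X (p : P u j).1 i +
        Matrix.mulVecLin M (fun k => Z k i) p) =
      ∑ c : Fin n → Fin j → ZMod 2, ∏ i, F i (fun p => cmb X (p : P u j).1 i +
        Matrix.mulVecLin M (c i) p) :=
    Fintype.sum_equiv (Equiv.piComm fun _ _ => ZMod 2) _ _ fun Z => rfl
  rw [h2]
  have h3 := Finset.prod_univ_sum (fun _ : Fin n => (univ : Finset (Fin j → ZMod 2)))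
    (fun i c => F i (fun p => cmb X (p : P u j).1 i + Matrix.mulVecLin M c p))
  rw [Fintype.piFinset_univ] at h3
  rw [← h3]
  refine prod_congr rfl fun i _ => ?_
  have h4 := col_fiber (Matrix.mulVecLin M).toAddMonoidHom (col_surj hT)
    (fun b => F i (fun p => cmb X (p : P u j).1 i + b p)) (2 ^ (j - T.card)) (by
      rw [Fintype.card_fun, Fintype.card_fun, Fintype.card_coe, Fintype.card_fin, ZMod.card,
        ← pow_add, Nat.sub_add_cancel (card_le_of_indp hT)])
  have h5 : ∑ b : {p // p ∈ T} → ZMod 2, F i (fun p => cmb X (p : P u j).1 i + b p) =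
      ∑ b : {p // p ∈ T} → ZMod 2, F i b :=
    Fintype.sum_equiv (Equiv.addLeft (fun p : {p // p ∈ T} => cmb X (p : P u j).1 i)) _ _
      fun b => rfl
  rw [h5] at h4
  push_cast at h4
  exact h4

end Pool.Agent.Lib.MP_0430e4_lc.Lgv
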