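import Pool.Agent.Lib.MP_0430e4_lc.Lgv.PRB

/-!
# DEP: the bound for dependent sets

PROOF. `|φ x| <= bl d x + q`, so `|tr| <= ∑_{S ⊆ T} q^(|T| - |S|) E ∏_{p ∈ S} bl d (wd X Z p)`.
Let `S0 ⊆ S` be a maximal independent subset, `|S0| = rp S`. If `S` is not independent choose
`p ∈ S` not in `S0`: `E <= gam * bet^(rp S)` (avg_dep), so the term is `<= gam * q^(|T|-|S|) * q^(rp S)
<= gam * q^(rp T)` (as `rp T <= rp S + |T| - |S|`, `bet <= q <= 1`). If `S` is independent:
`E <= bet^|S|`, term `<= q^|T| <= q^(rp T + 1)` as `T` is dependent.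
-/

set_option autoImplicit false

namespace Pool.Agent.Lib.MP_0430e4_lc.Lgv

open Finset
open Pool.Agent.Lib.MP_0430e4_lc.Lin (W wt chw sg)

variable {n : ℕ}

private theorem dep_max {u j : ℕ} (S : Finset (P u j)) :
    ∃ S0 ⊆ S, Indp S0 ∧ S0.card = rp S ∧
      ∀ p ∈ S, p.2 ∈ Submodule.span (ZMod 2) (Prod.snd '' (S0 : Set (P u j))) := by
  classical
  obtain ⟨b, hb1, _, hb3, hb4⟩ := exists_linearIndepOn_extension (K := ZMod 2)
    (v := (Prod.snd : P u j → (Fin j → ZMod 2))) (s := ∅) (t := (S : Set (P u j)))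
    (linearIndepOn_empty _ _) (Set.empty_subset _)
  have hfin : b.Finite := S.finite_toSet.subset hb1
  set S0 : Finset (P u j) := hfin.toFinset with hS0
  have hcoe : (S0 : Set (P u j)) = b := hfin.coe_toFinset
  have hI : Indp S0 := by
    unfold Indp
    have h1 : LinearIndepOn (ZMod 2) (Prod.snd : P u j → (Fin j → ZMod 2)) (S0 : Set (P u j)) := by
      rw [hcoe]; exact hb4
    exact h1
  have hspan : Submodule.span (ZMod 2) (Prod.snd '' (S : Set (P u j))) =
      Submodule.span (ZMod 2) (Prod.snd '' (S0 : Set (P u j))) := by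
    apply le_antisymm
    · rw [Submodule.span_le, hcoe]
      exact hb3
    · refine Submodule.span_mono (Set.image_mono ?_)
      rw [hcoe]
      exact hb1
  refine ⟨S0, ?_, hI, ?_, ?_⟩
  · intro p hp
    have : p ∈ b := by rw [← hcoe]; exact hp
    exact hb1 this
  · unfold rp
    rw [hspan]
    have h2 := finrank_span_eq_card hI
    have h3 : Set.range (fun p : {p // p ∈ S0} => (p : P u j).2) =
        Prod.snd '' (S0 : Set (P u j)) := by
      ext x
      simp only [Set.mem_range, Set.mem_image, Subtype.exists, Finset.mem_coe, exists_prop]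
    rw [h3] at h2
    rw [h2, Fintype.card_coe]
  · intro p hp
    rw [← hspan]
    exact Submodule.subset_span ⟨p, hp, rfl⟩

private theorem dep_rp_le {u j : ℕ} {S T : Finset (P u j)} (hST : S ⊆ T) :
    rp T ≤ rp S + (T.card - S.card) := by
  classical
  unfold rp
  have h1 : Prod.snd '' (T : Set (P u j)) =
      Prod.snd '' (S : Set (P u j)) ∪ (((T \ S).image Prod.snd : Finset _) : Set (Fin j → ZMod 2)) := by
    rw [coe_image, ← Set.image_union]
    congr 1
    rw [coe_sdiff, Set.union_sdiff_cancel]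
    exact_mod_cast hST
  rw [h1, Submodule.span_union]
  have h2 := Submodule.finrank_add_le_finrank_add_finrank
    (Submodule.span (ZMod 2) (Prod.snd '' (S : Set (P u j))))
    (Submodule.span (ZMod 2) (((T \ S).image Prod.snd : Finset _) : Set (Fin j → ZMod 2)))
  have h3 := finrank_span_finset_le_card (R := ZMod 2) ((T \ S).image (Prod.snd : P u j → _))
  have h4 : ((T \ S).image (Prod.snd : P u j → (Fin j → ZMod 2))).card ≤ T.card - S.card := by
    refine le_trans card_image_le ?_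
    rw [card_sdiff_of_subset hST]
  unfold Set.finrank at h3
  omega

private theorem dep_bl_nonneg (d : ℕ) (x : W n) : 0 ≤ bl d x := by
  unfold bl
  split_ifs <;> norm_num

private theorem dep_abs {d : ℕ} {q : ℝ} (hq : 0 ≤ q) {φ : W n → ℝ}
    (hφ1 : ∀ x, wt x < d → φ x = -1) (hφ2 : ∀ x, d ≤ wt x → |φ x| ≤ q) (x : W n) :
    |φ x| ≤ bl d x + q := by
  unfold bl
  split_ifs with h
  · rw [hφ1 x h]
    simp
    exact hq
  · have := hφ2 x (by omega)
    linarith

private theorem dep_bet_nonneg {δ : ℝ} (h0 : 0 < δ) (h1 : δ < 1 / 2) (n d : ℕ) :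
    0 ≤ bet δ n d := by
  unfold bet
  have h2 : (0 : ℝ) ≤ (1 - δ) / δ := div_nonneg (by linarith) h0.le
  have h3 : (0 : ℝ) ≤ 1 / (2 * (1 - δ)) := div_nonneg (by norm_num) (by linarith)
  positivity

/-- one term of the sum over subsets -/
private theorem dep_term {u j d : ℕ} {δ q : ℝ} (h0 : 0 < δ) (h1 : δ < 1 / 2) (hd : δ * n ≤ d)
    (hq0 : bet δ n d ≤ q) (hq1 : q ≤ 1) {X : Fin u → W n} (hX : Good d X) {T : Finset (P u j)}
    (hT : T ⊆ Pz u j) (hI : ¬ Indp T) {S : Finset (P u j)} (hS : S ⊆ T) :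
    (∑ Z : Fin j → W n, ∏ p ∈ S, bl d (wd X Z p)) / 2 ^ (n * j) * q ^ (T.card - S.card) ≤
      max (gam δ n d) q * q ^ rp T := by
  classical
  have hb := dep_bet_nonneg h0 h1 n d
  have hq : 0 ≤ q := hb.trans hq0
  obtain ⟨S0, hS0, hS0I, hS0c, hS0s⟩ := dep_max S
  by_cases hSI : Indp S
  · -- independent subset
    have h2 := avg_ind (d := d) h0 h1.le X hSI
    have h3 : bet δ n d ^ S.card ≤ q ^ S.card := pow_le_pow_left₀ hb hq0 _
    have h4 : rp T + 1 ≤ T.card := by
      obtain ⟨T0, hT0, hT0I, hT0c, -⟩ := dep_max T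
      rw [← hT0c]
      rcases eq_or_ssubset_of_subset hT0 with h | h
      · exact absurd (h ▸ hT0I) hI
      · exact card_lt_card h
    have h5 : q ^ S.card * q ^ (T.card - S.card) = q ^ T.card := by
      rw [← pow_add]
      congr 1
      have := card_le_card hS
      omega
    calc (∑ Z : Fin j → W n, ∏ p ∈ S, bl d (wd X Z p)) / 2 ^ (n * j) * q ^ (T.card - S.card)
        ≤ q ^ S.card * q ^ (T.card - S.card) :=
          mul_le_mul_of_nonneg_right (h2.trans h3) (pow_nonneg hq _)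
      _ = q ^ T.card := h5
      _ ≤ q ^ (rp T + 1) := pow_le_pow_of_le_one hq hq1 h4
      _ = q * q ^ rp T := by ring
      _ ≤ max (gam δ n d) q * q ^ rp T :=
          mul_le_mul_of_nonneg_right (le_max_right _ _) (pow_nonneg hq _)
  · -- dependent subset
    have hne : S0 ≠ S := by
      rintro rfl
      exact hSI hS0I
    obtain ⟨p, hpS, hpS0⟩ := exists_of_ssubset (ssubset_of_subset_of_ne hS0 hne)
    have hp2 : p.2 ≠ 0 := by
      have := hT (hS hpS)
      unfold Pz at this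
      rw [mem_filter] at this
      exact this.2
    have h2 := avg_dep h0 h1 hd hX hS0I hpS0 hp2 (hS0s p hpS)
    have h3 : (∑ Z : Fin j → W n, ∏ p ∈ S, bl d (wd X Z p)) ≤
        ∑ Z : Fin j → W n, (∏ q ∈ S0, bl d (wd X Z q)) * bl d (wd X Z p) := by
      refine sum_le_sum fun Z _ => ?_
      have h4 : insert p S0 ⊆ S := insert_subset hpS hS0
      have h5 : ∏ q ∈ insert p S0, bl d (wd X Z q) =
          (∏ q ∈ S0, bl d (wd X Z q)) * bl d (wd X Z p) := by
        rw [prod_insert hpS0, mul_comm]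
      rw [← h5, ← prod_sdiff h4]
      refine mul_le_of_le_one_left (prod_nonneg fun q _ => dep_bl_nonneg _ _) ?_
      refine prod_le_one (fun q _ => dep_bl_nonneg _ _) fun q _ => ?_
      unfold bl
      split_ifs <;> norm_num
    have h2n : (0 : ℝ) < 2 ^ (n * j) := by positivity
    have h6 : (∑ Z : Fin j → W n, ∏ p ∈ S, bl d (wd X Z p)) / 2 ^ (n * j) ≤
        gam δ n d * bet δ n d ^ S0.card := le_trans (div_le_div_of_nonneg_right h3 h2n.le) h2
    have hg : 0 ≤ gam δ n d := by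
      unfold gam
      have : (0 : ℝ) ≤ 2 * (1 - δ) := by linarith
      positivity
    have h7 : bet δ n d ^ S0.card ≤ q ^ S0.card := pow_le_pow_left₀ hb hq0 _
    have h8 : rp T ≤ S0.card + (T.card - S.card) := by
      rw [hS0c]
      exact dep_rp_le hS
    calc (∑ Z : Fin j → W n, ∏ p ∈ S, bl d (wd X Z p)) / 2 ^ (n * j) * q ^ (T.card - S.card)
        ≤ gam δ n d * q ^ S0.card * q ^ (T.card - S.card) :=
          mul_le_mul_of_nonneg_right (h6.trans (mul_le_mul_of_nonneg_left h7 hg))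
            (pow_nonneg hq _)
      _ = gam δ n d * q ^ (S0.card + (T.card - S.card)) := by rw [pow_add]; ring
      _ ≤ gam δ n d * q ^ rp T :=
          mul_le_mul_of_nonneg_left (pow_le_pow_of_le_one hq hq1 h8) hg
      _ ≤ max (gam δ n d) q * q ^ rp T :=
          mul_le_mul_of_nonneg_right (le_max_left _ _) (pow_nonneg hq _)

/-- The bound for dependent sets. -/
theorem abs_tr_dep {u j d : ℕ} {δ q : ℝ} (h0 : 0 < δ) (h1 : δ < 1 / 2) (hd : δ * n ≤ d)
    {φ : W n → ℝ} (hφ1 : ∀ x, wt x < d → φ x = -1) (hφ2 : ∀ x, d ≤ wt x → |φ x| ≤ q)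
    (hq0 : bet δ n d ≤ q) (hq1 : q ≤ 1) {X : Fin u → W n} (hX : Good d X) {T : Finset (P u j)}
    (hT : T ⊆ Pz u j) (hI : ¬ Indp T) (Θ : Fin j → W n) :
    |tr φ X T Θ| ≤ 2 ^ T.card * (max (gam δ n d) q * q ^ rp T) := by
  classical
  have hq : 0 ≤ q := (dep_bet_nonneg h0 h1 n d).trans hq0
  have h2n : (0 : ℝ) < 2 ^ (n * j) := by positivity
  have hcht : ∀ Z : Fin j → W n, |cht Θ Z| = 1 := by
    intro Z
    unfold cht
    rw [abs_prod]
    exact prod_eq_one fun i _ => Lin.abs_chw _ _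
  have h3 : |tr φ X T Θ| ≤
      (∑ Z : Fin j → W n, ∏ p ∈ T, (bl d (wd X Z p) + q)) / 2 ^ (n * j) := by
    unfold tr
    rw [abs_div, abs_of_pos h2n]
    refine div_le_div_of_nonneg_right (le_trans (abs_sum_le_sum_abs _ _) ?_) h2n.le
    refine sum_le_sum fun Z _ => ?_
    rw [abs_mul, hcht, mul_one, abs_prod]
    exact prod_le_prod (fun p _ => abs_nonneg _) fun p _ => dep_abs hq hφ1 hφ2 _
  have h4 : (∑ Z : Fin j → W n, ∏ p ∈ T, (bl d (wd X Z p) + q)) / 2 ^ (n * j) =
      ∑ S ∈ T.powerset,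
        (∑ Z : Fin j → W n, ∏ p ∈ S, bl d (wd X Z p)) / 2 ^ (n * j) * q ^ (T.card - S.card) := by
    have h5 : ∀ Z : Fin j → W n, ∏ p ∈ T, (bl d (wd X Z p) + q) =
        ∑ S ∈ T.powerset, (∏ p ∈ S, bl d (wd X Z p)) * q ^ (T.card - S.card) := by
      intro Z
      rw [prod_add]
      refine sum_congr rfl fun S hS => ?_
      rw [prod_const, card_sdiff_of_subset (mem_powerset.1 hS)]
    rw [sum_congr rfl fun Z _ => h5 Z, sum_comm, sum_div]
    refine sum_congr rfl fun S _ => ?_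
    rw [← sum_mul]
    ring
  rw [h4] at h3
  refine h3.trans ?_
  have h6 : ∑ S ∈ T.powerset,
      (∑ Z : Fin j → W n, ∏ p ∈ S, bl d (wd X Z p)) / 2 ^ (n * j) * q ^ (T.card - S.card) ≤
        ∑ S ∈ T.powerset, max (gam δ n d) q * q ^ rp T :=
    sum_le_sum fun S hS => dep_term h0 h1 hd hq0 hq1 hX hT hI (mem_powerset.1 hS)
  rw [sum_const, card_powerset, nsmul_eq_mul] at h6
  push_cast at h6
  exact h6

end Pool.Agent.Lib.MP_0430e4_lc.Lgv
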