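import Pool.Agent.Lib.MP_0430e4_lc.Lgv.PRB

/-!
# DEPB: absolute bounds

PROOF. `|φ x| <= bl d x + q`, so `∏_{b} |φ| <= ∑_{S ⊆ b} q^(|b| - |S|) ∏_{p ∈ S} bl d (wd X Z p)` (Finset.prod_add).
avg_abs_ind: `avg_ind` for `S` (a subset of an independent set is independent), `bet <= q`, `2^|b|` subsets.
avg_abs_dep: if `p.2` is in the span of the second components of `S`: `avg_dep`, at most `gam * bet^|S|`;
otherwise `insert p S` is independent: `avg_ind` gives `bet^(|S| + 1) <= q * q^|S|`. See DEP.lean for a similar proof.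
-/

set_option autoImplicit false

namespace Pool.Agent.Lib.MP_0430e4_lc.Lgv

open Finset
open Pool.Agent.Lib.MP_0430e4_lc.Lin (W wt chw sg)

variable {n : ℕ}

private theorem depb_bl_nonneg (d : ℕ) (x : W n) : 0 ≤ bl d x := by
  unfold bl
  split_ifs <;> norm_num

private theorem depb_abs {d : ℕ} {q : ℝ} (hq : 0 ≤ q) {φ : W n → ℝ}
    (hφ1 : ∀ x, wt x < d → φ x = -1) (hφ2 : ∀ x, d ≤ wt x → |φ x| ≤ q) (x : W n) :
    |φ x| ≤ bl d x + q := by
  unfold bl
  split_ifs with h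
  · rw [hφ1 x h]
    simp
    exact hq
  · have := hφ2 x (by omega)
    linarith

private theorem depb_bet_nonneg {δ : ℝ} (h0 : 0 < δ) (h1 : δ < 1 / 2) (n d : ℕ) :
    0 ≤ bet δ n d := by
  unfold bet
  have h2 : (0 : ℝ) ≤ (1 - δ) / δ := div_nonneg (by linarith) h0.le
  have h3 : (0 : ℝ) ≤ 1 / (2 * (1 - δ)) := div_nonneg (by norm_num) (by linarith)
  positivity

private theorem depb_indp_mono {u j : ℕ} {S T : Finset (P u j)} (hST : S ⊆ T) (hT : Indp T) :
    Indp S := by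
  unfold Indp at *
  have h1 : LinearIndepOn (ZMod 2) (Prod.snd : P u j → (Fin j → ZMod 2)) (T : Set (P u j)) := hT
  have h2 : LinearIndepOn (ZMod 2) (Prod.snd : P u j → (Fin j → ZMod 2)) (S : Set (P u j)) :=
    h1.mono (by exact_mod_cast hST)
  exact h2

private theorem depb_indp_insert {u j : ℕ} [DecidableEq (P u j)] {S : Finset (P u j)}
    (hS : Indp S) {p : P u j}
    (hp : p.2 ∉ Submodule.span (ZMod 2) (Prod.snd '' (S : Set (P u j)))) :
    Indp (insert p S) := by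
  unfold Indp at *
  have h1 : LinearIndepOn (ZMod 2) (Prod.snd : P u j → (Fin j → ZMod 2)) (S : Set (P u j)) := hS
  have h2 : LinearIndepOn (ZMod 2) (Prod.snd : P u j → (Fin j → ZMod 2))
      ((insert p S : Finset (P u j)) : Set (P u j)) := by
    rw [coe_insert]
    exact h1.insert hp
  exact h2

/-- the common expansion -/
private theorem depb_main {u j d : ℕ} {q C : ℝ} (hq : 0 ≤ q)
    {φ : W n → ℝ} (hφ1 : ∀ x, wt x < d → φ x = -1) (hφ2 : ∀ x, d ≤ wt x → |φ x| ≤ q)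
    (X : Fin u → W n) (b : Finset (P u j)) (g : (Fin j → W n) → ℝ) (hg : ∀ Z, 0 ≤ g Z)
    (hS : ∀ S ⊆ b, (∑ Z : Fin j → W n, (∏ p ∈ S, bl d (wd X Z p)) * g Z) / 2 ^ (n * j) ≤
      q ^ S.card * C) :
    (∑ Z : Fin j → W n, (∏ p ∈ b, |φ (wd X Z p)|) * g Z) / 2 ^ (n * j) ≤
      (2 * q) ^ b.card * C := by
  classical
  have h2n : (0 : ℝ) < 2 ^ (n * j) := by positivity
  have h3 : (∑ Z : Fin j → W n, (∏ p ∈ b, |φ (wd X Z p)|) * g Z) / 2 ^ (n * j) ≤
      (∑ Z : Fin j → W n, (∏ p ∈ b, (bl d (wd X Z p) + q)) * g Z) / 2 ^ (n * j) := by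
    refine div_le_div_of_nonneg_right (sum_le_sum fun Z _ => ?_) h2n.le
    refine mul_le_mul_of_nonneg_right ?_ (hg Z)
    exact prod_le_prod (fun p _ => abs_nonneg _) fun p _ => depb_abs hq hφ1 hφ2 _
  have h4 : (∑ Z : Fin j → W n, (∏ p ∈ b, (bl d (wd X Z p) + q)) * g Z) / 2 ^ (n * j) =
      ∑ S ∈ b.powerset,
        (∑ Z : Fin j → W n, (∏ p ∈ S, bl d (wd X Z p)) * g Z) / 2 ^ (n * j) *
          q ^ (b.card - S.card) := by
    have h5 : ∀ Z : Fin j → W n, (∏ p ∈ b, (bl d (wd X Z p) + q)) * g Z =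
        ∑ S ∈ b.powerset, ((∏ p ∈ S, bl d (wd X Z p)) * g Z) * q ^ (b.card - S.card) := by
      intro Z
      rw [prod_add, sum_mul]
      refine sum_congr rfl fun S hS => ?_
      rw [prod_const, card_sdiff_of_subset (mem_powerset.1 hS)]
      ring
    rw [sum_congr rfl fun Z _ => h5 Z, sum_comm, sum_div]
    refine sum_congr rfl fun S _ => ?_
    rw [← sum_mul]
    ring
  rw [h4] at h3
  refine h3.trans ?_
  have h6 : ∑ S ∈ b.powerset,
      (∑ Z : Fin j → W n, (∏ p ∈ S, bl d (wd X Z p)) * g Z) / 2 ^ (n * j) *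
        q ^ (b.card - S.card) ≤ ∑ S ∈ b.powerset, q ^ b.card * C := by
    refine sum_le_sum fun S hSb => ?_
    have hSb' := mem_powerset.1 hSb
    have h7 := mul_le_mul_of_nonneg_right (hS S hSb') (pow_nonneg hq (b.card - S.card))
    refine h7.trans (le_of_eq ?_)
    have h8 : q ^ b.card = q ^ S.card * q ^ (b.card - S.card) := by
      rw [← pow_add]
      congr 1
      have := card_le_card hSb'
      omega
    rw [h8]
    ring
  rw [sum_const, card_powerset, nsmul_eq_mul] at h6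
  push_cast at h6
  refine h6.trans (le_of_eq ?_)
  rw [mul_pow]
  ring

theorem avg_abs_ind {u j d : ℕ} {δ q : ℝ} (h0 : 0 < δ) (h1 : δ < 1 / 2)
    {φ : W n → ℝ} (hφ1 : ∀ x, wt x < d → φ x = -1) (hφ2 : ∀ x, d ≤ wt x → |φ x| ≤ q)
    (hq0 : bet δ n d ≤ q) (X : Fin u → W n) {b : Finset (P u j)} (hb : Indp b) :
    (∑ Z : Fin j → W n, ∏ p ∈ b, |φ (wd X Z p)|) / 2 ^ (n * j) ≤ (2 * q) ^ b.card := by
  have hbt := depb_bet_nonneg h0 h1 n d
  have hq : 0 ≤ q := hbt.trans hq0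
  have h := depb_main (C := 1) hq hφ1 hφ2 X b (fun _ => 1) (fun _ => zero_le_one) (by
    intro S hS
    simp only [mul_one]
    exact (avg_ind h0 h1.le X (depb_indp_mono hS hb)).trans (pow_le_pow_left₀ hbt hq0 _))
  simpa only [mul_one] using h

theorem avg_abs_dep {u j d : ℕ} {δ q : ℝ} (h0 : 0 < δ) (h1 : δ < 1 / 2) (hd : δ * n ≤ d)
    {φ : W n → ℝ} (hφ1 : ∀ x, wt x < d → φ x = -1) (hφ2 : ∀ x, d ≤ wt x → |φ x| ≤ q)
    (hq0 : bet δ n d ≤ q) {X : Fin u → W n} (hX : Good d X) {b : Finset (P u j)} (hb : Indp b)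
    {p : P u j} (hp : p ∉ b) (hp2 : p.2 ≠ 0) :
    (∑ Z : Fin j → W n, (∏ p' ∈ b, |φ (wd X Z p')|) * bl d (wd X Z p)) / 2 ^ (n * j) ≤
      (2 * q) ^ b.card * max (gam δ n d) q := by
  classical
  have hbt := depb_bet_nonneg h0 h1 n d
  have hq : 0 ≤ q := hbt.trans hq0
  have hg : 0 ≤ gam δ n d := by
    unfold gam
    have : (0 : ℝ) ≤ 2 * (1 - δ) := by linarith
    positivity
  refine depb_main hq hφ1 hφ2 X b (fun Z => bl d (wd X Z p)) (fun Z => depb_bl_nonneg _ _) ?_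
  intro S hS
  have hSI := depb_indp_mono hS hb
  have hpS : p ∉ S := fun h => hp (hS h)
  have hpow : bet δ n d ^ S.card ≤ q ^ S.card := pow_le_pow_left₀ hbt hq0 _
  by_cases hs : p.2 ∈ Submodule.span (ZMod 2) (Prod.snd '' (S : Set (P u j)))
  · have h2 := avg_dep h0 h1 hd hX hSI hpS hp2 hs
    calc (∑ Z : Fin j → W n, (∏ p' ∈ S, bl d (wd X Z p')) * bl d (wd X Z p)) / 2 ^ (n * j)
        ≤ gam δ n d * bet δ n d ^ S.card := h2
      _ ≤ max (gam δ n d) q * q ^ S.card :=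
          mul_le_mul (le_max_left _ _) hpow (pow_nonneg hbt _) (hg.trans (le_max_left _ _))
      _ = _ := mul_comm _ _
  · have h2 := avg_ind (d := d) h0 h1.le X (depb_indp_insert hSI hs)
    rw [card_insert_of_notMem hpS] at h2
    have h3 : (∑ Z : Fin j → W n, (∏ p' ∈ S, bl d (wd X Z p')) * bl d (wd X Z p)) =
        ∑ Z : Fin j → W n, ∏ p' ∈ insert p S, bl d (wd X Z p') := by
      refine sum_congr rfl fun Z _ => ?_
      rw [prod_insert hpS, mul_comm]
    rw [h3]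
    calc (∑ Z : Fin j → W n, ∏ p' ∈ insert p S, bl d (wd X Z p')) / 2 ^ (n * j)
        ≤ bet δ n d ^ (S.card + 1) := h2
      _ ≤ q ^ (S.card + 1) := pow_le_pow_left₀ hbt hq0 _
      _ = q ^ S.card * q := pow_succ _ _
      _ ≤ q ^ S.card * max (gam δ n d) q :=
          mul_le_mul_of_nonneg_left (le_max_right _ _) (pow_nonneg hq _)

end Pool.Agent.Lib.MP_0430e4_lc.Lgv
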