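import Pool.Agent.Lib.MP_0430e4_lc.Lin.FBase

/-!
# Levels of the hierarchy for linear codes beyond Gilbert-Varshamov: definitions

Everything lives on all words of length `n` (not only on even words). `P u j` is the set of pairs
of coefficient vectors; a pair `(a, s)` stands for the word `cmb X a + cmb Z s`, where `X` is a
fixed and `Z` a variable tuple of words.
-/

set_option autoImplicit false

namespace Pool.Agent.Lib.MP_0430e4_lc.Lgv

open Finset
open Pool.Agent.Lib.MP_0430e4_lc.Lin (W wt chw sg)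

variable {n : ℕ}

/-- Fourier coefficients on all words. -/
noncomputable def ft (F : W n → ℝ) (w : W n) : ℝ := (∑ x, F x * chw w x) / 2 ^ n

/-- The indicator of the words of weight less than `d`. -/
noncomputable def bl (d : ℕ) (x : W n) : ℝ := if wt x < d then 1 else 0

/-- Low frequencies: weight at most `k` or at least `n - k`. -/
def Lo (n k : ℕ) : Finset (W n) := univ.filter fun w => wt w ≤ k ∨ n ≤ wt w + k

/-- The combination of the words `Y` with coefficients `a`. -/
def cmb {ι : Type} [Fintype ι] (Y : ι → W n) (a : ι → ZMod 2) : W n := ∑ k, a k • Y k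

/-- The dimension of the span of a tuple. -/
noncomputable def rk {ι V : Type} [AddCommGroup V] [Module (ZMod 2) V] (Y : ι → V) : ℕ :=
  Module.finrank (ZMod 2) (Submodule.span (ZMod 2) (Set.range Y))

/-- The product of `1 + φ` over all combinations of the words `Y`. -/
noncomputable def gg {ι : Type} [Fintype ι] (φ : W n → ℝ) (Y : ι → W n) : ℝ := by
  classical exact ∏ a ∈ univ.erase (0 : ι → ZMod 2), (1 + φ (cmb Y a))

/-- Pairs of coefficient vectors. -/
abbrev P (u j : ℕ) := (Fin u → ZMod 2) × (Fin j → ZMod 2)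

/-- The word of a pair. -/
def wd {u j : ℕ} (X : Fin u → W n) (Z : Fin j → W n) (p : P u j) : W n := cmb X p.1 + cmb Z p.2

/-- The pairs which involve the variable words. -/
def Pz (u j : ℕ) : Finset (P u j) := univ.filter fun p => p.2 ≠ 0

/-- The product of `1 + φ` over the words which involve the variable words. -/
noncomputable def gc {u j : ℕ} (φ : W n → ℝ) (X : Fin u → W n) (Z : Fin j → W n) : ℝ :=
  ∏ p ∈ Pz u j, (1 + φ (wd X Z p))

/-- The character of a tuple. -/
def cht {j : ℕ} (Θ Z : Fin j → W n) : ℝ := ∏ i, chw (Θ i) (Z i)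

/-- The transform of `gc` in the variable words. -/
noncomputable def Gh {u j : ℕ} (φ : W n → ℝ) (X : Fin u → W n) (Θ : Fin j → W n) : ℝ :=
  (∑ Z : Fin j → W n, gc φ X Z * cht Θ Z) / 2 ^ (n * j)

/-- All nonzero combinations of `X` have weight at least `d`. -/
def Good {u : ℕ} (d : ℕ) (X : Fin u → W n) : Prop := ∀ a : Fin u → ZMod 2, a ≠ 0 → d ≤ wt (cmb X a)

/-- Independence of the second components. -/
def Indp {u j : ℕ} (T : Finset (P u j)) : Prop :=
  LinearIndependent (ZMod 2) (fun p : {p // p ∈ T} => (p : P u j).2)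

/-- The rank of the second components. -/
noncomputable def rp {u j : ℕ} (T : Finset (P u j)) : ℕ :=
  Module.finrank (ZMod 2) (Submodule.span (ZMod 2) (Prod.snd '' (T : Set (P u j))))

/-- The transform of a product over the words of `T`. -/
noncomputable def tr {u j : ℕ} (φ : W n → ℝ) (X : Fin u → W n) (T : Finset (P u j))
    (Θ : Fin j → W n) : ℝ :=
  (∑ Z : Fin j → W n, (∏ p ∈ T, φ (wd X Z p)) * cht Θ Z) / 2 ^ (n * j)

/-- The bound for the measure of the ball. -/
noncomputable def bet (δ : ℝ) (n d : ℕ) : ℝ := ((1 - δ) / δ) ^ d * (1 / (2 * (1 - δ))) ^ n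

/-- The gain for dependent sets. -/
noncomputable def gam (δ : ℝ) (n d : ℕ) : ℝ :=
  (2 * (1 - δ)) ^ d * Real.exp (-(1 - 1 / (2 * (1 - δ))) * (2 * δ * (1 - δ)) * n)

/-- The level `l` of the linear programming hierarchy for linear codes with all partial
transforms. -/
noncomputable def parLP (l n d : ℕ) : ℝ :=
  sSup {s : ℝ | ∃ f : (Fin l → Fin n → ZMod 2) → ℝ,
    f 0 = 1 ∧
    (∀ A : Matrix (Fin l) (Fin l) (ZMod 2), IsUnit A →
      ∀ X, f (fun i => ∑ j, A i j • X j) = f X) ∧
    (∀ X, (∃ c : Fin l → ZMod 2, 0 < hammingNorm (∑ j, c j • X j) ∧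
      hammingNorm (∑ j, c j • X j) < d) → f X = 0) ∧
    (∀ (S : Finset (Fin l)) (X Y : Fin l → Fin n → ZMod 2),
      0 ≤ ∑ Z ∈ univ.filter (fun Z : Fin l → Fin n → ZMod 2 => ∀ j, j ∉ S → Z j = X j),
        f Z * ∏ j ∈ S, ∏ i, if Z j i = 1 ∧ Y j i = 1 then -1 else 1) ∧
    s = ∑ X, f X}

end Pool.Agent.Lib.MP_0430e4_lc.Lgv
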