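import Pool.Agent.Lib.MP_0430e4_lc.Lgv.TRA
import Pool.Agent.Lib.MP_0430e4_lc.Lgv.DEP

/-!
# EST: the estimate

PROOF. `gc = ∑_{T ⊆ Pz} ∏_{p ∈ T} φ(..)` (Finset.prod_one_add), so `Gh φ X Θ = ∑_{T ⊆ Pz} tr φ X T Θ`.
`T = ∅` gives `1` if `Θ = 0`, else `0`. For `T ≠ ∅`: `rp T >= 1`; if `rp T < rk Θ` the term is `0`
(tr_eq_zero); otherwise `max (rk Θ) 1 <= rp T =: i <= j` and the term is at most `2^|T| μ^i <= 2^|T| μ^max`
(abs_tr_ind with `|T| = rp T` if independent, abs_tr_dep and `hgap` otherwise). At most `2^(2^(u+j))`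
sets `T`, `|T| <= 2^(u+j)`.
-/

set_option autoImplicit false

namespace Pool.Agent.Lib.MP_0430e4_lc.Lgv

open Finset
open Pool.Agent.Lib.MP_0430e4_lc.Lin (W wt chw sg)

variable {n : ℕ}

private theorem est_sum {u j : ℕ} (φ : W n → ℝ) (X : Fin u → W n) (Θ : Fin j → W n) :
    Gh φ X Θ = ∑ T ∈ (Pz u j).powerset, tr φ X T Θ := by
  unfold Gh tr gc
  rw [← sum_div]
  congr 1
  rw [sum_comm]
  apply sum_congr rfl
  intro Z _
  rw [prod_one_add, sum_mul]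

private theorem est_empty {u j : ℕ} (φ : W n → ℝ) (X : Fin u → W n) (Θ : Fin j → W n) :
    tr φ X ∅ Θ = if Θ = 0 then 1 else 0 := by
  rw [tr_eq]
  have : IsEmpty {p : P u j // p ∈ (∅ : Finset (P u j))} := ⟨fun p => notMem_empty _ p.2⟩
  rw [Fintype.sum_unique]
  simp only [univ_eq_empty, prod_empty, one_mul, sum_empty]
  by_cases h : Θ = 0
  · rw [if_pos h, if_pos (by intro i; rw [h]; rfl)]
  · rw [if_neg h, if_neg]
    intro h'
    exact h (funext h')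

private theorem est_rp_pos {u j : ℕ} {T : Finset (P u j)} (hT : T ⊆ Pz u j) (hne : T.Nonempty) :
    1 ≤ rp T := by
  obtain ⟨p, hp⟩ := hne
  have hp2 : p.2 ≠ 0 := (mem_filter.1 (hT hp)).2
  unfold rp
  rw [Nat.one_le_iff_ne_zero, Ne, Submodule.finrank_eq_zero]
  intro h
  apply hp2
  have : p.2 ∈ Submodule.span (ZMod 2) (Prod.snd '' (T : Set (P u j))) :=
    Submodule.subset_span ⟨p, hp, rfl⟩
  rw [h] at this
  exact (Submodule.mem_bot _).1 this

private theorem est_rp_le {u j : ℕ} (T : Finset (P u j)) : rp T ≤ j := by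
  unfold rp
  refine (Submodule.finrank_le _).trans ?_
  rw [Module.finrank_fintype_fun_eq_card, Fintype.card_fin]

private theorem est_rp_ind {u j : ℕ} {T : Finset (P u j)} (hT : Indp T) : rp T = T.card := by
  have hset : (Prod.snd '' (T : Set (P u j))) = Set.range fun p : {p // p ∈ T} => (p : P u j).2 := by
    ext x
    constructor
    · rintro ⟨p, hp, rfl⟩
      exact ⟨⟨p, hp⟩, rfl⟩
    · rintro ⟨p, rfl⟩
      exact ⟨p.1, p.2, rfl⟩
  have h := finrank_span_eq_card hT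
  rw [Fintype.card_coe] at h
  unfold rp
  rw [hset]
  exact h

/-- THE ESTIMATE. -/
theorem Gh_bound {u j d : ℕ} {δ q μ : ℝ} (h0 : 0 < δ) (h1 : δ < 1 / 2) (hd : δ * n ≤ d)
    {φ : W n → ℝ} (hφ1 : ∀ x, wt x < d → φ x = -1) (hφ2 : ∀ x, d ≤ wt x → |φ x| ≤ q)
    (hφ3 : ∀ w, |ft φ w| ≤ μ) (hμ0 : 0 < μ) (hμ1 : μ ≤ 1) (hq0 : bet δ n d ≤ q) (hq1 : q ≤ 1)
    (hgap : ∀ i, 1 ≤ i → i ≤ j → max (gam δ n d) q * q ^ i ≤ μ ^ i)
    {X : Fin u → W n} (hX : Good d X) (Θ : Fin j → W n) :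
    |Gh φ X Θ - if Θ = 0 then 1 else 0| ≤ 4 ^ (2 ^ (u + j)) * μ ^ max (rk Θ) 1 := by
  classical
  have hmem : (∅ : Finset (P u j)) ∈ (Pz u j).powerset := empty_mem_powerset _
  have hsum : Gh φ X Θ - (if Θ = 0 then 1 else 0) =
      ∑ T ∈ (Pz u j).powerset.erase ∅, tr φ X T Θ := by
    rw [est_sum, ← add_sum_erase _ _ hmem, est_empty]
    ring
  have hμm : (0 : ℝ) ≤ μ ^ max (rk Θ) 1 := by positivity
  have hcard : (Pz u j).card ≤ 2 ^ (u + j) := by
    refine (card_le_univ _).trans ?_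
    rw [Fintype.card_prod, Fintype.card_fun, Fintype.card_fun, ZMod.card, Fintype.card_fin,
      Fintype.card_fin, pow_add]
  have hterm : ∀ T ∈ (Pz u j).powerset.erase ∅,
      |tr φ X T Θ| ≤ 2 ^ (2 ^ (u + j)) * μ ^ max (rk Θ) 1 := by
    intro T hT
    obtain ⟨hne, hTp⟩ := mem_erase.1 hT
    have hTP : T ⊆ Pz u j := mem_powerset.1 hTp
    have hTn : T.Nonempty := nonempty_iff_ne_empty.2 hne
    have h2 : (1 : ℝ) ≤ 2 ^ (2 ^ (u + j)) := one_le_pow₀ (by norm_num)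
    by_cases hr : rp T < rk Θ
    · rw [tr_eq_zero φ X hr, abs_zero]
      positivity
    · have hm : max (rk Θ) 1 ≤ rp T := max_le (not_lt.1 hr) (est_rp_pos hTP hTn)
      have hpow : μ ^ rp T ≤ μ ^ max (rk Θ) 1 := pow_le_pow_of_le_one hμ0.le hμ1 hm
      by_cases hI : Indp T
      · have h3 := abs_tr_ind hφ3 X hI Θ
        rw [← est_rp_ind hI] at h3
        calc |tr φ X T Θ| ≤ μ ^ rp T := h3
          _ ≤ μ ^ max (rk Θ) 1 := hpow
          _ = 1 * μ ^ max (rk Θ) 1 := (one_mul _).symm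
          _ ≤ _ := mul_le_mul_of_nonneg_right h2 hμm
      · have h3 := abs_tr_dep h0 h1 hd hφ1 hφ2 hq0 hq1 hX hTP hI Θ
        have h4 : (2 : ℝ) ^ T.card ≤ 2 ^ (2 ^ (u + j)) :=
          pow_le_pow_right₀ (by norm_num) ((card_le_card hTP).trans hcard)
        calc |tr φ X T Θ| ≤ 2 ^ T.card * (max (gam δ n d) q * q ^ rp T) := h3
          _ ≤ 2 ^ T.card * μ ^ rp T :=
            mul_le_mul_of_nonneg_left (hgap _ (est_rp_pos hTP hTn) (est_rp_le T)) (by positivity)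
          _ ≤ 2 ^ T.card * μ ^ max (rk Θ) 1 :=
            mul_le_mul_of_nonneg_left hpow (by positivity)
          _ ≤ _ := mul_le_mul_of_nonneg_right h4 hμm
  rw [hsum]
  refine (abs_sum_le_sum_abs _ _).trans ((sum_le_sum hterm).trans ?_)
  rw [sum_const, nsmul_eq_mul, ← mul_assoc]
  apply mul_le_mul_of_nonneg_right _ hμm
  have h5 : (((Pz u j).powerset.erase ∅).card : ℝ) ≤ 2 ^ (2 ^ (u + j)) := by
    have h6 : ((Pz u j).powerset.erase ∅).card ≤ 2 ^ (2 ^ (u + j)) := by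
      refine (card_le_card (erase_subset _ _)).trans ?_
      rw [card_powerset]
      exact Nat.pow_le_pow_right (by norm_num) hcard
    exact_mod_cast h6
  calc (((Pz u j).powerset.erase ∅).card : ℝ) * 2 ^ (2 ^ (u + j))
      ≤ 2 ^ (2 ^ (u + j)) * 2 ^ (2 ^ (u + j)) := mul_le_mul_of_nonneg_right h5 (by positivity)
    _ = 4 ^ (2 ^ (u + j)) := by rw [← mul_pow]; norm_num

end Pool.Agent.Lib.MP_0430e4_lc.Lgv
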