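import Pool.Agent.Lib.MP_0430e4_lc.Lgv.Defs

/-!
# EXPN: expansion of the product by rank

PROOF. `expn_first`: induction on `A`: `∏_{insert a s} (1 + f) = ∏_s (1 + f) + f a * ∏_s (1 + f)`, so take
`N a = s` and keep `N m` for `m ∈ s` (classical choice / function update). `expn`: induction on `i`.
`i = 0`: `LE = []`, `LB = [(∅, Pz u j)]`. Step: for each `(b, A)` in `LB` split `A` into the part `A1` of the
`p` with `p.2` in the span of the second components of `b` and the rest `A2`;
`∏_A (1 + f) = ∏_{A1} (1 + f) * ∏_{A2} (1 + f)`, expand the second factor by `expn_first`: this gives the term `(b, A1)`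
(rank `i < i + 1`, put it in `LE`) and the terms `(insert m b, A1 ∪ N m)`, `m ∈ A2` (independent, `i + 1` elements, put
them in `LB`; at most `|Pz| <= 2^(u+j)` of them for each `(b, A)`).
-/

set_option autoImplicit false

namespace Pool.Agent.Lib.MP_0430e4_lc.Lgv

open Finset
open Pool.Agent.Lib.MP_0430e4_lc.Lin (W wt chw sg)

theorem expn_first {α : Type} [DecidableEq α] (A : Finset α) : ∃ N : α → Finset α,
    (∀ m ∈ A, N m ⊆ A ∧ m ∉ N m) ∧
    ∀ f : α → ℝ, ∏ p ∈ A, (1 + f p) = 1 + ∑ m ∈ A, f m * ∏ p ∈ N m, (1 + f p) := by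
  induction A using Finset.induction_on with
  | empty => exact ⟨fun _ => ∅, by simp, by simp⟩
  | insert a s ha ih =>
    obtain ⟨N, h1, h2⟩ := ih
    have hne : ∀ m ∈ s, m ≠ a := by
      rintro m hm rfl
      exact ha hm
    refine ⟨Function.update N a s, ?_, ?_⟩
    · intro m hm
      rw [mem_insert] at hm
      rcases hm with rfl | hm
      · rw [Function.update_self]
        exact ⟨subset_insert _ _, ha⟩
      · rw [Function.update_of_ne (hne m hm)]
        exact ⟨(h1 m hm).1.trans (subset_insert _ _), (h1 m hm).2⟩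
    · intro f
      rw [prod_insert ha, sum_insert ha, Function.update_self]
      have h3 : ∑ m ∈ s, f m * ∏ p ∈ Function.update N a s m, (1 + f p) =
          ∑ m ∈ s, f m * ∏ p ∈ N m, (1 + f p) := by
        refine sum_congr rfl fun m hm => ?_
        rw [Function.update_of_ne (hne m hm)]
      rw [h3]
      have h4 := h2 f
      rw [add_mul, one_mul]
      linarith

theorem expn_flat {β γ : Type} (L : List β) (g : β → List γ) (h : γ → ℝ) :
    ((L.flatMap g).map h).sum = (L.map fun e => ((g e).map h).sum).sum := by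
  induction L with
  | nil => simp
  | cons a L ih =>
    rw [List.flatMap_cons, List.map_append, List.sum_append, ih, List.map_cons, List.sum_cons]

theorem expn_add {β : Type} (L : List β) (F G H : β → ℝ) (h : ∀ e ∈ L, F e = G e + H e) :
    (L.map F).sum = (L.map G).sum + (L.map H).sum := by
  induction L with
  | nil => simp
  | cons a L ih =>
    rw [List.map_cons, List.map_cons, List.map_cons, List.sum_cons, List.sum_cons, List.sum_cons,
      ih fun e he => h e (List.mem_cons_of_mem _ he), h a List.mem_cons_self]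
    ring

theorem expn_len {β γ : Type} (L : List β) (g : β → List γ) (K : ℕ)
    (h : ∀ e ∈ L, (g e).length ≤ K) : (L.flatMap g).length ≤ L.length * K := by
  induction L with
  | nil => simp
  | cons a L ih =>
    rw [List.flatMap_cons, List.length_append, List.length_cons]
    have h1 := ih fun e he => h e (List.mem_cons_of_mem _ he)
    have h2 := h a List.mem_cons_self
    rw [add_mul, one_mul]
    omega

theorem expn_card (u j : ℕ) (A : Finset (P u j)) : A.card ≤ 2 ^ (u + j) := by
  refine (card_le_univ A).trans ?_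
  rw [Fintype.card_prod, Fintype.card_fun, Fintype.card_fun, ZMod.card, Fintype.card_fin,
    Fintype.card_fin, pow_add]

theorem expn_rp {u j i : ℕ} {b A : Finset (P u j)} (hc : b.card = i)
    (hA : ∀ p ∈ A, p.2 ∈ Submodule.span (ZMod 2) (Prod.snd '' (b : Set (P u j)))) :
    rp (b ∪ A) < i + 1 := by
  classical
  have h1 : Submodule.span (ZMod 2) (Prod.snd '' ((b ∪ A : Finset (P u j)) : Set (P u j))) ≤
      Submodule.span (ZMod 2) (Prod.snd '' (b : Set (P u j))) := by
    rw [Submodule.span_le]
    rintro _ ⟨p, hp, rfl⟩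
    rw [mem_coe, mem_union] at hp
    rcases hp with hp | hp
    · exact Submodule.subset_span ⟨p, hp, rfl⟩
    · exact hA p hp
  have h2 := Submodule.finrank_mono h1
  have h3 : Module.finrank (ZMod 2) (Submodule.span (ZMod 2) (Prod.snd '' (b : Set (P u j)))) ≤
      b.card := by
    rw [← coe_image]
    exact (finrank_span_finset_le_card _).trans card_image_le
  rw [rp]
  omega

theorem expn_indp {u j : ℕ} {b : Finset (P u j)} {m : P u j} (hb : Indp b) (hm : m ∉ b)
    (h : m.2 ∉ Submodule.span (ZMod 2) (Prod.snd '' (b : Set (P u j)))) : Indp (insert m b) := by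
  have h1 : LinearIndepOn (ZMod 2) (Prod.snd : P u j → _) (b : Set (P u j)) := hb
  have h2 : LinearIndepOn (ZMod 2) (Prod.snd : P u j → _) (insert m (b : Set (P u j))) :=
    (linearIndepOn_insert (by simpa using hm)).2 ⟨h1, h⟩
  rw [← coe_insert] at h2
  exact h2

/-- Expansion of the product by rank. -/
theorem expn (u j i : ℕ) : ∃ LE LB : List (Finset (P u j) × Finset (P u j)),
    (∀ e ∈ LE, e.1 ⊆ Pz u j ∧ e.2 ⊆ Pz u j ∧ Disjoint e.1 e.2 ∧ rp (e.1 ∪ e.2) < i) ∧
    (∀ e ∈ LB, e.1 ⊆ Pz u j ∧ e.2 ⊆ Pz u j ∧ Disjoint e.1 e.2 ∧ Indp e.1 ∧ e.1.card = i) ∧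
    LB.length ≤ (2 ^ (u + j)) ^ i ∧
    ∀ f : P u j → ℝ, ∏ p ∈ Pz u j, (1 + f p) =
      (LE.map fun e => (∏ p ∈ e.1, f p) * ∏ p ∈ e.2, (1 + f p)).sum +
      (LB.map fun e => (∏ p ∈ e.1, f p) * ∏ p ∈ e.2, (1 + f p)).sum := by
  classical
  induction i with
  | zero =>
    refine ⟨[], [(∅, Pz u j)], by simp, ?_, by simp, by simp⟩
    intro e he
    rw [List.mem_singleton] at he
    subst he
    refine ⟨empty_subset _, subset_rfl, disjoint_empty_left _, ?_, card_empty⟩
    have : LinearIndepOn (ZMod 2) (Prod.snd : P u j → _) (∅ : Set (P u j)) :=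
      linearIndepOn_empty _ _
    rw [← coe_empty] at this
    exact this
  | succ i ih =>
    obtain ⟨LE, LB, hE, hB, hl, hf⟩ := ih
    let A1 : Finset (P u j) × Finset (P u j) → Finset (P u j) := fun e =>
      e.2.filter fun p => p.2 ∈ Submodule.span (ZMod 2) (Prod.snd '' (e.1 : Set (P u j)))
    let A2 : Finset (P u j) × Finset (P u j) → Finset (P u j) := fun e =>
      e.2.filter fun p => ¬ p.2 ∈ Submodule.span (ZMod 2) (Prod.snd '' (e.1 : Set (P u j)))
    let N : Finset (P u j) × Finset (P u j) → P u j → Finset (P u j) := fun e =>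
      (expn_first (A2 e)).choose
    have hN : ∀ e, ∀ m ∈ A2 e, N e m ⊆ A2 e ∧ m ∉ N e m := fun e =>
      (expn_first (A2 e)).choose_spec.1
    have hNf : ∀ e, ∀ f : P u j → ℝ, ∏ p ∈ A2 e, (1 + f p) =
        1 + ∑ m ∈ A2 e, f m * ∏ p ∈ N e m, (1 + f p) := fun e =>
      (expn_first (A2 e)).choose_spec.2
    have hA1 : ∀ e, A1 e ⊆ e.2 := fun e => filter_subset _ _
    have hA2 : ∀ e, A2 e ⊆ e.2 := fun e => filter_subset _ _
    have hd : ∀ e, Disjoint (A1 e) (A2 e) := fun e => disjoint_filter_filter_not _ _ _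
    refine ⟨LE ++ LB.map fun e => (e.1, A1 e),
      LB.flatMap fun e => (A2 e).toList.map fun m => (insert m e.1, A1 e ∪ N e m), ?_, ?_, ?_, ?_⟩
    · intro e he
      rw [List.mem_append, List.mem_map] at he
      rcases he with he | ⟨e', he', rfl⟩
      · obtain ⟨h1, h2, h3, h4⟩ := hE e he
        exact ⟨h1, h2, h3, by omega⟩
      · obtain ⟨h1, h2, h3, h4, h5⟩ := hB e' he'
        exact ⟨h1, (hA1 e').trans h2, h3.mono_right (hA1 e'),
          expn_rp h5 fun p hp => (mem_filter.1 hp).2⟩
    · intro e he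
      rw [List.mem_flatMap] at he
      obtain ⟨e', he', he⟩ := he
      rw [List.mem_map] at he
      obtain ⟨m, hm, rfl⟩ := he
      rw [mem_toList] at hm
      obtain ⟨h1, h2, h3, h4, h5⟩ := hB e' he'
      have hm2 : m ∈ e'.2 := hA2 e' hm
      have hmb : m ∉ e'.1 := fun h => disjoint_left.1 h3 h hm2
      obtain ⟨hn1, hn2⟩ := hN e' m hm
      refine ⟨insert_subset (h2 hm2) h1, union_subset ((hA1 e').trans h2)
        (hn1.trans ((hA2 e').trans h2)), ?_, expn_indp h4 hmb (mem_filter.1 hm).2, ?_⟩
      · rw [disjoint_insert_left, disjoint_union_right, mem_union]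
        refine ⟨?_, h3.mono_right (hA1 e'), h3.mono_right (hn1.trans (hA2 e'))⟩
        rintro (h | h)
        · exact disjoint_left.1 (hd e') h hm
        · exact hn2 h
      · rw [card_insert_of_notMem hmb, h5]
    · refine (expn_len LB _ (2 ^ (u + j)) ?_).trans ?_
      · intro e _
        rw [List.length_map, length_toList]
        exact expn_card u j _
      · rw [pow_succ]
        exact Nat.mul_le_mul_right _ hl
    · intro f
      rw [hf f, List.map_append, List.sum_append, List.map_map, expn_flat, add_assoc]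
      congr 1
      refine expn_add LB _ _ _ ?_
      intro e he
      obtain ⟨h1, h2, h3, h4, h5⟩ := hB e he
      have hs : ∏ p ∈ e.2, (1 + f p) = (∏ p ∈ A1 e, (1 + f p)) * ∏ p ∈ A2 e, (1 + f p) :=
        (prod_filter_mul_prod_filter_not _ _ _).symm
      rw [hs, hNf e f, List.map_map, Function.comp_def, sum_map_toList, mul_add, mul_one, mul_add]
      simp only [Function.comp_apply]
      congr 1
      rw [mul_sum, mul_sum]
      refine sum_congr rfl fun m hm => ?_
      have hmb : m ∉ e.1 := fun h => disjoint_left.1 h3 h (hA2 e hm)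
      rw [prod_insert hmb, prod_union ((hd e).mono_right (hN e m hm).1)]
      ring

end Pool.Agent.Lib.MP_0430e4_lc.Lgv
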