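import Pool.Agent.Lib.MP_0430e4_lc.Lgv.TRA
import Pool.Agent.Lib.MP_0430e4_lc.Lgv.DEPB
import Pool.Agent.Lib.MP_0430e4_lc.Lgv.EXPN

/-!
# ESTB: the estimate, stronger version

PROOF. `i = max (rk Θ) 1` (if `j = 0` then `Pz` is empty, `Gh = 1`, `Θ = 0`). Take `LE`, `LB` from `expn u j i`, with
`f p = φ (wd X Z p)`. A term `e ∈ LE`: expand `∏_{e.2} (1 + f) = ∑_{R ⊆ e.2} ∏_R f`, `∏_{e.1} f * ∏_R f` is the product over
`e.1 ∪ R` of rank `< i`; if `Θ ≠ 0` then `i = rk Θ` and `tr φ X (e.1 ∪ R) Θ = 0` (tr_eq_zero); if `Θ = 0` then `i = 1`, a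
subset of `Pz` of rank `0` is empty, so all `e ∈ LE` are `(∅, ∅)` and (identity of `expn` at `f = 0`) `LE.length = 1`: the
contribution is `1`. A term `e ∈ LB`: `|tr φ X e.1 Θ| <= μ^i` (abs_tr_ind), and
`|∏_{e.2} (1 + f) - 1| <= ∑_{p ∈ e.2} bl d (wd X Z p) + 2^(u+j+1) q` (estb_prod) so the rest is at most
`2^(u+j) (2q)^i max(gam, q) + 2^(u+j+1) q (2q)^i <= 2^i * 3 * 2^(u+j) max(gam, q) q^i <= 2^i μ^i`. Total
`<= 2^((u+j) i) (1 + 2^i) μ^i <= (2^(u+j+2) μ)^i`.
estb_prod: if some `a p = -1`, `c p = 1` the left side is `1`; otherwise `|∏ (1 + a) - 1| <= exp(∑ |a|) - 1 <= 2 ∑ |a|`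
(Finset.norm_prod_one_add_sub_one_le or similar, Real.exp bounds for arguments `<= 1`).
-/

set_option autoImplicit false

namespace Pool.Agent.Lib.MP_0430e4_lc.Lgv

open Finset
open Pool.Agent.Lib.MP_0430e4_lc.Lin (W wt chw sg)

variable {n : ℕ}

theorem estb_prod {α : Type} (A : Finset α) (a c : α → ℝ) {q : ℝ} (hq : 0 ≤ q)
    (h1 : ∀ p ∈ A, (a p = -1 ∧ c p = 1) ∨ (|a p| ≤ q ∧ c p = 0)) (hA : A.card * q ≤ 1) :
    |∏ p ∈ A, (1 + a p) - 1| ≤ ∑ p ∈ A, c p + 2 * (A.card * q) := by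
  have hAq : 0 ≤ (A.card : ℝ) * q := by positivity
  have hc : ∀ p ∈ A, 0 ≤ c p := by
    intro p hp
    rcases h1 p hp with h | h
    · rw [h.2]; norm_num
    · rw [h.2]
  by_cases h : ∃ p ∈ A, a p = -1 ∧ c p = 1
  · obtain ⟨p, hp, ha, hcp⟩ := h
    have h0 : ∏ p ∈ A, (1 + a p) = 0 := prod_eq_zero hp (by rw [ha]; norm_num)
    have h2 : c p ≤ ∑ p ∈ A, c p := single_le_sum hc hp
    rw [h0, zero_sub, abs_neg, abs_one]
    rw [hcp] at h2
    linarith
  · push Not at h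
    have h2 : ∀ p ∈ A, |a p| ≤ q := by
      intro p hp
      rcases h1 p hp with h' | h'
      · exact absurd h'.2 (h p hp h'.1)
      · exact h'.1
    have h3 : ∑ p ∈ A, |a p| ≤ A.card * q := by
      have := sum_le_card_nsmul A (fun p => |a p|) q h2
      rwa [nsmul_eq_mul] at this
    have h4 : |∏ p ∈ A, (1 + a p) - 1| ≤ Real.exp (∑ p ∈ A, |a p|) - 1 := by
      have := Finset.norm_prod_one_add_sub_one_le A a
      simpa only [Real.norm_eq_abs] using this
    have h5 : Real.exp (∑ p ∈ A, |a p|) ≤ Real.exp (A.card * q) := Real.exp_le_exp.2 h3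
    have h6 := Real.abs_exp_sub_one_le (x := A.card * q) (by rwa [abs_of_nonneg hAq])
    rw [abs_of_nonneg hAq] at h6
    have h7 := le_abs_self (Real.exp (A.card * q) - 1)
    have h8 : 0 ≤ ∑ p ∈ A, c p := sum_nonneg hc
    linarith

private theorem estb_rp_pos {u j : ℕ} {T : Finset (P u j)} (hT : T ⊆ Pz u j) (hne : T.Nonempty) :
    1 ≤ rp T := by
  obtain ⟨p, hp⟩ := hne
  have hp2 : p.2 ≠ 0 := (mem_filter.1 (hT hp)).2
  unfold rp
  rw [Nat.one_le_iff_ne_zero, Ne, Submodule.finrank_eq_zero]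
  intro h
  apply hp2
  have : p.2 ∈ Submodule.span (ZMod 2) (Prod.snd '' (T : Set (P u j))) :=
    Submodule.subset_span ⟨p, hp, rfl⟩
  rw [h] at this
  exact (Submodule.mem_bot _).1 this

private theorem estb_rp_mono {u j : ℕ} {S T : Finset (P u j)} (hST : S ⊆ T) : rp S ≤ rp T := by
  unfold rp
  apply Submodule.finrank_mono
  apply Submodule.span_mono
  apply Set.image_mono
  exact_mod_cast hST

private theorem estb_rk_pos {j : ℕ} {Θ : Fin j → W n} (h : Θ ≠ 0) : 1 ≤ rk Θ := by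
  unfold rk
  rw [Nat.one_le_iff_ne_zero, Ne, Submodule.finrank_eq_zero]
  intro h2
  apply h
  funext k
  have : Θ k ∈ Submodule.span (ZMod 2) (Set.range Θ) := Submodule.subset_span ⟨k, rfl⟩
  rw [h2] at this
  exact (Submodule.mem_bot _).1 this

private theorem estb_rk_zero {j : ℕ} : rk (0 : Fin j → W n) = 0 := by
  unfold rk
  rw [Submodule.finrank_eq_zero, Submodule.span_eq_bot]
  rintro x ⟨k, rfl⟩
  rfl

private theorem estb_cht_abs {j : ℕ} (Θ Z : Fin j → W n) : |cht Θ Z| = 1 := by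
  unfold cht
  rw [abs_prod]
  exact prod_eq_one fun i _ => Lin.abs_chw _ _

/-- one term of the expansion -/
private noncomputable def estbE {u j : ℕ} (φ : W n → ℝ) (X : Fin u → W n) (Θ : Fin j → W n)
    (e : Finset (P u j) × Finset (P u j)) : ℝ :=
  (∑ Z : Fin j → W n, ((∏ p ∈ e.1, φ (wd X Z p)) * ∏ p ∈ e.2, (1 + φ (wd X Z p))) * cht Θ Z) /
    2 ^ (n * j)

private theorem estb_list {u j : ℕ} (φ : W n → ℝ) (X : Fin u → W n) (Θ : Fin j → W n)
    (L : List (Finset (P u j) × Finset (P u j))) :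
    (∑ Z : Fin j → W n, (L.map fun e => (∏ p ∈ e.1, φ (wd X Z p)) *
      ∏ p ∈ e.2, (1 + φ (wd X Z p))).sum * cht Θ Z) / 2 ^ (n * j) =
      (L.map fun e => estbE φ X Θ e).sum := by
  induction L with
  | nil => simp
  | cons e L ih =>
    simp only [List.map_cons, List.sum_cons, add_mul, sum_add_distrib, add_div]
    rw [ih]
    rfl

/-- a term of small rank -/
private theorem estb_E_zero {u j : ℕ} (φ : W n → ℝ) (X : Fin u → W n) {Θ : Fin j → W n}
    {e : Finset (P u j) × Finset (P u j)} (hd : Disjoint e.1 e.2)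
    (hr : ∀ T : Finset (P u j), T ⊆ e.1 ∪ e.2 → rp T < rk Θ) : estbE φ X Θ e = 0 := by
  classical
  have h1 : estbE φ X Θ e = ∑ R ∈ e.2.powerset, tr φ X (e.1 ∪ R) Θ := by
    unfold estbE tr
    rw [← sum_div]
    congr 1
    rw [sum_comm]
    refine sum_congr rfl fun Z _ => ?_
    rw [prod_one_add, mul_sum, sum_mul]
    refine sum_congr rfl fun R hR => ?_
    rw [prod_union]
    exact hd.mono_right (mem_powerset.1 hR)
  rw [h1]
  refine sum_eq_zero fun R hR => tr_eq_zero φ X ?_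
  refine hr _ ?_
  exact union_subset_union_right (mem_powerset.1 hR)

private theorem estb_E_empty {u j : ℕ} (φ : W n → ℝ) (X : Fin u → W n) :
    estbE φ X (0 : Fin j → W n) (∅, ∅) = 1 := by
  have h1 : ∀ Z : Fin j → W n, cht (0 : Fin j → W n) Z = 1 := by
    intro Z
    unfold cht
    refine prod_eq_one fun i _ => ?_
    have : (0 : Fin j → W n) i = 0 := rfl
    rw [this]
    exact Lin.chw_zero _
  unfold estbE
  simp only [prod_empty, h1, sum_const, card_univ, nsmul_eq_mul, mul_one]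
  rw [Fintype.card_fun, Fintype.card_fun, ZMod.card, Fintype.card_fin, Fintype.card_fin, ← pow_mul]
  push_cast
  rw [div_self]
  positivity

/-- a term of full rank -/
private theorem estb_E_bound {u j d i : ℕ} {δ q μ : ℝ} (h0 : 0 < δ) (h1 : δ < 1 / 2)
    (hd : δ * n ≤ d)
    {φ : W n → ℝ} (hφ1 : ∀ x, wt x < d → φ x = -1) (hφ2 : ∀ x, d ≤ wt x → |φ x| ≤ q)
    (hφ3 : ∀ w, |ft φ w| ≤ μ) (hμ0 : 0 < μ) (hq0 : bet δ n d ≤ q)
    (hq : 0 ≤ q) (hql : 2 ^ (u + j) * q ≤ 1) (hi : 1 ≤ i)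
    (hgap : ∀ i, 1 ≤ i → i ≤ j → 3 * 2 ^ (u + j) * max (gam δ n d) q * q ^ i ≤ μ ^ i)
    {X : Fin u → W n} (hX : Good d X) (Θ : Fin j → W n)
    {e : Finset (P u j) × Finset (P u j)}
    (he2 : e.2 ⊆ Pz u j) (hdj : Disjoint e.1 e.2) (hI : Indp e.1) (hc : e.1.card = i) :
    |estbE φ X Θ e| ≤ 4 ^ i * μ ^ i := by
  classical
  have hij : i ≤ j := by
    rw [← hc]
    exact card_le_of_indp hI
  have h2n : (0 : ℝ) < 2 ^ (n * j) := by positivity
  have hcard : e.2.card ≤ 2 ^ (u + j) := by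
    refine (card_le_univ _).trans ?_
    rw [Fintype.card_prod, Fintype.card_fun, Fintype.card_fun, ZMod.card, Fintype.card_fin,
      Fintype.card_fin, pow_add]
  have hcardR : (e.2.card : ℝ) ≤ 2 ^ (u + j) := by exact_mod_cast hcard
  have hcq : (e.2.card : ℝ) * q ≤ 1 := (mul_le_mul_of_nonneg_right hcardR hq).trans hql
  -- splitting
  have hs : estbE φ X Θ e = tr φ X e.1 Θ + (∑ Z : Fin j → W n, ((∏ p ∈ e.1, φ (wd X Z p)) *
      (∏ p ∈ e.2, (1 + φ (wd X Z p)) - 1)) * cht Θ Z) / 2 ^ (n * j) := by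
    unfold estbE tr
    rw [← add_div, ← sum_add_distrib]
    congr 1
    refine sum_congr rfl fun Z _ => ?_
    ring
  have ht : |tr φ X e.1 Θ| ≤ μ ^ i := by
    have := abs_tr_ind hφ3 X hI Θ
    rwa [hc] at this
  have hb : |(∑ Z : Fin j → W n, ((∏ p ∈ e.1, φ (wd X Z p)) *
      (∏ p ∈ e.2, (1 + φ (wd X Z p)) - 1)) * cht Θ Z) / 2 ^ (n * j)| ≤
      (∑ Z : Fin j → W n, (∏ p ∈ e.1, |φ (wd X Z p)|) *
        (∑ p ∈ e.2, bl d (wd X Z p) + 2 * (e.2.card * q))) / 2 ^ (n * j) := by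
    rw [abs_div, abs_of_pos h2n]
    refine div_le_div_of_nonneg_right (le_trans (abs_sum_le_sum_abs _ _) ?_) h2n.le
    refine sum_le_sum fun Z _ => ?_
    rw [abs_mul, estb_cht_abs, mul_one, abs_mul, abs_prod]
    refine mul_le_mul_of_nonneg_left ?_ (prod_nonneg fun p _ => abs_nonneg _)
    refine estb_prod e.2 (fun p => φ (wd X Z p)) (fun p => bl d (wd X Z p)) hq ?_ hcq
    intro p _
    by_cases hw : wt (wd X Z p) < d
    · left
      refine ⟨hφ1 _ hw, ?_⟩
      unfold bl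
      rw [if_pos hw]
    · right
      refine ⟨hφ2 _ (not_lt.1 hw), ?_⟩
      unfold bl
      rw [if_neg hw]
  have hsum : (∑ Z : Fin j → W n, (∏ p ∈ e.1, |φ (wd X Z p)|) *
        (∑ p ∈ e.2, bl d (wd X Z p) + 2 * (e.2.card * q))) / 2 ^ (n * j) =
      ∑ p ∈ e.2, (∑ Z : Fin j → W n, (∏ p' ∈ e.1, |φ (wd X Z p')|) * bl d (wd X Z p)) /
        2 ^ (n * j) +
      2 * (e.2.card * q) * ((∑ Z : Fin j → W n, ∏ p ∈ e.1, |φ (wd X Z p)|) / 2 ^ (n * j)) := by
    simp only [mul_add, mul_sum, sum_add_distrib, add_div]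
    rw [sum_comm, sum_div]
    congr 1
    rw [mul_div_assoc', mul_sum]
    congr 1
    refine sum_congr rfl fun Z _ => ?_
    ring
  have hA : ∀ p ∈ e.2, (∑ Z : Fin j → W n, (∏ p' ∈ e.1, |φ (wd X Z p')|) * bl d (wd X Z p)) /
        2 ^ (n * j) ≤ (2 * q) ^ i * max (gam δ n d) q := by
    intro p hp
    have hp1 : p ∉ e.1 := fun h => (disjoint_left.1 hdj) h hp
    have := avg_abs_dep h0 h1 hd hφ1 hφ2 hq0 hX hI hp1 (mem_filter.1 (he2 hp)).2
    rwa [hc] at this
  have hB : (∑ Z : Fin j → W n, ∏ p ∈ e.1, |φ (wd X Z p)|) / 2 ^ (n * j) ≤ (2 * q) ^ i := by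
    have := avg_abs_ind h0 h1 hφ1 hφ2 hq0 X hI
    rwa [hc] at this
  have hm : q ≤ max (gam δ n d) q := le_max_right _ _
  have hm0 : 0 ≤ max (gam δ n d) q := hq.trans hm
  have hpw : 0 ≤ (2 * q) ^ i := by positivity
  have hC : (∑ Z : Fin j → W n, (∏ p ∈ e.1, |φ (wd X Z p)|) *
        (∑ p ∈ e.2, bl d (wd X Z p) + 2 * (e.2.card * q))) / 2 ^ (n * j) ≤ 2 ^ i * μ ^ i := by
    rw [hsum]
    have h3 : ∑ p ∈ e.2, (∑ Z : Fin j → W n, (∏ p' ∈ e.1, |φ (wd X Z p')|) * bl d (wd X Z p)) /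
        2 ^ (n * j) ≤ e.2.card * ((2 * q) ^ i * max (gam δ n d) q) := by
      have := sum_le_card_nsmul e.2 _ _ hA
      rwa [nsmul_eq_mul] at this
    have h4 : 2 * (e.2.card * q) * ((∑ Z : Fin j → W n, ∏ p ∈ e.1, |φ (wd X Z p)|) / 2 ^ (n * j)) ≤
        2 * (e.2.card * max (gam δ n d) q) * (2 * q) ^ i := by
      refine mul_le_mul ?_ hB ?_ (by positivity)
      · have := mul_le_mul_of_nonneg_left hm (Nat.cast_nonneg (α := ℝ) e.2.card)
        linarith
      · exact div_nonneg (sum_nonneg fun Z _ => prod_nonneg fun p _ => abs_nonneg _) h2n.le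
    have h5 : (e.2.card : ℝ) * ((2 * q) ^ i * max (gam δ n d) q) +
        2 * (e.2.card * max (gam δ n d) q) * (2 * q) ^ i =
        e.2.card * (3 * max (gam δ n d) q * (2 * q) ^ i) := by ring
    have h6 : (e.2.card : ℝ) * (3 * max (gam δ n d) q * (2 * q) ^ i) ≤
        2 ^ (u + j) * (3 * max (gam δ n d) q * (2 * q) ^ i) :=
      mul_le_mul_of_nonneg_right hcardR (by positivity)
    have h7 : (2 : ℝ) ^ (u + j) * (3 * max (gam δ n d) q * (2 * q) ^ i) =
        2 ^ i * (3 * 2 ^ (u + j) * max (gam δ n d) q * q ^ i) := by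
      rw [mul_pow]
      ring
    have h8 : (2 : ℝ) ^ i * (3 * 2 ^ (u + j) * max (gam δ n d) q * q ^ i) ≤ 2 ^ i * μ ^ i :=
      mul_le_mul_of_nonneg_left (hgap i hi hij) (by positivity)
    linarith
  have h9 : (1 : ℝ) + 2 ^ i ≤ 4 ^ i := by
    have h10 : (2 : ℝ) ≤ 2 ^ i := by
      calc (2 : ℝ) = 2 ^ 1 := by norm_num
        _ ≤ 2 ^ i := pow_le_pow_right₀ (by norm_num) hi
    have h11 : (4 : ℝ) ^ i = 2 ^ i * 2 ^ i := by rw [← mul_pow]; norm_num
    rw [h11]
    nlinarith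
  have h12 : (0 : ℝ) < μ ^ i := by positivity
  calc |estbE φ X Θ e| ≤ μ ^ i + 2 ^ i * μ ^ i := by
        rw [hs]
        exact (abs_add_le _ _).trans (add_le_add ht (hb.trans hC))
    _ = (1 + 2 ^ i) * μ ^ i := by ring
    _ ≤ 4 ^ i * μ ^ i := mul_le_mul_of_nonneg_right h9 h12.le

private theorem estb_list_abs {β : Type} (L : List β) (f : β → ℝ) {B : ℝ}
    (h : ∀ e ∈ L, |f e| ≤ B) : |(L.map f).sum| ≤ L.length * B := by
  induction L with
  | nil => simp
  | cons e L ih =>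
    have h1 := ih fun e' he' => h e' (List.mem_cons_of_mem _ he')
    have h2 := h e (List.mem_cons_self)
    rw [List.map_cons, List.sum_cons, List.length_cons]
    push_cast
    have h3 := abs_add_le (f e) (L.map f).sum
    linarith

private theorem estb_list_const {β : Type} (L : List β) (f : β → ℝ) {B : ℝ}
    (h : ∀ e ∈ L, f e = B) : (L.map f).sum = L.length * B := by
  induction L with
  | nil => simp
  | cons e L ih =>
    have h1 := ih fun e' he' => h e' (List.mem_cons_of_mem _ he')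
    have h2 := h e (List.mem_cons_self)
    rw [List.map_cons, List.sum_cons, List.length_cons, h1, h2]
    push_cast
    ring

/-- THE ESTIMATE, stronger version. -/
theorem Gh_boundB {u j d : ℕ} {δ q μ : ℝ} (h0 : 0 < δ) (h1 : δ < 1 / 2) (hd : δ * n ≤ d)
    {φ : W n → ℝ} (hφ1 : ∀ x, wt x < d → φ x = -1) (hφ2 : ∀ x, d ≤ wt x → |φ x| ≤ q)
    (hφ3 : ∀ w, |ft φ w| ≤ μ) (hμ0 : 0 < μ) (hq0 : bet δ n d ≤ q)
    (hql : 2 ^ (u + j) * q ≤ 1)
    (hgap : ∀ i, 1 ≤ i → i ≤ j → 3 * 2 ^ (u + j) * max (gam δ n d) q * q ^ i ≤ μ ^ i)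
    {X : Fin u → W n} (hX : Good d X) (Θ : Fin j → W n) :
    |Gh φ X Θ - if Θ = 0 then 1 else 0| ≤ (2 ^ (u + j + 2) * μ) ^ max (rk Θ) 1 := by
  classical
  have hbt : 0 ≤ bet δ n d := by
    unfold bet
    have h2 : (0 : ℝ) ≤ (1 - δ) / δ := div_nonneg (by linarith) h0.le
    have h3 : (0 : ℝ) ≤ 1 / (2 * (1 - δ)) := div_nonneg (by norm_num) (by linarith)
    positivity
  have hq : 0 ≤ q := hbt.trans hq0
  set i := max (rk Θ) 1 with hi
  have hi1 : 1 ≤ i := le_max_right _ _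
  obtain ⟨LE, LB, hLE, hLB, hlen, hid⟩ := expn u j i
  have hG : Gh φ X Θ = (LE.map fun e => estbE φ X Θ e).sum + (LB.map fun e => estbE φ X Θ e).sum := by
    rw [← estb_list, ← estb_list, ← add_div, ← sum_add_distrib]
    unfold Gh gc
    congr 1
    refine sum_congr rfl fun Z _ => ?_
    rw [hid fun p => φ (wd X Z p), add_mul]
  have hE : (LE.map fun e => estbE φ X Θ e).sum = if Θ = 0 then 1 else 0 := by
    by_cases hΘ : Θ = 0
    · have hi2 : i = 1 := by
        rw [hi, hΘ, estb_rk_zero]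
        rfl
      rw [if_pos hΘ]
      have hem : ∀ e ∈ LE, e = (∅, ∅) := by
        intro e he
        obtain ⟨he1, he2, -, hr⟩ := hLE e he
        rw [hi2] at hr
        by_contra hne
        have hU : (e.1 ∪ e.2).Nonempty := by
          rw [nonempty_iff_ne_empty]
          intro hU
          rw [union_eq_empty] at hU
          exact hne (Prod.ext hU.1 hU.2)
        have := estb_rp_pos (union_subset he1 he2) hU
        omega
      have hL1 : (LE.length : ℝ) = 1 := by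
        have h3 := hid fun _ => 0
        have h4 : (LE.map fun e : Finset (P u j) × Finset (P u j) =>
            (∏ p ∈ e.1, (0 : ℝ)) * ∏ p ∈ e.2, (1 + (0 : ℝ))).sum = LE.length * 1 := by
          apply estb_list_const
          intro e he
          rw [hem e he]
          simp
        have h5 : (LB.map fun e : Finset (P u j) × Finset (P u j) =>
            (∏ p ∈ e.1, (0 : ℝ)) * ∏ p ∈ e.2, (1 + (0 : ℝ))).sum = LB.length * 0 := by
          apply estb_list_const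
          intro e he
          obtain ⟨-, -, -, -, hc⟩ := hLB e he
          rw [prod_const, zero_pow (by omega), zero_mul]
        rw [h4, h5] at h3
        simp only [add_zero, prod_const_one, mul_one, mul_zero] at h3
        exact h3.symm
      rw [estb_list_const LE (fun e => estbE φ X Θ e) (B := 1), hL1, mul_one]
      intro e he
      rw [hem e he, hΘ]
      exact estb_E_empty φ X
    · rw [if_neg hΘ]
      have hi2 : i = rk Θ := by
        rw [hi]
        exact max_eq_left (estb_rk_pos hΘ)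
      rw [estb_list_const LE (fun e => estbE φ X Θ e) (B := 0), mul_zero]
      intro e he
      obtain ⟨-, -, hdj, hr⟩ := hLE e he
      refine estb_E_zero φ X hdj fun T hT => ?_
      rw [← hi2]
      exact lt_of_le_of_lt (estb_rp_mono hT) hr
  have hB := estb_list_abs LB (fun e => estbE φ X Θ e) (B := 4 ^ i * μ ^ i) (by
    intro e he
    obtain ⟨-, he2, hdj, hI, hc⟩ := hLB e he
    exact estb_E_bound h0 h1 hd hφ1 hφ2 hφ3 hμ0 hq0 hq hql hi1 hgap hX Θ he2 hdj hI hc)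
  rw [hG, hE]
  have h13 : (LB.length : ℝ) ≤ (2 ^ (u + j)) ^ i := by exact_mod_cast hlen
  have h14 : (0 : ℝ) ≤ 4 ^ i * μ ^ i := by positivity
  calc |(if Θ = 0 then (1 : ℝ) else 0) + (LB.map fun e => estbE φ X Θ e).sum -
        (if Θ = 0 then (1 : ℝ) else 0)|
      = |(LB.map fun e => estbE φ X Θ e).sum| := by
        congr 1
        ring
    _ ≤ LB.length * (4 ^ i * μ ^ i) := hB
    _ ≤ (2 ^ (u + j)) ^ i * (4 ^ i * μ ^ i) := mul_le_mul_of_nonneg_right h13 h14
    _ = (2 ^ (u + j + 2) * μ) ^ i := by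
        rw [← mul_pow, ← mul_pow]
        congr 1
        rw [pow_add]
        ring

end Pool.Agent.Lib.MP_0430e4_lc.Lgv
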