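import Pool.Agent.Lib.MP_0430e4_lc.Lgv.FDef

/-!
# FA: the solution, elementary properties

PROOFS. `good_of_gg`: a nonzero product has no factor `1 + φ (cmb Y a) = 0`. `fA_zero`: for `A ≠ 0` some row
`A i ≠ 0` has `cmb Y (A i) = 0`, weight `0 < d`, so `gg φ Y = 0`; for `A = 0` the rank is `0` and `cmb Y 0 = 0`.
`fA_inv`: replace `A` by `A * B`, the rank does not change
(Matrix.rank_mul_eq_right_of_isUnit_det or similar). `fA_bad`: `cmb X a = cmb Y (a ᵥ* A)`.
-/

set_option autoImplicit false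

namespace Pool.Agent.Lib.MP_0430e4_lc.Lgv

open Finset
open Pool.Agent.Lib.MP_0430e4_lc.Lin (W wt chw sg)

variable {n : ℕ}

variable {l d : ℕ} {c : ℝ} {φ : W n → ℝ}

theorem gg_nonneg {ι : Type} [Fintype ι] (hφ1 : ∀ x, -1 ≤ φ x) (Y : ι → W n) : 0 ≤ gg φ Y := by
  unfold gg
  exact Finset.prod_nonneg fun a _ => by linarith [hφ1 (cmb Y a)]

/-- The words of a tuple with `gg φ Y ≠ 0` are independent and their combinations are heavy. -/
theorem good_of_gg {ι : Type} [Fintype ι] (hφ0 : ∀ x, wt x < d → φ x = -1) {Y : ι → W n}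
    (h : gg φ Y ≠ 0) : ∀ a : ι → ZMod 2, a ≠ 0 → d ≤ wt (cmb Y a) := by
  classical
  intro a ha
  by_contra hlt
  push Not at hlt
  apply h
  unfold gg
  refine Finset.prod_eq_zero (i := a) ?_ ?_
  · rw [Finset.mem_erase]
    exact ⟨ha, Finset.mem_univ a⟩
  · rw [hφ0 _ hlt]
    norm_num

private theorem fa_cmb_zero {ι : Type} [Fintype ι] (Y : ι → W n) : cmb Y (0 : ι → ZMod 2) = 0 := by
  unfold cmb
  simp

private theorem fa_wt_zero : wt (0 : W n) = 0 := by
  simp [wt]

theorem fA_zero (hd : 1 ≤ d) (hφ0 : ∀ x, wt x < d → φ x = -1)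
    (hs : ∑ Y : Fin l → W n, gg φ Y ≠ 0) : fA c φ (0 : Fin l → W n) = 1 := by
  classical
  unfold fA
  rw [div_eq_one_iff_eq hs]
  rw [Finset.sum_eq_single (0 : Matrix (Fin l) (Fin l) (ZMod 2))]
  · rw [Matrix.rank_zero, pow_zero, one_mul]
    refine Finset.sum_congr rfl fun Y _ => ?_
    rw [if_pos]
    intro i
    exact fa_cmb_zero Y
  · intro A _ hA
    have : ∑ Y : Fin l → W n, (if ∀ i, cmb Y (A i) = (0 : Fin l → W n) i then gg φ Y else 0) = 0 := by
      refine Finset.sum_eq_zero fun Y _ => ?_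
      split_ifs with h
      · by_contra hne
        have hrow : ∃ i, A i ≠ 0 := by
          by_contra hno
          push Not at hno
          exact hA (funext hno)
        obtain ⟨i, hi⟩ := hrow
        have h1 := good_of_gg hφ0 hne (A i) hi
        rw [h i] at h1
        have h2 : wt ((0 : Fin l → W n) i) = 0 := fa_wt_zero
        omega
      · rfl
    rw [this, mul_zero]
  · intro h
    exact absurd (Finset.mem_univ _) h

private theorem fa_cmb_mul {ι : Type} [Fintype ι] (Y : Fin l → W n) (A : Matrix ι (Fin l) (ZMod 2))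
    (a : ι → ZMod 2) : cmb Y (Matrix.vecMul a A) = ∑ j, a j • cmb Y (A j) := by
  unfold cmb
  simp only [Matrix.vecMul, dotProduct, Finset.sum_smul, Finset.smul_sum, smul_smul]
  rw [Finset.sum_comm]

theorem fA_inv (A : Matrix (Fin l) (Fin l) (ZMod 2)) (hA : IsUnit A) (X : Fin l → W n) :
    fA c φ (fun i => ∑ j, A i j • X j) = fA c φ X := by
  classical
  unfold fA
  congr 1
  obtain ⟨u, rfl⟩ := hA
  -- reindex by `B ↦ u * B`
  let e : Matrix (Fin l) (Fin l) (ZMod 2) ≃ Matrix (Fin l) (Fin l) (ZMod 2) :=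
    Units.mulLeft u
  rw [← Equiv.sum_comp e]
  refine Finset.sum_congr rfl fun B _ => ?_
  have hr : (e B).rank = B.rank := by
    show ((u : Matrix (Fin l) (Fin l) (ZMod 2)) * B).rank = B.rank
    exact Matrix.rank_mul_eq_right_of_isUnit_det _ _
      ((Matrix.isUnit_iff_isUnit_det _).mp u.isUnit)
  rw [hr]
  congr 1
  refine Finset.sum_congr rfl fun Y _ => ?_
  have hrow : ∀ i, cmb Y (e B i) = ∑ j, (u : Matrix (Fin l) (Fin l) (ZMod 2)) i j • cmb Y (B j) := by
    intro i
    have : e B i = Matrix.vecMul ((u : Matrix (Fin l) (Fin l) (ZMod 2)) i) B := by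
      ext k
      rfl
    rw [this, fa_cmb_mul]
  have hiff : (∀ i, cmb Y (e B i) = ∑ j, (u : Matrix (Fin l) (Fin l) (ZMod 2)) i j • X j) ↔
      ∀ i, cmb Y (B i) = X i := by
    constructor
    · intro h i
      -- apply the inverse matrix
      have key : ∀ Z : Fin l → W n, (∑ j, ((u⁻¹ : (Matrix (Fin l) (Fin l) (ZMod 2))ˣ) :
          Matrix (Fin l) (Fin l) (ZMod 2)) i j •
          (∑ k, (u : Matrix (Fin l) (Fin l) (ZMod 2)) j k • Z k)) = Z i := by
        intro Z
        simp only [Finset.smul_sum, smul_smul]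
        rw [Finset.sum_comm]
        have : ∀ k, ∑ j, (((u⁻¹ : (Matrix (Fin l) (Fin l) (ZMod 2))ˣ) :
            Matrix (Fin l) (Fin l) (ZMod 2)) i j *
            (u : Matrix (Fin l) (Fin l) (ZMod 2)) j k) • Z k =
            (1 : Matrix (Fin l) (Fin l) (ZMod 2)) i k • Z k := by
          intro k
          rw [← Finset.sum_smul]
          congr 1
          have h1 : ((u⁻¹ : (Matrix (Fin l) (Fin l) (ZMod 2))ˣ) :
            Matrix (Fin l) (Fin l) (ZMod 2)) * (u : Matrix (Fin l) (Fin l) (ZMod 2)) = 1 :=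
            u.inv_mul
          rw [← h1]
          rfl
        rw [Finset.sum_congr rfl fun k _ => this k]
        rw [Finset.sum_eq_single i]
        · simp
        · intro k _ hk
          rw [Matrix.one_apply_ne (Ne.symm hk), zero_smul]
        · intro h
          exact absurd (Finset.mem_univ _) h
      have h1 := key (fun j => cmb Y (B j))
      have h2 := key X
      have h3 : ∀ j, (∑ k, (u : Matrix (Fin l) (Fin l) (ZMod 2)) j k • cmb Y (B k)) =
          ∑ k, (u : Matrix (Fin l) (Fin l) (ZMod 2)) j k • X k := by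
        intro j
        rw [← hrow j]
        exact h j
      simp only [h3] at h1
      rw [← h1, h2]
    · intro h i
      rw [hrow i]
      refine Finset.sum_congr rfl fun j _ => ?_
      rw [h j]
  by_cases hc : ∀ i, cmb Y (B i) = X i
  · rw [if_pos (hiff.mpr hc), if_pos hc]
  · rw [if_neg (fun h => hc (hiff.mp h)), if_neg hc]

theorem fA_bad (hφ0 : ∀ x, wt x < d → φ x = -1) {X : Fin l → W n} {a : Fin l → ZMod 2}
    (h1 : 0 < wt (cmb X a)) (h2 : wt (cmb X a) < d) : fA c φ X = 0 := by
  classical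
  unfold fA
  rw [div_eq_zero_iff]
  left
  refine Finset.sum_eq_zero fun A _ => ?_
  have : ∑ Y : Fin l → W n, (if ∀ i, cmb Y (A i) = X i then gg φ Y else 0) = 0 := by
    refine Finset.sum_eq_zero fun Y _ => ?_
    split_ifs with h
    · by_contra hne
      have hX : cmb X a = cmb Y (Matrix.vecMul a A) := by
        rw [fa_cmb_mul]
        unfold cmb
        refine Finset.sum_congr rfl fun j _ => ?_
        rw [← h j]
        rfl
      have hb : Matrix.vecMul a A ≠ 0 := by
        intro h0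
        rw [hX, h0, fa_cmb_zero, fa_wt_zero] at h1
        exact lt_irrefl _ h1
      have h3 := good_of_gg hφ0 hne _ hb
      rw [← hX] at h3
      omega
    · rfl
  rw [this, mul_zero]

end Pool.Agent.Lib.MP_0430e4_lc.Lgv
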