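import Pool.Agent.Lib.MP_0430e4_lc.Lgv.FDef

/-!
# FB: the solution, partial sums

PROOFS. `fA_sum`: exchange sums, for fixed `A`, `Y` only `Z = fun i => cmb Y (A i)` contributes.
`fA_total`: by `fA_sum` with `S = univ`, `Ξ = 0` (`chw 0 = 1`) the total is `∑_A c^(A.rank)`, keep `A = 1`.
-/

set_option autoImplicit false

namespace Pool.Agent.Lib.MP_0430e4_lc.Lgv

open Finset
open Pool.Agent.Lib.MP_0430e4_lc.Lin (W wt chw sg)

variable {n : ℕ}

variable {l d : ℕ} {c : ℝ} {φ : W n → ℝ}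

/-- Partial sums against characters. -/
theorem fA_sum (S : Finset (Fin l)) (X Ξ : Fin l → W n) :
    ∑ Z ∈ univ.filter (fun Z : Fin l → W n => ∀ j, j ∉ S → Z j = X j),
      fA c φ Z * ∏ j ∈ S, chw (Ξ j) (Z j) =
    (∑ A : Matrix (Fin l) (Fin l) (ZMod 2), c ^ A.rank * ∑ Y : Fin l → W n,
      if ∀ j, j ∉ S → cmb Y (A j) = X j then gg φ Y * ∏ j ∈ S, chw (Ξ j) (cmb Y (A j)) else 0) /
      ∑ Y : Fin l → W n, gg φ Y := by
  classical
  have key : ∀ (A : Matrix (Fin l) (Fin l) (ZMod 2)) (Y : Fin l → W n),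
      ∑ Z ∈ univ.filter (fun Z : Fin l → W n => ∀ j, j ∉ S → Z j = X j),
        (if ∀ i, cmb Y (A i) = Z i then gg φ Y else 0) * ∏ j ∈ S, chw (Ξ j) (Z j) =
      if ∀ j, j ∉ S → cmb Y (A j) = X j then gg φ Y * ∏ j ∈ S, chw (Ξ j) (cmb Y (A j)) else 0 := by
    intro A Y
    rw [Finset.sum_filter]
    rw [Finset.sum_eq_single (fun i => cmb Y (A i))]
    · simp
    · intro Z _ hZ
      have : ¬ ∀ i, cmb Y (A i) = Z i := fun h => hZ (funext fun i => (h i).symm)
      simp [this]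
    · intro h
      exact absurd (mem_univ _) h
  have hL : ∑ Z ∈ univ.filter (fun Z : Fin l → W n => ∀ j, j ∉ S → Z j = X j),
      fA c φ Z * ∏ j ∈ S, chw (Ξ j) (Z j) =
      (∑ Z ∈ univ.filter (fun Z : Fin l → W n => ∀ j, j ∉ S → Z j = X j),
        ∑ A : Matrix (Fin l) (Fin l) (ZMod 2), ∑ Y : Fin l → W n, c ^ A.rank *
          ((if ∀ i, cmb Y (A i) = Z i then gg φ Y else 0) * ∏ j ∈ S, chw (Ξ j) (Z j))) /
      ∑ Y : Fin l → W n, gg φ Y := by
    rw [Finset.sum_div]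
    apply Finset.sum_congr rfl
    intro Z _
    unfold fA
    rw [div_mul_eq_mul_div, Finset.sum_mul]
    congr 1
    apply Finset.sum_congr rfl
    intro A _
    rw [mul_assoc, Finset.sum_mul, Finset.mul_sum]
  rw [hL]
  congr 1
  rw [Finset.sum_comm]
  apply Finset.sum_congr rfl
  intro A _
  rw [Finset.sum_comm, Finset.mul_sum]
  apply Finset.sum_congr rfl
  intro Y _
  rw [← Finset.mul_sum, key]

/-- The total mass. -/
theorem fA_total (hc : 0 ≤ c) (hs : 0 < ∑ Y : Fin l → W n, gg φ Y) :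
    c ^ l ≤ ∑ X : Fin l → W n, fA c φ X := by
  classical
  have h := fA_sum (c := c) (φ := φ) (Finset.univ : Finset (Fin l)) (0 : Fin l → W n) 0
  have hchw : ∀ x : W n, chw 0 x = 1 := by
    intro x
    unfold chw
    apply Finset.prod_eq_one
    intro i _
    simp [sg]
  simp only [mem_univ, not_true_eq_false, false_imp_iff, implies_true, Finset.filter_true,
    Pi.zero_apply, hchw, Finset.prod_const_one, mul_one, if_true] at h
  rw [h, ← Finset.sum_mul, mul_div_assoc, div_self hs.ne', mul_one]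
  have h1 : (1 : Matrix (Fin l) (Fin l) (ZMod 2)).rank = l := by
    rw [Matrix.rank_one, Fintype.card_fin]
  calc c ^ l = c ^ (1 : Matrix (Fin l) (Fin l) (ZMod 2)).rank := by rw [h1]
    _ ≤ _ := Finset.single_le_sum (f := fun A : Matrix (Fin l) (Fin l) (ZMod 2) => c ^ A.rank)
      (fun A _ => pow_nonneg hc _) (mem_univ _)

end Pool.Agent.Lib.MP_0430e4_lc.Lgv
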