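import Pool.Agent.Lib.MP_0430e4_lc.Lgv.Defs

/-!
# FDef: the solution
-/

set_option autoImplicit false

namespace Pool.Agent.Lib.MP_0430e4_lc.Lgv

open Finset
open Pool.Agent.Lib.MP_0430e4_lc.Lin (W wt chw sg)

variable {n : ℕ}

/-- The solution: push-forwards of the product under all matrices. -/
noncomputable def fA {l : ℕ} (c : ℝ) (φ : W n → ℝ) (X : Fin l → W n) : ℝ := by
  classical exact (∑ A : Matrix (Fin l) (Fin l) (ZMod 2), c ^ A.rank *
    ∑ Y : Fin l → W n, if ∀ i, cmb Y (A i) = X i then gg φ Y else 0) / ∑ Y : Fin l → W n, gg φ Y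

end Pool.Agent.Lib.MP_0430e4_lc.Lgv
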