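import Pool.Agent.Lib.MP_0430e4_lc.Lgv.Defs

/-!
# LOC: the number of low frequencies

PROOF. `1 [wt w <= k] <= (1/s)^k s^(wt w)` and `∑_w s^(wt w) = (1 + s)^n`; the words with
`n <= wt w + k` are the complements `w + 1`, `wt (w + 1) + wt w = n` (Lin.wt_add_one).
-/

set_option autoImplicit false

namespace Pool.Agent.Lib.MP_0430e4_lc.Lgv

open Finset
open Pool.Agent.Lib.MP_0430e4_lc.Lin (W wt chw sg)

variable {n : ℕ}

theorem loc_pow_wt (s : ℝ) (w : W n) : s ^ wt w = ∏ i, (if w i = 0 then 1 else s) := by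
  unfold wt
  rw [← Finset.prod_const, Finset.prod_filter]
  refine Finset.prod_congr rfl fun i _ => ?_
  by_cases h : w i = 0 <;> simp [h]

theorem loc_sum (s : ℝ) : ∑ w : W n, s ^ wt w = (1 + s) ^ n := by
  have h1 : ∀ w : W n, s ^ wt w = ∏ i, (if w i = 0 then (1 : ℝ) else s) := loc_pow_wt s
  rw [Finset.sum_congr rfl fun w _ => h1 w]
  have h2 := Finset.prod_univ_sum (fun _ : Fin n => (univ : Finset (ZMod 2)))
    (fun _ a => if a = 0 then (1 : ℝ) else s)
  rw [Fintype.piFinset_univ] at h2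
  rw [← h2]
  have h3 : ∑ a : ZMod 2, (if a = 0 then (1 : ℝ) else s) = 1 + s := by
    have h4 : (univ : Finset (ZMod 2)) = {0, 1} := by decide
    rw [h4, Finset.sum_insert (by decide), Finset.sum_singleton]
    simp
  simp [h3]

theorem loc_card {k : ℕ} {s : ℝ} (h0 : 0 < s) (h1 : s ≤ 1) :
    (((univ : Finset (W n)).filter fun w => wt w ≤ k).card : ℝ) ≤ (1 / s) ^ k * (1 + s) ^ n := by
  rw [← loc_sum s, Finset.mul_sum, Finset.card_filter, Nat.cast_sum]
  refine Finset.sum_le_sum fun w _ => ?_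
  have hp : (0 : ℝ) < (1 / s) ^ k * s ^ wt w := by positivity
  split_ifs with h
  · have h2 : s ^ k ≤ s ^ wt w := pow_le_pow_of_le_one h0.le h1 h
    have h3 : (1 / s) ^ k * s ^ k = 1 := by
      rw [← mul_pow, one_div, inv_mul_cancel₀ h0.ne', one_pow]
    have h4 : (0 : ℝ) < (1 / s) ^ k := by positivity
    calc ((1 : ℕ) : ℝ) = (1 / s) ^ k * s ^ k := by rw [h3]; norm_num
      _ ≤ (1 / s) ^ k * s ^ wt w := by gcongr
  · simpa using hp.le

/-- The number of low frequencies. -/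
theorem card_Lo_le {k : ℕ} {s : ℝ} (h0 : 0 < s) (h1 : s ≤ 1) :
    ((Lo n k).card : ℝ) ≤ 2 * ((1 / s) ^ k * (1 + s) ^ n) := by
  have hsub : Lo n k ⊆ (univ.filter fun w : W n => wt w ≤ k) ∪
      ((univ.filter fun w : W n => wt w ≤ k).image fun w => w + 1) := by
    intro w hw
    rw [Lo, mem_filter] at hw
    rw [mem_union, mem_image]
    rcases hw.2 with h | h
    · exact Or.inl (mem_filter.2 ⟨mem_univ _, h⟩)
    · refine Or.inr ⟨w + 1, mem_filter.2 ⟨mem_univ _, ?_⟩, ?_⟩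
      · have h2 := Pool.Agent.Lib.MP_0430e4_lc.Lin.wt_add_one w
        omega
      · rw [add_assoc, Pool.Agent.Lib.MP_0430e4_lc.Lin.add_self_W, add_zero]
  have h2 : (Lo n k).card ≤ 2 * ((univ : Finset (W n)).filter fun w => wt w ≤ k).card := by
    refine (card_le_card hsub).trans ((card_union_le _ _).trans ?_)
    have h3 := card_image_le (s := univ.filter fun w : W n => wt w ≤ k)
      (f := fun w => w + 1)
    omega
  have h3 := loc_card (n := n) (k := k) h0 h1
  calc ((Lo n k).card : ℝ) ≤ ((2 * ((univ : Finset (W n)).filter fun w => wt w ≤ k).card : ℕ) : ℝ) := by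
        exact_mod_cast h2
    _ = 2 * (((univ : Finset (W n)).filter fun w => wt w ≤ k).card : ℝ) := by push_cast; ring
    _ ≤ 2 * ((1 / s) ^ k * (1 + s) ^ n) := by gcongr

theorem one_le_card_Lo {k : ℕ} : 1 ≤ (Lo n k).card := by
  rw [Nat.one_le_iff_ne_zero, Ne, card_eq_zero, ← Ne, ← nonempty_iff_ne_empty]
  refine ⟨0, mem_filter.2 ⟨mem_univ _, Or.inl ?_⟩⟩
  have h : wt (0 : W n) = 0 := by
    unfold wt
    rw [card_eq_zero, filter_eq_empty_iff]
    intro i _
    simp
  omega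

end Pool.Agent.Lib.MP_0430e4_lc.Lgv
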