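import Pool.Agent.Lib.MP_0430e4_lc.Lgv.NUA

/-!
# NUMB: the choice of the parameters, stronger version

Write `Λ = l * (1 + log l) >= 1`. `G = log 2 - binEntropy δ > 0` (`entropy_gap`), `bet` and `gam` from `bet_le` and
`exists_gam_le`, `θ = (1-δ)^2 + δ^2 < 1`. `k = ⌊κ n / Λ⌋₊`, `s = κ / Λ`:
`L <= 2 exp(n (κ/Λ) (log(Λ/κ) + 1))`, `log Λ <= 2 log l` so `L <= 2 exp(n κ (log(1/κ) + 3)/l)` (as
`(2 log l + A)/(1 + log l) <= 2 + A`) and `L^l <= 2^l exp(n κ (log(1/κ) + 3))`. Choose `κ` with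
`κ (log(1/κ) + 3 + log(1/θ)) <= min(c0, G)/8`. `q/μ <= (n+2) L/(n θ^k) <= 3 L θ^(-k)`, so
`(q/μ)^i * 3 * 2^l max(gam, q) <= (3 L θ^(-k))^l * 3 * 2^l max(gam, q) <= 1` for large `n` (`l <= sqrt(c n)`, so `12^l`
is subexponential). `μ <= n bet θ^k + 2 bet^2 L`, `θ^k <= θ^(-1) e^(-κ log(1/θ) n/Λ)`; final `c` = small multiple of
`κ log(1/θ)`. `2^(3l+4)`: exponent `3l+4` against `n/Λ`: `l Λ = l^2 (1 + log l) <= c n` gives `l <= c n/Λ`, and
`Λ log n <= sqrt(c n (1 + log n)) log n`, so `log n` and constants are small against `n/Λ` for `n >= n0`.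
-/

set_option autoImplicit false

namespace Pool.Agent.Lib.MP_0430e4_lc.Lgv

open Finset
open Pool.Agent.Lib.MP_0430e4_lc.Lin (W wt chw sg)

theorem NUMB_ev_pow (k : ℕ) {b C : ℝ} (hb : 0 < b) (hC : 0 < C) :
    ∀ᶠ x : ℝ in Filter.atTop, C * x ^ k ≤ Real.exp (b * x) := by
  have h := (isLittleO_pow_exp_pos_mul_atTop (k := k) hb).def (inv_pos.2 hC)
  filter_upwards [h, Filter.eventually_ge_atTop 0] with x hx h0
  rw [Real.norm_of_nonneg (by positivity), Real.norm_of_nonneg (Real.exp_pos _).le,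
    ← div_eq_inv_mul, le_div_iff₀ hC] at hx
  linarith

/-- The choice of the constant. -/
theorem NUMB_kappa {a c1 : ℝ} (ha : 0 < a) (hc : 0 < c1) : ∃ κ : ℝ, 0 < κ ∧ κ ≤ 1 ∧
    κ * (Real.log (1 / κ) + 3) + κ * a ≤ c1 / 4 := by
  have h1 : 0 < c1 / (4 * (5 + a)) := by positivity
  obtain ⟨ε, hε0, hε1, hε2⟩ : ∃ ε : ℝ, 0 < ε ∧ ε ≤ 1 ∧ ε ≤ c1 / (4 * (5 + a)) :=
    ⟨min 1 (c1 / (4 * (5 + a))), lt_min one_pos h1, min_le_left _ _, min_le_right _ _⟩
  have hε3 : ε * (5 + a) ≤ c1 / 4 := by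
    rw [le_div_iff₀ (by positivity)] at hε2
    linarith
  refine ⟨ε ^ 2, by positivity, pow_le_one₀ hε0.le hε1, ?_⟩
  have h2 : Real.log (1 / ε ^ 2) = 2 * Real.log (1 / ε) := by
    rw [one_div, one_div, Real.log_inv, Real.log_inv, Real.log_pow]
    push_cast
    ring
  have h3 : Real.log (1 / ε) ≤ 1 / ε := by
    have := Real.log_le_sub_one_of_pos (show 0 < 1 / ε by positivity)
    linarith
  have h4 : ε ^ 2 * Real.log (1 / ε) ≤ ε := by
    calc ε ^ 2 * Real.log (1 / ε) ≤ ε ^ 2 * (1 / ε) := mul_le_mul_of_nonneg_left h3 (by positivity)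
      _ = ε := by
        field_simp
  have h5 : ε ^ 2 ≤ ε := by nlinarith
  rw [h2]
  nlinarith [mul_le_mul_of_nonneg_right h5 ha.le]

theorem NUMB_pow_le_exp {a : ℝ} (h0 : 0 ≤ a) {j : ℕ} (h1 : a ≤ 2 ^ j) (l : ℕ) :
    a ^ l ≤ Real.exp (j * l) := by
  have he : (2 : ℝ) ≤ Real.exp 1 := by
    have := Real.add_one_le_exp (1 : ℝ)
    linarith
  have h2 : a ≤ Real.exp j := by
    calc a ≤ 2 ^ j := h1
      _ ≤ Real.exp 1 ^ j := pow_le_pow_left₀ (by norm_num) he j
      _ = Real.exp j := by rw [← Real.exp_nat_mul, mul_one]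
  calc a ^ l ≤ Real.exp j ^ l := pow_le_pow_left₀ h0 h2 l
    _ = Real.exp (j * l) := by rw [← Real.exp_nat_mul, mul_comm]

/-- The number `1 + log l`. -/
theorem NUMB_log {l : ℕ} {z : ℝ} (hl : 1 ≤ l) (hz : 1 ≤ z) (h : (l : ℝ) ≤ z ^ 2) :
    1 + Real.log l ≤ 2 * z := by
  have hl' : (1 : ℝ) ≤ l := by exact_mod_cast hl
  have h1 : Real.log l ≤ Real.log (z ^ 2) := Real.log_le_log (by linarith) h
  rw [Real.log_pow] at h1
  have h2 := Real.log_le_sub_one_of_pos (show 0 < z by linarith)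
  push_cast at h1
  linarith

/-- The bound for the number of low frequencies. -/
theorem NUMB_L {κ Λ : ℝ} (h0 : 0 < κ) (h1 : κ ≤ 1) {n l : ℕ} (hl : 1 ≤ l)
    (hΛ : Λ = l * (1 + Real.log l)) :
    2 * ((1 / (κ / Λ)) ^ ⌊κ * n / Λ⌋₊ * (1 + κ / Λ) ^ n) ≤
      2 * Real.exp (n * (κ * (Real.log (1 / κ) + 3)) / l) := by
  have hl' : (1 : ℝ) ≤ l := by exact_mod_cast hl
  have hl0 : (0 : ℝ) < l := by linarith
  have ht : 0 ≤ Real.log l := Real.log_nonneg hl'
  have hΛ1 : 1 ≤ Λ := by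
    rw [hΛ]
    exact one_le_mul_of_one_le_of_one_le hl' (by linarith)
  have hΛ0 : 0 < Λ := by linarith
  have hlog : 0 ≤ Real.log (1 / κ) := Real.log_nonneg (by
    rw [le_div_iff₀ h0]
    linarith)
  have hs : 0 < κ / Λ := by positivity
  have hs1 : κ / Λ ≤ 1 := by
    rw [div_le_one hΛ0]
    linarith
  have hlog0 : 0 ≤ Real.log (1 / (κ / Λ)) := by
    apply Real.log_nonneg
    rw [le_div_iff₀ hs]
    linarith
  have hk : (⌊κ * n / Λ⌋₊ : ℝ) ≤ κ * n / Λ := Nat.floor_le (by positivity)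
  have hlogΛ : Real.log Λ ≤ 2 * Real.log l := by
    rw [hΛ, Real.log_mul hl0.ne' (by linarith)]
    have h2 : Real.log (1 + Real.log l) ≤ Real.log l := by
      apply Real.log_le_log (by linarith)
      have := Real.log_le_sub_one_of_pos hl0
      linarith
    linarith
  have hlog1 : Real.log (1 / (κ / Λ)) ≤ Real.log (1 / κ) + 2 * Real.log l := by
    have e : 1 / (κ / Λ) = 1 / κ * Λ := by field_simp
    rw [e, Real.log_mul (by positivity) (by positivity)]
    linarith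
  apply mul_le_mul_of_nonneg_left _ (by norm_num)
  calc (1 / (κ / Λ)) ^ ⌊κ * n / Λ⌋₊ * (1 + κ / Λ) ^ n
      ≤ Real.exp (κ * n / Λ * (Real.log (1 / κ) + 2 * Real.log l)) *
        Real.exp (κ * n / Λ) := by
        apply mul_le_mul _ _ (by positivity) (Real.exp_pos _).le
        · rw [nua_pow_exp (by positivity)]
          apply Real.exp_le_exp.2
          exact (mul_le_mul_of_nonneg_right hk hlog0).trans
            (mul_le_mul_of_nonneg_left hlog1 (by positivity))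
        · have e : κ * n / Λ = n * (κ / Λ) := by ring
          rw [e, Real.exp_nat_mul]
          apply pow_le_pow_left₀ (by positivity)
          have := Real.add_one_le_exp (κ / Λ)
          linarith
    _ = Real.exp (κ * n * (Real.log (1 / κ) + 2 * Real.log l + 1) / Λ) := by
        rw [← Real.exp_add]
        congr 1
        ring
    _ ≤ Real.exp (n * (κ * (Real.log (1 / κ) + 3)) / l) := by
        apply Real.exp_le_exp.2
        rw [div_le_div_iff₀ hΛ0 hl0, hΛ]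
        have h3 : Real.log (1 / κ) + 2 * Real.log l + 1 ≤
            (Real.log (1 / κ) + 3) * (1 + Real.log l) := by nlinarith
        have h4 := mul_le_mul_of_nonneg_left h3 (show 0 ≤ κ * n * l by positivity)
        linarith

theorem NUMB_theta_le {κ θ Λ : ℝ} (h2 : 0 < θ) (h3 : θ < 1) {n : ℕ} :
    θ ^ ⌊κ * n / Λ⌋₊ ≤ θ⁻¹ * Real.exp (-(κ * Real.log (1 / θ) / Λ) * n) := by
  have hlog : Real.log θ < 0 := Real.log_neg h2 h3
  have hk : κ * n / Λ - 1 ≤ (⌊κ * n / Λ⌋₊ : ℝ) := (Nat.sub_one_lt_floor _).le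
  have e : θ⁻¹ = Real.exp (-Real.log θ) := by
    rw [Real.exp_neg, Real.exp_log h2]
  rw [nua_pow_exp h2, e, ← Real.exp_add]
  apply Real.exp_le_exp.2
  rw [one_div, Real.log_inv]
  have h4 := mul_le_mul_of_nonpos_right hk hlog.le
  refine h4.trans (le_of_eq ?_)
  ring

theorem NUMB_theta_ge {κ θ Λ : ℝ} (h0 : 0 < κ) (hΛ : 0 < Λ) (h2 : 0 < θ) (h3 : θ < 1) {n : ℕ} :
    Real.exp (-(κ * Real.log (1 / θ) / Λ) * n) ≤ θ ^ ⌊κ * n / Λ⌋₊ := by
  have hlog : Real.log θ < 0 := Real.log_neg h2 h3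
  have hk : (⌊κ * n / Λ⌋₊ : ℝ) ≤ κ * n / Λ := Nat.floor_le (by positivity)
  rw [nua_pow_exp h2]
  apply Real.exp_le_exp.2
  rw [one_div, Real.log_inv]
  have h4 := mul_le_mul_of_nonpos_right hk hlog.le
  refine le_trans (le_of_eq ?_) h4
  ring

/-- The estimates. -/
theorem NUMB_core {n l : ℕ} {z A c0 c1 G E b c θ β L T g Λ : ℝ} (hA1 : 1 ≤ A) (hθ0 : 0 < θ)
    (hc10 : 0 < c1) (hc1G : c1 ≤ G) (hc1c : c1 ≤ c0) (hE0 : 0 ≤ E) (hb0 : 0 < b)
    (hκ : E + b ≤ c1 / 4) (hc : 0 < c) (hcb : 8 * c ≤ b) (hz1 : 1 ≤ z) (hz4 : z ^ 4 = n)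
    (hzc : 16 ≤ c1 * z) (hzG : 12 ≤ G * z)
    (f1 : 24 * A * (n : ℝ) ≤ Real.exp (c1 / 4 * n))
    (f2 : 2 * (A / θ) * Real.exp 4 * z ^ 4 ≤ Real.exp (b / 4 * z))
    (f3 : 8 * A ^ 2 * Real.exp 4 ≤ Real.exp (G / 2 * n))
    (hl' : 1 ≤ (l : ℝ)) (hlL : (l : ℝ) ≤ Λ) (hlz : (l : ℝ) ≤ z ^ 2) (hLc : l * Λ ≤ c * n)
    (hLz : Λ ≤ 2 * z ^ 3) (hβ0 : 0 < β)
    (hβ : β ≤ A * Real.exp (-G * n)) (hL1 : 1 ≤ L) (hL : L ≤ 2 * Real.exp (n * E / l))
    (hT0 : 0 < T) (hT1 : T ≤ 1) (hTle : T ≤ θ⁻¹ * Real.exp (-(b / Λ) * n))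
    (hTge : Real.exp (-(b / Λ) * n) ≤ T) (hg : g ≤ 2 * Real.exp (-c0 * n)) :
    β * L ≤ 1 / 4 ∧ (n + 2) * β * L ≤ 1 ∧ n * β * T + 2 * β ^ 2 * L ≤ (n + 2) * β * L ∧
      2 ^ l * ((n + 2) * β * L) ≤ 1 ∧
      (∀ i, 1 ≤ i → i ≤ l → 3 * 2 ^ l * max g ((n + 2) * β * L) * ((n + 2) * β * L) ^ i ≤
        (n * β * T + 2 * β ^ 2 * L) ^ i) ∧
      Real.exp (G * n + c / Λ * n) * (n * β * T + 2 * β ^ 2 * L) * 2 ^ (3 * l + 4) ≤ 1 := by
  have hA0 : 0 < A := by linarith
  have hG : 0 < G := by linarith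
  have hL0 : 0 < L := by linarith
  have hl0 : 0 < (l : ℝ) := by linarith
  have hΛ0 : 0 < Λ := by linarith
  have hΛ1 : 1 ≤ Λ := by linarith
  have hz0 : 0 < z := by linarith
  have hn1 : (1 : ℝ) ≤ n := by
    rw [← hz4]
    exact one_le_pow₀ hz1
  have hn0 : (0 : ℝ) ≤ n := by linarith
  have hz2 : 1 ≤ z ^ 2 := one_le_pow₀ hz1
  have hzz : z ≤ z ^ 2 := le_self_pow₀ hz1 (by norm_num)
  have hnz : (n : ℝ) = z ^ 2 * z ^ 2 := by
    rw [← hz4]
    ring
  have hLn : L ≤ 2 * Real.exp (n * E) := by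
    refine hL.trans ?_
    refine mul_le_mul_of_nonneg_left (Real.exp_le_exp.2 ?_) (by norm_num)
    exact div_le_self (by positivity) hl'
  obtain ⟨q, hqdef⟩ : ∃ q, q = (n + 2) * β * L := ⟨_, rfl⟩
  obtain ⟨μ, hμdef⟩ : ∃ μ, μ = n * β * T + 2 * β ^ 2 * L := ⟨_, rfl⟩
  rw [← hqdef, ← hμdef]
  have hμ0 : 0 < μ := by
    rw [hμdef]
    positivity
  have hq0 : 0 < q := by
    rw [hqdef]
    positivity
  have hEc : E ≤ c1 / 4 := by linarith
  have hbc : b ≤ c1 / 4 := by linarith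
  have hβL : β * L ≤ 2 * A * Real.exp (-(3 / 4 * c1) * n) := by
    calc β * L ≤ (A * Real.exp (-G * n)) * (2 * Real.exp (n * E)) :=
          mul_le_mul hβ hLn hL0.le (by positivity)
      _ = 2 * A * Real.exp (-G * n + n * E) := by
          rw [Real.exp_add]
          ring
      _ ≤ _ := by
          refine mul_le_mul_of_nonneg_left (Real.exp_le_exp.2 ?_) (by positivity)
          have g := mul_nonneg (show 0 ≤ G - E - 3 / 4 * c1 by linarith) hn0
          linarith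
  have hqle : q ≤ 8 * A * n * Real.exp (-(3 / 4 * c1) * n) := by
    rw [hqdef, mul_assoc]
    calc (n + 2) * (β * L) ≤ (4 * n) * (2 * A * Real.exp (-(3 / 4 * c1) * n)) :=
          mul_le_mul (by linarith) hβL (by positivity) (by positivity)
      _ = _ := by ring
  have hmaxle : max g q ≤ 8 * A * n * Real.exp (-(3 / 4 * c1) * n) := by
    apply max_le _ hqle
    refine hg.trans ?_
    have g2 : Real.exp (-c0 * n) ≤ Real.exp (-(3 / 4 * c1) * n) := by
      apply Real.exp_le_exp.2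
      have g := mul_nonneg (show 0 ≤ c0 - 3 / 4 * c1 by linarith) hn0
      linarith
    have g3 : 1 ≤ A * n := one_le_mul_of_one_le_of_one_le hA1 hn1
    have g4 : 0 < Real.exp (-(3 / 4 * c1) * n) := Real.exp_pos _
    have g5 := mul_le_mul_of_nonneg_right g3 g4.le
    linarith
  -- the key bound
  have key : 3 * 12 ^ l * (8 * A * n * Real.exp (-(3 / 4 * c1) * n)) * Real.exp (c1 / 4 * n) ≤
      1 := by
    have g1 : (12 : ℝ) ^ l ≤ Real.exp (4 * z ^ 2) := by
      refine (NUMB_pow_le_exp (j := 4) (by norm_num) (by norm_num) l).trans ?_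
      apply Real.exp_le_exp.2
      push_cast
      linarith
    have g2 : Real.exp (4 * z ^ 2) ≤ Real.exp (c1 / 4 * n) := by
      apply Real.exp_le_exp.2
      rw [hnz]
      have g3 : 16 ≤ c1 * z ^ 2 := by
        refine hzc.trans ?_
        exact mul_le_mul_of_nonneg_left hzz hc10.le
      have g4 := mul_le_mul_of_nonneg_right g3 (show 0 ≤ z ^ 2 by positivity)
      linarith
    calc 3 * 12 ^ l * (8 * A * n * Real.exp (-(3 / 4 * c1) * n)) * Real.exp (c1 / 4 * n)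
        = 12 ^ l * (24 * A * n) * (Real.exp (-(3 / 4 * c1) * n) * Real.exp (c1 / 4 * n)) := by
          ring
      _ ≤ Real.exp (c1 / 4 * n) * Real.exp (c1 / 4 * n) *
          (Real.exp (-(3 / 4 * c1) * n) * Real.exp (c1 / 4 * n)) := by
          refine mul_le_mul_of_nonneg_right ?_ (by positivity)
          exact mul_le_mul (g1.trans g2) f1 (by positivity) (by positivity)
      _ = Real.exp 0 := by
          rw [← Real.exp_add, ← Real.exp_add, ← Real.exp_add]
          congr 1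
          ring
      _ = 1 := Real.exp_zero
  have hexp1 : 1 ≤ Real.exp (c1 / 4 * n) := Real.one_le_exp (by positivity)
  have h12 : (1 : ℝ) ≤ 12 ^ l := one_le_pow₀ (by norm_num)
  have hBpos : 0 ≤ 8 * A * n * Real.exp (-(3 / 4 * c1) * n) := by positivity
  have key2 : 3 * 12 ^ l * (8 * A * n * Real.exp (-(3 / 4 * c1) * n)) ≤ 1 := by
    refine le_trans ?_ key
    exact le_mul_of_one_le_right (by positivity) hexp1
  have hq3 : 3 * 12 ^ l * q ≤ 1 := by
    refine le_trans ?_ key2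
    exact mul_le_mul_of_nonneg_left hqle (by positivity)
  have hq1' : 3 * q ≤ 1 := by
    have g1 : 3 * 1 * q ≤ 3 * 12 ^ l * q :=
      mul_le_mul_of_nonneg_right (mul_le_mul_of_nonneg_left h12 (by norm_num)) hq0.le
    linarith
  have hq1 : q ≤ 1 := by linarith
  have h2q : 2 ^ l * q ≤ 1 := by
    have g1 : (2 : ℝ) ^ l * q ≤ 12 ^ l * q :=
      mul_le_mul_of_nonneg_right (pow_le_pow_left₀ (by norm_num) (by norm_num) l) hq0.le
    have g2 : 0 < 12 ^ l * q := by positivity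
    linarith
  have hβL4 : β * L ≤ 1 / 4 := by
    have g1 : 0 < β * L := mul_pos hβ0 hL0
    have g2 := mul_le_mul_of_nonneg_right (show (3 : ℝ) ≤ n + 2 by linarith) g1.le
    have g3 : q = (n + 2) * (β * L) := by rw [hqdef, mul_assoc]
    have g4 : 0 < q := hq0
    linarith
  have hβ1 : β ≤ 1 := by
    have g := le_mul_of_one_le_right hβ0.le hL1
    linarith
  have hμq : μ ≤ q := by
    rw [hμdef, hqdef]
    have g1 : n * β * T ≤ n * β * L := mul_le_mul_of_nonneg_left (hT1.trans hL1) (by positivity)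
    have g2 : 2 * β ^ 2 * L ≤ 2 * β * L := by
      refine mul_le_mul_of_nonneg_right ?_ hL0.le
      have g := mul_le_mul_of_nonneg_left hβ1 hβ0.le
      rw [pow_two]
      linarith
    linarith
  refine ⟨hβL4, hq1, hμq, h2q, ?_, ?_⟩
  · -- the gap
    have hR : 1 ≤ 3 * L / T := by
      rw [le_div_iff₀ hT0]
      linarith
    have hqR : q ≤ 3 * L / T * μ := by
      have g1 : 3 * L / T * (n * β * T) = 3 * n * (β * L) := by
        field_simp
      have g2 : q ≤ 3 * n * (β * L) := by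
        rw [hqdef, mul_assoc]
        exact mul_le_mul_of_nonneg_right (by linarith) (mul_pos hβ0 hL0).le
      refine g2.trans ?_
      rw [← g1]
      refine mul_le_mul_of_nonneg_left ?_ (by positivity)
      rw [hμdef]
      have : 0 < 2 * β ^ 2 * L := by positivity
      linarith
    have hRl : (3 * L / T) ^ l ≤ 6 ^ l * Real.exp (c1 / 4 * n) := by
      have g1 : 1 / T ≤ Real.exp (b / Λ * n) := by
        rw [div_le_iff₀ hT0]
        calc (1 : ℝ) = Real.exp (b / Λ * n) * Real.exp (-(b / Λ) * n) := by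
              rw [← Real.exp_add, show b / Λ * n + -(b / Λ) * n = (0 : ℝ) by ring,
                Real.exp_zero]
          _ ≤ _ := mul_le_mul_of_nonneg_left hTge (Real.exp_pos _).le
      have g2 : 3 * L / T ≤ 6 * Real.exp (n * E / l + b / l * n) := by
        calc 3 * L / T = 3 * L * (1 / T) := by ring
          _ ≤ 3 * (2 * Real.exp (n * E / l)) * Real.exp (b / Λ * n) := by
              refine mul_le_mul ?_ g1 (by positivity) (by positivity)
              exact mul_le_mul_of_nonneg_left hL (by norm_num)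
          _ = 6 * Real.exp (n * E / l + b / Λ * n) := by
              rw [Real.exp_add]
              ring
          _ ≤ _ := by
              refine mul_le_mul_of_nonneg_left (Real.exp_le_exp.2 ?_) (by norm_num)
              have : b / Λ ≤ b / l := div_le_div_of_nonneg_left hb0.le hl0 hlL
              have g := mul_le_mul_of_nonneg_right this hn0
              linarith
      calc (3 * L / T) ^ l ≤ (6 * Real.exp (n * E / l + b / l * n)) ^ l :=
            pow_le_pow_left₀ (by positivity) g2 l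
        _ = 6 ^ l * Real.exp (n * E + b * n) := by
            rw [mul_pow, ← Real.exp_nat_mul]
            congr 2
            field_simp
        _ ≤ 6 ^ l * Real.exp (c1 / 4 * n) := by
            refine mul_le_mul_of_nonneg_left (Real.exp_le_exp.2 ?_) (by positivity)
            have g := mul_le_mul_of_nonneg_right hκ hn0
            linarith
    have hmax : 3 * 2 ^ l * max g q * (3 * L / T) ^ l ≤ 1 := by
      calc 3 * 2 ^ l * max g q * (3 * L / T) ^ l
          ≤ 3 * 2 ^ l * (8 * A * n * Real.exp (-(3 / 4 * c1) * n)) *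
            (6 ^ l * Real.exp (c1 / 4 * n)) := by
            refine mul_le_mul ?_ hRl (by positivity) (by positivity)
            exact mul_le_mul_of_nonneg_left hmaxle (by positivity)
        _ = 3 * 12 ^ l * (8 * A * n * Real.exp (-(3 / 4 * c1) * n)) * Real.exp (c1 / 4 * n) := by
            have e : (12 : ℝ) ^ l = 2 ^ l * 6 ^ l := by
              rw [← mul_pow]
              norm_num
            rw [e]
            ring
        _ ≤ 1 := key
    intro i _ hil
    have hmax0 : 0 ≤ max g q := hq0.le.trans (le_max_right _ _)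
    calc 3 * 2 ^ l * max g q * q ^ i ≤ 3 * 2 ^ l * max g q * ((3 * L / T) ^ l * μ ^ i) := by
          refine mul_le_mul_of_nonneg_left ?_ (by positivity)
          calc q ^ i ≤ (3 * L / T * μ) ^ i := pow_le_pow_left₀ hq0.le hqR i
            _ = (3 * L / T) ^ i * μ ^ i := mul_pow _ _ _
            _ ≤ _ := mul_le_mul_of_nonneg_right (pow_le_pow_right₀ hR hil) (by positivity)
      _ = (3 * 2 ^ l * max g q * (3 * L / T) ^ l) * μ ^ i := by ring
      _ ≤ 1 * μ ^ i := mul_le_mul_of_nonneg_right hmax (by positivity)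
      _ = μ ^ i := one_mul _
  · -- the value
    have hK : (2 : ℝ) ^ (3 * l + 4) ≤ Real.exp (3 * l + 4) := by
      have g := NUMB_pow_le_exp (a := 2) (j := 1) (by norm_num) (by norm_num) (3 * l + 4)
      push_cast at g
      rw [one_mul] at g
      exact g
    obtain ⟨K, hKdef⟩ : ∃ K, K = (2 : ℝ) ^ (3 * l + 4) := ⟨_, rfl⟩
    rw [← hKdef] at hK ⊢
    have hK0 : 0 < K := by
      rw [hKdef]
      positivity
    have hGn : Real.exp (G * n) * β ≤ A := by
      calc Real.exp (G * n) * β ≤ Real.exp (G * n) * (A * Real.exp (-G * n)) :=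
            mul_le_mul_of_nonneg_left hβ (Real.exp_pos _).le
        _ = A * Real.exp (G * n + -G * n) := by
            rw [Real.exp_add]
            ring
        _ = A := by
            rw [show G * n + -G * n = (0 : ℝ) by ring, Real.exp_zero, mul_one]
    -- `n / Λ` is large
    have hl3 : (l : ℝ) ≤ c * (n / Λ) := by
      rw [← mul_div_assoc, le_div_iff₀ hΛ0]
      exact hLc
    have hnΛ : z / 2 ≤ n / Λ := by
      rw [div_le_div_iff₀ (by norm_num) hΛ0, ← hz4]
      have g := mul_le_mul_of_nonneg_left hLz hz0.le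
      linarith
    have hnΛ0 : 0 ≤ n / Λ := by positivity
    have t1 : Real.exp (G * n + c / Λ * n) * (n * β * T) * K ≤ 1 / 2 := by
      have g1 : Real.exp (c / Λ * n) * T * K ≤
          θ⁻¹ * Real.exp 4 * Real.exp (-(b / 4 * z)) := by
        calc Real.exp (c / Λ * n) * T * K
            ≤ Real.exp (c / Λ * n) * (θ⁻¹ * Real.exp (-(b / Λ) * n)) *
              Real.exp (3 * l + 4) := by
              refine mul_le_mul ?_ hK hK0.le (by positivity)
              exact mul_le_mul_of_nonneg_left hTle (Real.exp_pos _).le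
          _ = θ⁻¹ * Real.exp 4 * Real.exp (c / Λ * n + -(b / Λ) * n + 3 * l) := by
              rw [Real.exp_add (3 * l : ℝ) 4, Real.exp_add (c / Λ * n + -(b / Λ) * n) (3 * l),
                Real.exp_add (c / Λ * n)]
              ring
          _ ≤ _ := by
              refine mul_le_mul_of_nonneg_left (Real.exp_le_exp.2 ?_) (by positivity)
              have e1 : c / Λ * n + -(b / Λ) * n + 3 * l = c * (n / Λ) - b * (n / Λ) + 3 * l := by
                ring
              rw [e1]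
              have e2 := mul_le_mul_of_nonneg_right hcb hnΛ0
              have e3 := mul_le_mul_of_nonneg_left hnΛ hb0.le
              linarith
      calc Real.exp (G * n + c / Λ * n) * (n * β * T) * K
          = (Real.exp (G * n) * β) * n * (Real.exp (c / Λ * n) * T * K) := by
            rw [Real.exp_add]
            ring
        _ ≤ A * n * (θ⁻¹ * Real.exp 4 * Real.exp (-(b / 4 * z))) := by
            refine mul_le_mul ?_ g1 (by positivity) (by positivity)
            exact mul_le_mul_of_nonneg_right hGn (by positivity)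
        _ = (2 * (A / θ) * Real.exp 4 * z ^ 4) * Real.exp (-(b / 4 * z)) / 2 := by
            rw [hz4]
            ring
        _ ≤ Real.exp (b / 4 * z) * Real.exp (-(b / 4 * z)) / 2 := by
            refine div_le_div_of_nonneg_right ?_ (by norm_num)
            exact mul_le_mul_of_nonneg_right f2 (by positivity)
        _ = 1 / 2 := by
            rw [← Real.exp_add, add_neg_cancel, Real.exp_zero]
    have t2 : Real.exp (G * n + c / Λ * n) * (2 * β ^ 2 * L) * K ≤ 1 / 2 := by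
      have g1 : Real.exp (c / Λ * n) ≤ Real.exp (b * n) := by
        apply Real.exp_le_exp.2
        have e1 : c / Λ ≤ c := div_le_self hc.le hΛ1
        exact mul_le_mul_of_nonneg_right (by linarith) hn0
      have hl3z : (3 : ℝ) * l + 4 ≤ 4 + 3 * z ^ 2 := by linarith
      calc Real.exp (G * n + c / Λ * n) * (2 * β ^ 2 * L) * K
          = 2 * (Real.exp (G * n) * β) * β * Real.exp (c / Λ * n) * L * K := by
            rw [Real.exp_add]
            ring
        _ ≤ 2 * A * (A * Real.exp (-G * n)) * Real.exp (b * n) * (2 * Real.exp (n * E)) *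
            Real.exp (4 + 3 * z ^ 2) := by
            refine mul_le_mul ?_ (hK.trans (Real.exp_le_exp.2 hl3z)) hK0.le (by positivity)
            refine mul_le_mul ?_ hLn hL0.le (by positivity)
            refine mul_le_mul ?_ g1 (by positivity) (by positivity)
            refine mul_le_mul ?_ hβ hβ0.le (by positivity)
            exact mul_le_mul_of_nonneg_left hGn (by norm_num)
        _ = 8 * A ^ 2 * Real.exp 4 * Real.exp (-G * n + b * n + n * E + 3 * z ^ 2) / 2 := by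
            rw [Real.exp_add, Real.exp_add, Real.exp_add, Real.exp_add]
            ring
        _ ≤ Real.exp (G / 2 * n) * Real.exp (-G * n + b * n + n * E + 3 * z ^ 2) / 2 := by
            refine div_le_div_of_nonneg_right ?_ (by norm_num)
            exact mul_le_mul_of_nonneg_right f3 (by positivity)
        _ = Real.exp (G / 2 * n + (-G * n + b * n + n * E + 3 * z ^ 2)) / 2 := by
            rw [← Real.exp_add]
        _ ≤ Real.exp 0 / 2 := by
            refine div_le_div_of_nonneg_right (Real.exp_le_exp.2 ?_) (by norm_num)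
            have g4 : b + E ≤ G / 4 := by linarith
            have g5 : (b + E) * n ≤ G / 4 * n := mul_le_mul_of_nonneg_right g4 (by positivity)
            have g6 : 12 * z ^ 2 ≤ G * n := by
              rw [hnz]
              have e1 : 12 ≤ G * z ^ 2 := hzG.trans (mul_le_mul_of_nonneg_left hzz hG.le)
              have e2 := mul_le_mul_of_nonneg_right e1 (show 0 ≤ z ^ 2 by positivity)
              linarith
            linarith
        _ = 1 / 2 := by rw [Real.exp_zero]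
    rw [hμdef]
    calc Real.exp (G * n + c / Λ * n) * (n * β * T + 2 * β ^ 2 * L) * K
        = Real.exp (G * n + c / Λ * n) * (n * β * T) * K +
          Real.exp (G * n + c / Λ * n) * (2 * β ^ 2 * L) * K := by ring
      _ ≤ 1 := by linarith

/-- The choice of the parameters, stronger version. -/
theorem paramsB {δ : ℝ} (h0 : 0 < δ) (h1 : δ < 1 / 2) : ∃ c : ℝ, 0 < c ∧ ∃ n0 : ℕ, ∀ n ≥ n0,
    ∀ l : ℕ, 1 ≤ l → (l : ℝ) ^ 2 * (1 + Real.log l) ≤ c * n → ∃ (k : ℕ) (s : ℝ), 0 < s ∧ s ≤ 1 ∧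
      let d := ⌈δ * n⌉₊
      let β := bet δ n d
      let L := 2 * ((1 / s) ^ k * (1 + s) ^ n)
      let q := (n + 2) * β * L
      let μ := n * β * ((1 - δ) ^ 2 + δ ^ 2) ^ k + 2 * β ^ 2 * L
      β * L ≤ 1 / 4 ∧ q ≤ 1 ∧ μ ≤ q ∧ 2 ^ l * q ≤ 1 ∧
      (∀ i, 1 ≤ i → i ≤ l → 3 * 2 ^ l * max (gam δ n d) q * q ^ i ≤ μ ^ i) ∧
      2 ^ (3 * l + 4) * μ ≤ 1 ∧
      (2 : ℝ) ^ (n * (1 - Real.binEntropy δ / Real.log 2 + c / (l * (1 + Real.log l)))) ≤
        μ⁻¹ / 2 ^ (3 * l + 4) := by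
  have hG := entropy_gap h0 h1
  obtain ⟨c0, hc0, hgam⟩ := exists_gam_le h0 h1
  have hA1 : 1 ≤ (1 - δ) / δ := by
    rw [le_div_iff₀ h0]
    linarith
  have hA0 : 0 < (1 - δ) / δ := by linarith
  obtain ⟨θ, hθ⟩ : ∃ θ, θ = (1 - δ) ^ 2 + δ ^ 2 := ⟨_, rfl⟩
  have hθ0 : 0 < θ := by
    rw [hθ]
    positivity
  have hθ1 : θ < 1 := by
    rw [hθ]
    nlinarith
  rw [← hθ]
  have hlθ : 0 < Real.log (1 / θ) := Real.log_pos (by
    rw [lt_div_iff₀ hθ0]
    linarith)
  obtain ⟨c1, hc10, hc1G, hc1c⟩ : ∃ c1 : ℝ, 0 < c1 ∧ c1 ≤ Real.log 2 - Real.binEntropy δ ∧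
      c1 ≤ c0 := ⟨min c0 (Real.log 2 - Real.binEntropy δ), lt_min hc0 hG, min_le_right _ _,
        min_le_left _ _⟩
  obtain ⟨κ, hκ0, hκ1, hκ⟩ := NUMB_kappa hlθ hc10
  have hE0 : 0 ≤ κ * (Real.log (1 / κ) + 3) := by
    have hlog : 0 ≤ Real.log (1 / κ) := Real.log_nonneg (by
      rw [le_div_iff₀ hκ0]
      linarith)
    positivity
  have hb0 : 0 < κ * Real.log (1 / θ) := by positivity
  have hl2 : 0 < Real.log 2 := Real.log_pos (by norm_num)
  have hl2' : Real.log 2 ≤ 1 := by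
    have := Real.log_two_lt_d9
    linarith
  obtain ⟨c, hc, hc1, hcb⟩ : ∃ c : ℝ, 0 < c ∧ c ≤ 1 ∧ 8 * c ≤ κ * Real.log (1 / θ) :=
    ⟨min 1 (κ * Real.log (1 / θ) / 8), lt_min one_pos (by positivity), min_le_left _ _, by
      have := min_le_right 1 (κ * Real.log (1 / θ) / 8)
      linarith⟩
  have ev1 := NUMB_ev_pow 1 (show 0 < c1 / 4 by positivity)
    (show 0 < 24 * ((1 - δ) / δ) by positivity)
  have ev2 := NUMB_ev_pow 4 (show 0 < κ * Real.log (1 / θ) / 4 by positivity)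
    (show 0 < 2 * ((1 - δ) / δ / θ) * Real.exp 4 by positivity)
  have ev3 := NUMB_ev_pow 0 (show 0 < (Real.log 2 - Real.binEntropy δ) / 2 by positivity)
    (show 0 < 8 * ((1 - δ) / δ) ^ 2 * Real.exp 4 by positivity)
  have ev4 := Filter.eventually_ge_atTop
    (max 1 (max (16 / c1) (12 / (Real.log 2 - Real.binEntropy δ))))
  have hnat : Filter.Tendsto (fun n : ℕ => (n : ℝ)) Filter.atTop Filter.atTop :=
    tendsto_natCast_atTop_atTop
  have hsq : Filter.Tendsto (fun n : ℕ => √√(n : ℝ)) Filter.atTop Filter.atTop :=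
    Real.tendsto_sqrt_atTop.comp (Real.tendsto_sqrt_atTop.comp hnat)
  have ev := (hnat.eventually ev1).and ((hsq.eventually ev2).and ((hnat.eventually ev3).and
    (hsq.eventually ev4)))
  obtain ⟨n0, hn0⟩ := Filter.eventually_atTop.1 ev
  refine ⟨c, hc, max n0 1, fun n hn l hl hln => ?_⟩
  obtain ⟨f1, f2, f3, f4⟩ := hn0 n ((le_max_left _ _).trans hn)
  rw [pow_one] at f1
  rw [pow_zero, mul_one] at f3
  have hn1 : (1 : ℝ) ≤ n := by exact_mod_cast (le_max_right _ _).trans hn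
  have hl' : (1 : ℝ) ≤ l := by exact_mod_cast hl
  have ht : 0 ≤ Real.log l := Real.log_nonneg hl'
  obtain ⟨z, hz⟩ : ∃ z, z = √√(n : ℝ) := ⟨_, rfl⟩
  rw [← hz] at f2 f4
  have hz1 : 1 ≤ z := (le_max_left _ _).trans f4
  have hzc : 16 ≤ c1 * z := by
    have g := ((le_max_left _ _).trans (le_max_right _ _)).trans f4
    rw [div_le_iff₀ hc10] at g
    linarith
  have hzG : 12 ≤ (Real.log 2 - Real.binEntropy δ) * z := by
    have g := ((le_max_right _ _).trans (le_max_right _ _)).trans f4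
    rw [div_le_iff₀ hG] at g
    linarith
  have hz2 : z ^ 2 = √(n : ℝ) := by
    rw [hz, Real.sq_sqrt (Real.sqrt_nonneg _)]
  have hz4 : z ^ 4 = n := by
    have e : z ^ 4 = (z ^ 2) ^ 2 := by ring
    rw [e, hz2, Real.sq_sqrt (by linarith)]
  have hlz : (l : ℝ) ≤ z ^ 2 := by
    have g1 : (l : ℝ) ^ 2 ≤ (z ^ 2) ^ 2 := by
      calc (l : ℝ) ^ 2 ≤ (l : ℝ) ^ 2 * (1 + Real.log l) :=
            le_mul_of_one_le_right (by positivity) (by linarith)
        _ ≤ c * n := hln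
        _ ≤ 1 * n := mul_le_mul_of_nonneg_right hc1 (by linarith)
        _ = (z ^ 2) ^ 2 := by rw [one_mul, ← hz4]; ring
    exact (pow_le_pow_iff_left₀ (by positivity) (by positivity) (by norm_num)).1 g1
  have hlog2 := NUMB_log hl hz1 hlz
  obtain ⟨Λ, hΛ⟩ : ∃ Λ, Λ = l * (1 + Real.log l) := ⟨_, rfl⟩
  have hlL : (l : ℝ) ≤ Λ := by
    rw [hΛ]
    exact le_mul_of_one_le_right (by linarith) (by linarith)
  have hΛ0 : 0 < Λ := by linarith
  have hLc : l * Λ ≤ c * n := by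
    refine le_trans (le_of_eq ?_) hln
    rw [hΛ]
    ring
  have hLz : Λ ≤ 2 * z ^ 3 := by
    rw [hΛ]
    calc (l : ℝ) * (1 + Real.log l) ≤ z ^ 2 * (2 * z) :=
          mul_le_mul hlz hlog2 (by linarith) (by positivity)
      _ = _ := by ring
  have hs0 : 0 < κ / Λ := by positivity
  have hs1 : κ / Λ ≤ 1 := by
    rw [div_le_one hΛ0]
    linarith
  have hβ := bet_le h0 h1 n
  have hβ0 : 0 < bet δ n ⌈δ * n⌉₊ := by
    unfold bet
    have h2 : 0 < 1 / (2 * (1 - δ)) := by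
      apply div_pos one_pos
      linarith
    positivity
  have hL := NUMB_L hκ0 hκ1 (n := n) hl hΛ
  have hL1 : 1 ≤ 2 * ((1 / (κ / Λ)) ^ ⌊κ * n / Λ⌋₊ * (1 + κ / Λ) ^ n) := by
    have h2 : 1 ≤ (1 / (κ / Λ)) ^ ⌊κ * n / Λ⌋₊ := by
      apply one_le_pow₀
      rw [le_div_iff₀ hs0]
      linarith
    have h3 : 1 ≤ (1 + κ / Λ) ^ n := by
      apply one_le_pow₀
      linarith
    have h4 := one_le_mul_of_one_le_of_one_le h2 h3
    linarith
  have hT0 : 0 < θ ^ ⌊κ * n / Λ⌋₊ := pow_pos hθ0 _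
  have hT1 : θ ^ ⌊κ * n / Λ⌋₊ ≤ 1 := pow_le_one₀ hθ0.le hθ1.le
  have hTle := NUMB_theta_le (κ := κ) (Λ := Λ) hθ0 hθ1 (n := n)
  have hTge := NUMB_theta_ge hκ0 hΛ0 hθ0 hθ1 (n := n)
  obtain ⟨r1, r2, r3, r4, r5, r6⟩ := NUMB_core hA1 hθ0 hc10 hc1G hc1c hE0 hb0 hκ hc hcb hz1 hz4
    hzc hzG f1 f2 f3 hl' hlL hlz hLc hLz hβ0 hβ hL1 hL hT0 hT1 hTle hTge (hgam n)
  refine ⟨⌊κ * n / Λ⌋₊, κ / Λ, hs0, hs1, r1, r2, r3, r4, r5, ?_⟩
  have eN : (2 : ℝ) ^ (n * (1 - Real.binEntropy δ / Real.log 2 +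
      c / (l * (1 + Real.log l)))) ≤
      Real.exp ((Real.log 2 - Real.binEntropy δ) * n + c / Λ * n) := by
    rw [Real.rpow_def_of_pos (by norm_num), ← hΛ]
    apply Real.exp_le_exp.2
    have e1 : Real.log 2 * (n * (1 - Real.binEntropy δ / Real.log 2 + c / Λ)) =
        (Real.log 2 - Real.binEntropy δ) * n + Real.log 2 * (c / Λ * n) := by
      field_simp
    rw [e1]
    have e2 : 0 ≤ c / Λ * n := by positivity
    have e3 := mul_le_mul_of_nonneg_right hl2' e2
    linarith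
  obtain ⟨μ, hμdef⟩ : ∃ μ, μ = n * bet δ n ⌈δ * n⌉₊ * θ ^ ⌊κ * n / Λ⌋₊ +
      2 * bet δ n ⌈δ * n⌉₊ ^ 2 *
      (2 * ((1 / (κ / Λ)) ^ ⌊κ * n / Λ⌋₊ * (1 + κ / Λ) ^ n)) := ⟨_, rfl⟩
  have hμ0 : 0 < μ := by
    rw [hμdef]
    have h2 := lt_of_lt_of_le one_pos hL1
    have h3 : 0 < (n : ℝ) := by linarith
    exact add_pos (mul_pos (mul_pos h3 hβ0) hT0) (mul_pos (by positivity) h2)
  show 2 ^ (3 * l + 4) * (n * bet δ n ⌈δ * n⌉₊ * θ ^ ⌊κ * n / Λ⌋₊ +
      2 * bet δ n ⌈δ * n⌉₊ ^ 2 *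
      (2 * ((1 / (κ / Λ)) ^ ⌊κ * n / Λ⌋₊ * (1 + κ / Λ) ^ n))) ≤ 1 ∧
    (2 : ℝ) ^ (n * (1 - Real.binEntropy δ / Real.log 2 +
      c / (l * (1 + Real.log l)))) ≤
      (n * bet δ n ⌈δ * n⌉₊ * θ ^ ⌊κ * n / Λ⌋₊ +
      2 * bet δ n ⌈δ * n⌉₊ ^ 2 *
      (2 * ((1 / (κ / Λ)) ^ ⌊κ * n / Λ⌋₊ * (1 + κ / Λ) ^ n)))⁻¹ / 2 ^ (3 * l + 4)
  rw [← hμdef] at r6 ⊢
  obtain ⟨K, hKdef⟩ : ∃ K, K = (2 : ℝ) ^ (3 * l + 4) := ⟨_, rfl⟩
  rw [← hKdef] at r6 ⊢
  have hK0 : 0 < K := by
    rw [hKdef]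
    positivity
  have hN1 : 1 ≤ Real.exp ((Real.log 2 - Real.binEntropy δ) * n + c / Λ * n) := by
    apply Real.one_le_exp
    positivity
  constructor
  · refine le_trans ?_ r6
    have g1 : 0 < K * μ := mul_pos hK0 hμ0
    have g := mul_le_mul_of_nonneg_right hN1 g1.le
    linarith
  · refine eN.trans ?_
    rw [le_div_iff₀ hK0, inv_eq_one_div, le_div_iff₀ hμ0]
    linarith

end Pool.Agent.Lib.MP_0430e4_lc.Lgv
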