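import Pool.Agent.Lib.MP_0430e4_lc.Lgv.Defs

/-!
# PROF: the function of level one

PROOF. `S = Lo n k`, `G v w = (∑_x (1 - bl d x) chw v x chw w x) / 2^n` on `S`. For
`p = ∑_{v ∈ S} c v chw v`: `∑ G c c = E[(1 - bl) p^2] >= (1 - β |S|) ∑ c^2 >= (1/2) ∑ c^2`
(`|p|^2 <= |S| ∑ c^2` pointwise, `E p^2 = ∑ c^2`). `Las.solve` (Las/FUN2.lean, copy it: it only needs
Mathlib) gives `c` with `∑_w G v w c w = ft (bl d) v` for `v ∈ S`. Put `φ = - bl d + (1 - bl d) p`.
Then `ft φ v = 0` on `S`. `(1/2) ∑ c^2 <= ∑ c v ft (bl d) v = E[bl p] <= β sqrt(|S| ∑ c^2)`, so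
`|p| <= sqrt(|S| ∑ c^2) <= 2 β |S|`. For `w ∉ S`: `ft φ w = - ft (bl d) w + ft p w - ft (bl d * p) w`,
`ft p w = 0`, `|ft (bl d * p) w| <= β sup|p|`. Useful: Lin.chw_add, Lin.abs_chw, Lin.sum_chw_left.
-/

set_option autoImplicit false

namespace Pool.Agent.Lib.MP_0430e4_lc.Lgv

open Finset
open Pool.Agent.Lib.MP_0430e4_lc.Lin (W wt chw sg)

variable {n : ℕ}

theorem prof_orth (v w : W n) :
    (∑ x : W n, chw v x * chw w x) / 2 ^ n = if v = w then (1 : ℝ) else 0 := by
  have h1 : ∑ x : W n, chw v x * chw w x = ∑ x : W n, chw x (v + w) := by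
    refine sum_congr rfl fun x _ => ?_
    rw [← Lin.chw_add, Lin.chw_comm]
  rw [h1, Lin.sum_chw_left]
  by_cases h : v = w
  · subst h
    rw [if_pos (Lin.add_self_W v), if_pos rfl]
    field_simp
  · rw [if_neg, if_neg h, zero_div]
    intro h2
    exact h (Lin.eq_of_add_U h2)

theorem prof_form {S : Type} [Fintype S] (e : S → W n) (g : W n → ℝ) (c : S → ℝ) :
    ∑ v, ∑ w, ((∑ x, g x * (chw (e v) x * chw (e w) x)) / 2 ^ n) * c v * c w
      = (∑ x, g x * (∑ v, c v * chw (e v) x) ^ 2) / 2 ^ n := by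
  have h1 : ∀ x, g x * (∑ v, c v * chw (e v) x) ^ 2
      = ∑ v, ∑ w, g x * (chw (e v) x * chw (e w) x) * c v * c w := by
    intro x
    rw [sq, sum_mul_sum, mul_sum]
    refine sum_congr rfl fun v _ => ?_
    rw [mul_sum]
    refine sum_congr rfl fun w _ => ?_
    ring
  rw [sum_congr rfl fun x _ => h1 x]
  have h2 : ∑ x, ∑ v, ∑ w, g x * (chw (e v) x * chw (e w) x) * c v * c w
      = ∑ v, ∑ w, ∑ x, g x * (chw (e v) x * chw (e w) x) * c v * c w := by
    rw [sum_comm]
    refine sum_congr rfl fun v _ => ?_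
    rw [sum_comm]
  rw [h2, sum_div]
  refine sum_congr rfl fun v _ => ?_
  rw [sum_div]
  refine sum_congr rfl fun w _ => ?_
  rw [← sum_mul, ← sum_mul]
  ring

/-- A coercive form on a finite-dimensional space is solvable. -/
theorem prof_solve {S : Type} [Fintype S] [DecidableEq S] (G : S → S → ℝ) {κ : ℝ} (hκ : 0 < κ)
    (hG : ∀ c : S → ℝ, κ * ∑ s, c s ^ 2 ≤ ∑ s, ∑ s', G s s' * c s * c s') (b : S → ℝ) :
    ∃ c : S → ℝ, ∀ s, ∑ s', G s s' * c s' = b s := by
  let T : (S → ℝ) →ₗ[ℝ] (S → ℝ) := Matrix.mulVecLin (Matrix.of G)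
  have hT : ∀ (c : S → ℝ) (s : S), T c s = ∑ s', G s s' * c s' := by
    intro c s
    rfl
  have hinj : Function.Injective T := by
    rw [← LinearMap.ker_eq_bot, LinearMap.ker_eq_bot']
    intro c hc
    have h1 := hG c
    have h2 : ∑ s, ∑ s', G s s' * c s * c s' = 0 := by
      calc ∑ s, ∑ s', G s s' * c s * c s' = ∑ s, c s * T c s := by
            refine sum_congr rfl fun s _ => ?_
            rw [hT, mul_sum]
            refine sum_congr rfl fun s' _ => by ring
        _ = 0 := by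
            rw [hc]
            simp
    rw [h2] at h1
    have h3 : ∑ s, c s ^ 2 ≤ 0 := by
      by_contra h
      push Not at h
      have := mul_pos hκ h
      linarith
    have h4 : ∑ s, c s ^ 2 = 0 := le_antisymm h3 (sum_nonneg fun s _ => sq_nonneg _)
    rw [sum_eq_zero_iff_of_nonneg (fun s _ => sq_nonneg _)] at h4
    funext s
    exact pow_eq_zero_iff (two_ne_zero) |>.1 (h4 s (mem_univ s))
  have hsurj : Function.Surjective T := LinearMap.injective_iff_surjective.1 hinj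
  obtain ⟨c, hc⟩ := hsurj b
  refine ⟨c, fun s => ?_⟩
  rw [← hT, hc]

theorem prof_bl_nonneg (d : ℕ) (x : W n) : 0 ≤ bl d x := by
  unfold bl
  split_ifs <;> norm_num

theorem prof_bl_le_one (d : ℕ) (x : W n) : bl d x ≤ 1 := by
  unfold bl
  split_ifs <;> norm_num

/-- The function of level one. -/
theorem exists_profile {d k : ℕ} {β : ℝ} (hβ : (∑ x : W n, bl d x) / 2 ^ n ≤ β)
    (hL : β * (Lo n k).card ≤ 1 / 2) :
    ∃ φ : W n → ℝ, (∀ x, wt x < d → φ x = -1) ∧
      (∀ x, d ≤ wt x → |φ x| ≤ 2 * β * (Lo n k).card) ∧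
      (∀ w ∈ Lo n k, ft φ w = 0) ∧
      ∀ w, w ∉ Lo n k → |ft φ w| ≤ |ft (bl d) w| + 2 * β ^ 2 * (Lo n k).card := by
  classical
  let S := {v : W n // v ∈ Lo n k}
  have hcard : (Fintype.card S : ℝ) = (Lo n k).card := by
    rw [Fintype.card_coe]
  have h2n : (0 : ℝ) < 2 ^ n := by positivity
  have hβ0 : 0 ≤ β := le_trans (div_nonneg (sum_nonneg fun x _ => prof_bl_nonneg d x) h2n.le) hβ
  have hβ' : ∑ x : W n, bl d x ≤ β * 2 ^ n := by
    rwa [div_le_iff₀ h2n] at hβ
  obtain ⟨M, hM⟩ : ∃ M : ℝ, M = ((Lo n k).card : ℝ) := ⟨_, rfl⟩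
  rw [← hM] at hL hcard
  have hM0 : 0 ≤ M := by
    rw [hM]
    positivity
  let p : (S → ℝ) → W n → ℝ := fun c x => ∑ v : S, c v * chw v.1 x
  let G : S → S → ℝ := fun v w => (∑ x, (1 - bl d x) * (chw v.1 x * chw w.1 x)) / 2 ^ n
  -- the pointwise bound
  have hp2 : ∀ (c : S → ℝ) (x : W n), p c x ^ 2 ≤ M * ∑ v, c v ^ 2 := by
    intro c x
    have h1 : p c x ^ 2 ≤ (∑ v : S, c v ^ 2) * ∑ v : S, chw v.1 x ^ 2 :=
      sum_mul_sq_le_sq_mul_sq _ _ _
    have h3 : ∑ v : S, chw v.1 x ^ 2 = M := by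
      have h4 : ∀ v : S, chw v.1 x ^ 2 = 1 := by
        intro v
        rw [← sq_abs, Lin.abs_chw, one_pow]
      rw [sum_congr rfl fun v _ => h4 v, sum_const, card_univ, nsmul_eq_mul, mul_one, hcard]
    rw [h3] at h1
    linarith [h1, mul_comm M (∑ v : S, c v ^ 2)]
  have hE : ∀ c : S → ℝ, (∑ x, p c x ^ 2) / 2 ^ n = ∑ v, c v ^ 2 := by
    intro c
    have h1 := prof_form (fun v : S => v.1) (fun _ : W n => (1 : ℝ)) c
    simp only [one_mul] at h1
    change (∑ x, (∑ v : S, c v * chw v.1 x) ^ 2) / 2 ^ n = _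
    rw [← h1]
    refine sum_congr rfl fun v _ => ?_
    rw [sum_eq_single v]
    · rw [prof_orth, if_pos rfl]
      ring
    · intro w _ hw
      rw [prof_orth, if_neg]
      · ring
      · intro h
        exact hw (Subtype.ext h.symm)
    · intro h
      exact absurd (mem_univ _) h
  have hG2 : ∀ c : S → ℝ, ∑ v, ∑ w, G v w * c v * c w
      = ∑ v, c v ^ 2 - (∑ x, bl d x * p c x ^ 2) / 2 ^ n := by
    intro c
    have h1 := prof_form (fun v : S => v.1) (fun x : W n => 1 - bl d x) c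
    change ∑ v, ∑ w, G v w * c v * c w = (∑ x, (1 - bl d x) * p c x ^ 2) / 2 ^ n at h1
    rw [h1, ← hE c, ← sub_div, ← sum_sub_distrib]
    congr 1
    refine sum_congr rfl fun x _ => ?_
    ring
  have hcoer : ∀ c : S → ℝ, (1 / 2 : ℝ) * ∑ s, c s ^ 2 ≤ ∑ s, ∑ s', G s s' * c s * c s' := by
    intro c
    have hQ : 0 ≤ ∑ v, c v ^ 2 := sum_nonneg fun v _ => sq_nonneg _
    rw [hG2 c]
    have h1 : ∑ x, bl d x * p c x ^ 2 ≤ (β * 2 ^ n) * (M * ∑ v, c v ^ 2) := by
      calc ∑ x, bl d x * p c x ^ 2 ≤ ∑ x, bl d x * (M * ∑ v, c v ^ 2) :=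
            sum_le_sum fun x _ => mul_le_mul_of_nonneg_left (hp2 c x) (prof_bl_nonneg d x)
        _ = (∑ x, bl d x) * (M * ∑ v, c v ^ 2) := by rw [sum_mul]
        _ ≤ _ := mul_le_mul_of_nonneg_right hβ' (mul_nonneg hM0 hQ)
    have h2 : (∑ x, bl d x * p c x ^ 2) / 2 ^ n ≤ (β * M) * ∑ v, c v ^ 2 := by
      rw [div_le_iff₀ h2n]
      calc ∑ x, bl d x * p c x ^ 2 ≤ (β * 2 ^ n) * (M * ∑ v, c v ^ 2) := h1
        _ = _ := by ring
    have h3 : (β * M) * ∑ v, c v ^ 2 ≤ 1 / 2 * ∑ v, c v ^ 2 :=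
      mul_le_mul_of_nonneg_right hL hQ
    linarith
  obtain ⟨c, hc⟩ := prof_solve G (by norm_num : (0 : ℝ) < 1 / 2) hcoer (fun v => ft (bl d) v.1)
  -- the bound for `p`
  have hQ : 0 ≤ ∑ v, c v ^ 2 := sum_nonneg fun v _ => sq_nonneg _
  set s : ℝ := Real.sqrt (M * ∑ v, c v ^ 2) with hs
  have hs0 : 0 ≤ s := Real.sqrt_nonneg _
  have hss : s ^ 2 = M * ∑ v, c v ^ 2 := Real.sq_sqrt (mul_nonneg hM0 hQ)
  have hps : ∀ x, |p c x| ≤ s := by
    intro x
    rw [hs]
    exact Real.abs_le_sqrt (hp2 c x)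
  have hbp : ∀ g : W n → ℝ, (∀ x, |g x| ≤ 1) → ∀ t : ℝ, (∀ x, |p c x| ≤ t) →
      |(∑ x, bl d x * p c x * g x) / 2 ^ n| ≤ β * t := by
    intro g hg t ht
    have ht0 : 0 ≤ t := le_trans (abs_nonneg _) (ht 0)
    rw [abs_div, abs_of_pos h2n, div_le_iff₀ h2n]
    calc |∑ x, bl d x * p c x * g x| ≤ ∑ x, |bl d x * p c x * g x| := abs_sum_le_sum_abs _ _
      _ ≤ ∑ x, bl d x * t := by
          refine sum_le_sum fun x _ => ?_
          rw [abs_mul, abs_mul, abs_of_nonneg (prof_bl_nonneg d x)]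
          calc bl d x * |p c x| * |g x| ≤ bl d x * |p c x| * 1 :=
                mul_le_mul_of_nonneg_left (hg x)
                  (mul_nonneg (prof_bl_nonneg d x) (abs_nonneg _))
            _ = bl d x * |p c x| := mul_one _
            _ ≤ bl d x * t := mul_le_mul_of_nonneg_left (ht x) (prof_bl_nonneg d x)
      _ = (∑ x, bl d x) * t := by rw [sum_mul]
      _ ≤ (β * 2 ^ n) * t := mul_le_mul_of_nonneg_right hβ' ht0
      _ = β * t * 2 ^ n := by ring
  have hQs : 1 / 2 * ∑ v, c v ^ 2 ≤ β * s := by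
    have h1 := hcoer c
    have h2 : ∑ v, ∑ w, G v w * c v * c w = (∑ x, bl d x * p c x * 1) / 2 ^ n := by
      calc ∑ v, ∑ w, G v w * c v * c w = ∑ v, c v * ft (bl d) v.1 := by
            refine sum_congr rfl fun v _ => ?_
            rw [← hc v, mul_sum]
            refine sum_congr rfl fun w _ => ?_
            ring
        _ = _ := by
            unfold ft
            have h3 : ∀ v : S, c v * ((∑ x, bl d x * chw v.1 x) / 2 ^ n)
                = (∑ x, bl d x * (c v * chw v.1 x)) / 2 ^ n := by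
              intro v
              rw [← mul_div_assoc, mul_sum]
              congr 1
              refine sum_congr rfl fun x _ => ?_
              ring
            rw [sum_congr rfl fun v _ => h3 v, ← sum_div, sum_comm]
            congr 1
            refine sum_congr rfl fun x _ => ?_
            rw [← mul_sum, mul_one]
    rw [h2] at h1
    have h4 := hbp (fun _ => 1) (fun x => by simp) s hps
    exact h1.trans ((le_abs_self _).trans h4)
  have hsb : s ≤ 2 * β * M := by
    rcases hs0.eq_or_lt with h | h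
    · rw [← h]
      positivity
    · have h1 : s * s ≤ 2 * β * M * s := by
        calc s * s = M * ∑ v, c v ^ 2 := by rw [← hss]; ring
          _ ≤ M * (2 * (β * s)) := by
              refine mul_le_mul_of_nonneg_left ?_ hM0
              linarith
          _ = _ := by ring
      exact le_of_mul_le_mul_right h1 h
  have hpb : ∀ x, |p c x| ≤ 2 * β * M := fun x => (hps x).trans hsb
  -- the function
  let φ : W n → ℝ := fun x => - bl d x + (1 - bl d x) * p c x
  have hft : ∀ w, ft φ w = - ft (bl d) w + (∑ x, (1 - bl d x) * p c x * chw w x) / 2 ^ n := by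
    intro w
    unfold ft
    rw [← neg_div, ← add_div, ← sum_neg_distrib, ← sum_add_distrib]
    congr 1
    refine sum_congr rfl fun x _ => ?_
    change (- bl d x + (1 - bl d x) * p c x) * chw w x = _
    ring
  rw [← hM]
  refine ⟨φ, ?_, ?_, ?_, ?_⟩
  · intro x hx
    have h1 : bl d x = 1 := by
      unfold bl
      rw [if_pos hx]
    change - bl d x + (1 - bl d x) * p c x = -1
    rw [h1]
    ring
  · intro x hx
    have h1 : bl d x = 0 := by
      unfold bl
      rw [if_neg (not_lt.2 hx)]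
    change |- bl d x + (1 - bl d x) * p c x| ≤ _
    rw [h1]
    have h2 : -(0 : ℝ) + (1 - 0) * p c x = p c x := by ring
    rw [h2]
    exact hpb x
  · intro w hw
    rw [hft w]
    have h1 := hc ⟨w, hw⟩
    change ∑ v : S, G ⟨w, hw⟩ v * c v = ft (bl d) w at h1
    rw [← h1]
    have h2 : (∑ x, (1 - bl d x) * p c x * chw w x) / 2 ^ n = ∑ v : S, G ⟨w, hw⟩ v * c v := by
      have h3 : ∀ x, (1 - bl d x) * p c x * chw w x
          = ∑ v : S, (1 - bl d x) * (chw w x * chw v.1 x) * c v := by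
        intro x
        change (1 - bl d x) * (∑ v : S, c v * chw v.1 x) * chw w x = _
        rw [mul_sum, sum_mul]
        refine sum_congr rfl fun v _ => ?_
        ring
      rw [sum_congr rfl fun x _ => h3 x, sum_comm, sum_div]
      refine sum_congr rfl fun v _ => ?_
      rw [← sum_mul, mul_div_right_comm]
    rw [h2]
    ring
  · intro w hw
    rw [hft w]
    have h1 : (∑ x, (1 - bl d x) * p c x * chw w x) / 2 ^ n
        = - ((∑ x, bl d x * p c x * chw w x) / 2 ^ n) := by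
      have h2 : (∑ x, p c x * chw w x) / 2 ^ n = 0 := by
        have h3 : ∀ x, p c x * chw w x = ∑ v : S, c v * (chw v.1 x * chw w x) := by
          intro x
          change (∑ v : S, c v * chw v.1 x) * chw w x = _
          rw [sum_mul]
          refine sum_congr rfl fun v _ => ?_
          ring
        rw [sum_congr rfl fun x _ => h3 x, sum_comm, sum_div]
        refine sum_eq_zero fun v _ => ?_
        rw [← mul_sum, mul_div_assoc, prof_orth, if_neg, mul_zero]
        intro h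
        exact hw (h ▸ v.2)
      have h4 : ∑ x, (1 - bl d x) * p c x * chw w x
          = ∑ x, p c x * chw w x - ∑ x, bl d x * p c x * chw w x := by
        rw [← sum_sub_distrib]
        refine sum_congr rfl fun x _ => ?_
        ring
      rw [h4, sub_div, h2]
      ring
    rw [h1]
    have h5 := hbp (fun x => chw w x) (fun x => (Lin.abs_chw w x).le) _ hpb
    calc |-ft (bl d) w + -((∑ x, bl d x * p c x * chw w x) / 2 ^ n)|
        ≤ |-ft (bl d) w| + |-((∑ x, bl d x * p c x * chw w x) / 2 ^ n)| := abs_add_le _ _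
      _ = |ft (bl d) w| + |(∑ x, bl d x * p c x * chw w x) / 2 ^ n| := by rw [abs_neg, abs_neg]
      _ ≤ |ft (bl d) w| + β * (2 * β * M) := by linarith
      _ = _ := by ring

end Pool.Agent.Lib.MP_0430e4_lc.Lgv
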