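import Pool.Agent.Lib.MP_0430e4_lc.Lgv.BFT
import Pool.Agent.Lib.MP_0430e4_lc.Lgv.PROF
import Pool.Agent.Lib.MP_0430e4_lc.Lgv.LOC
import Pool.Agent.Lib.MP_0430e4_lc.Lgv.ESTB
import Pool.Agent.Lib.MP_0430e4_lc.Lgv.ASMB
import Pool.Agent.Lib.MP_0430e4_lc.Lgv.NUMB

/-!
# No level up to `c sqrt (n / log n)` certifies the Gilbert-Varshamov bound
-/

set_option autoImplicit false

namespace Pool.Agent.Lib.MP_0430e4_lc.Lgv

open Finset
open Pool.Agent.Lib.MP_0430e4_lc.Lin (W wt chw sg)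

theorem bet_pos {δ : ℝ} (h0 : 0 < δ) (h1 : δ < 1 / 2) (n d : ℕ) : 0 < bet δ n d := by
  unfold bet
  have h2 : 0 < (1 - δ) / δ := div_pos (by linarith) h0
  have h3 : 0 < 1 / (2 * (1 - δ)) := by
    apply div_pos one_pos
    linarith
  positivity

/-- The ball has measure at most `bet`. -/
theorem ball_le {δ : ℝ} (h0 : 0 < δ) (h1 : δ < 1 / 2) (n d : ℕ) :
    (∑ x : W n, bl d x) / 2 ^ n ≤ bet δ n d := by
  have h := avg_ind (u := 0) (j := 1) (n := n) (d := d) h0 h1.le (fun i => i.elim0)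
    (T := {(0, fun _ => 1)}) (by
      unfold Indp
      refine LinearIndependent.of_subsingleton ⟨_, mem_singleton_self _⟩ ?_
      intro h
      have := congrFun h 0
      simp at this)
  rw [card_singleton, pow_one, mul_one] at h
  refine le_trans (le_of_eq ?_) h
  congr 1
  have e : ∀ Z : Fin 1 → W n, ∏ p ∈ ({(0, fun _ => 1)} : Finset (P 0 1)),
      bl d (wd (fun i => i.elim0) Z p) = bl d (Z 0) := by
    intro Z
    rw [prod_singleton]
    unfold wd cmb
    simp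
  simp_rw [e]
  rw [← Equiv.sum_comp (Equiv.funUnique (Fin 1) (W n)).symm]
  rfl

theorem mainB {δ : ℝ} (h0 : 0 < δ) (h1 : δ < 1 / 2) : ∃ c : ℝ, 0 < c ∧ ∃ n0 : ℕ, ∀ n ≥ n0,
    ∀ l : ℕ, 1 ≤ l → (l : ℝ) ^ 2 * (1 + Real.log l) ≤ c * n →
      (2 : ℝ) ^ (l * n * (1 - Real.binEntropy δ / Real.log 2 + c / (l * (1 + Real.log l)))) ≤
        parLP l n ⌈δ * n⌉₊ := by
  obtain ⟨c, hc, n0, hn0⟩ := paramsB h0 h1
  refine ⟨c, hc, max n0 1, fun n hn l hl hln => ?_⟩
  have hn1 : 1 ≤ n := (le_max_right _ _).trans hn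
  obtain ⟨k, s, hs0, hs1, hβL, hq1, hμq, hql, hgap, hT, hfin⟩ :=
    hn0 n ((le_max_left _ _).trans hn) l hl hln
  set d := ⌈δ * n⌉₊ with hd
  set β := bet δ n d with hβ
  set L := 2 * ((1 / s) ^ k * (1 + s) ^ n) with hL
  set q := (n + 2) * β * L with hq
  set θ := (1 - δ) ^ 2 + δ ^ 2 with hθ
  set μ := n * β * θ ^ k + 2 * β ^ 2 * L with hμ
  have hβ0 : 0 < β := bet_pos h0 h1 n d
  have hL0 : 0 < L := by rw [hL]; positivity
  have hcard : ((Lo n k).card : ℝ) ≤ L := card_Lo_le hs0 hs1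
  have hcard1 : (1 : ℝ) ≤ (Lo n k).card := by exact_mod_cast one_le_card_Lo
  have hL1 : 1 ≤ L := hcard1.trans hcard
  have hn' : (1 : ℝ) ≤ n := by exact_mod_cast hn1
  have hθ0 : 0 < θ := by rw [hθ]; positivity
  have hθ1 : θ ≤ 1 := by rw [hθ]; nlinarith
  have hμ0 : 0 < μ := by rw [hμ]; positivity
  have hball := ball_le h0 h1 n d
  have hdn : δ * n ≤ d := Nat.le_ceil _
  have hd1 : 1 ≤ d := by
    rw [hd, Nat.one_le_ceil_iff]
    positivity
  have hdn2 : (d : ℝ) ≤ n := by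
    have : d ≤ n := by
      rw [hd, Nat.ceil_le]
      nlinarith
    exact_mod_cast this
  obtain ⟨φ, hφ1, hφ2, hφ3, hφ4⟩ := exists_profile (k := k) hball
    (by nlinarith : β * (Lo n k).card ≤ 1 / 2)
  have hφ2' : ∀ x, d ≤ wt x → |φ x| ≤ q := by
    intro x hx
    refine (hφ2 x hx).trans ?_
    rw [hq]
    have : 2 * β * (Lo n k).card ≤ 2 * β * L := mul_le_mul_of_nonneg_left hcard (by positivity)
    nlinarith [mul_pos hβ0 hL0]
  have hφf : ∀ w, |ft φ w| ≤ μ := by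
    intro w
    by_cases hw : w ∈ Lo n k
    · rw [hφ3 w hw, abs_zero]
      exact hμ0.le
    · have hw2 : ¬ (wt w ≤ k ∨ n ≤ wt w + k) := by
        intro h
        exact hw (mem_filter.2 ⟨mem_univ _, h⟩)
      push Not at hw2
      have h3 := abs_ft_bl_le (d := d) h0 h1.le (w := w) (k := k) hw2.1.le hw2.2.le
      have h4 : d * β * θ ^ k ≤ n * β * θ ^ k := by
        have := pow_pos hθ0 k
        exact mul_le_mul_of_nonneg_right (mul_le_mul_of_nonneg_right hdn2 hβ0.le) this.le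
      have h5 : 2 * β ^ 2 * (Lo n k).card ≤ 2 * β ^ 2 * L :=
        mul_le_mul_of_nonneg_left hcard (by positivity)
      have h6 := hφ4 w hw
      rw [hμ]
      linarith
  have hφm : ∀ x, -1 ≤ φ x := by
    intro x
    by_cases hx : wt x < d
    · rw [hφ1 x hx]
    · have := abs_le.1 ((hφ2' x (not_lt.1 hx)).trans hq1)
      exact this.1
  have hβq : bet δ n d ≤ q := by
    rw [← hβ, hq]
    have : β * 1 ≤ β * L := mul_le_mul_of_nonneg_left hL1 hβ0.le
    nlinarith [mul_pos hβ0 hL0]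
  have hasm := asmB (n := n) (l := l) (M := (2 ^ (l + 2) * μ)⁻¹) (c := μ⁻¹ / 2 ^ (3 * l + 4))
    hd1 hφ1 hφm (by
      rw [le_div_iff₀ (by positivity), one_mul, inv_eq_one_div, le_div_iff₀ hμ0]
      exact hT) (by
      have e : (2 : ℝ) ^ (3 * l + 4) = 2 ^ (2 * l + 2) * 2 ^ (l + 2) := by
        rw [← pow_add]
        congr 1
        ring
      rw [e, mul_inv]
      refine le_of_eq ?_
      field_simp) (by
      intro u j huj X hX Θ
      rw [inv_inv]
      have := Gh_boundB h0 h1 hdn hφ1 hφ2' hφf hμ0 hβq (by rw [huj]; exact hql)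
        (fun i h1 h2 => by rw [huj]; exact hgap i h1 (h2.trans (by omega))) hX Θ
      rwa [huj] at this)
  refine le_trans ?_ hasm
  have h7 := pow_le_pow_left₀ (by positivity) hfin l
  refine le_trans (le_of_eq ?_) h7
  rw [← Real.rpow_mul_natCast (by norm_num)]
  congr 1
  ring

end Pool.Agent.Lib.MP_0430e4_lc.Lgv
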