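import Pool.Agent.Lib.MP_0430e4_lc.Lgv.Defs

/-!
# NUA: simple bounds for the parameters

PROOF. `bet_le`: `δ n <= ⌈δ n⌉ <= δ n + 1`, `(1-δ)/δ >= 1`, and
`δ log((1-δ)/δ) - log(2(1-δ)) = binEntropy δ - log 2`. `gam_le`: `ϱ = 1/(2(1-δ))`, `1/ϱ > 1`,
`gam = exp(d log(1/ϱ) - (1-ϱ) 2δ(1-δ) n) <= (1/ϱ) exp(n (δ log(1/ϱ) - (1-ϱ) 2δ(1-δ)))`,
`c0 = (1-ϱ) 2δ(1-δ) - δ log(1/ϱ) > 0` since `2(1-δ) = 1/ϱ` so `c0 = δ ((1-ϱ)/ϱ - log(1/ϱ))` and
`log x < x - 1` for `x ≠ 1`. `L_le`: `(1/s)^k <= exp((κ n/l^2) log(l^2/κ))`, `(1+s)^n <= exp(s n)`.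
`log_sq_le`: `log (l^2) = 2 log l <= 2 (l - 1)`. `theta_le`: `k >= κ n/l^2 - 1` and `0 < θ < 1`.
-/

set_option autoImplicit false

namespace Pool.Agent.Lib.MP_0430e4_lc.Lgv

open Finset
open Pool.Agent.Lib.MP_0430e4_lc.Lin (W wt chw sg)

variable {δ : ℝ}

theorem nua_pow_exp {x : ℝ} (hx : 0 < x) (k : ℕ) : x ^ k = Real.exp (k * Real.log x) := by
  rw [Real.exp_nat_mul, Real.exp_log hx]

theorem nua_ceil_le {x : ℝ} (hx : 1 ≤ x) (h0 : 0 < δ) (n : ℕ) :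
    x ^ ⌈δ * n⌉₊ ≤ x * Real.exp (δ * n * Real.log x) := by
  have hx0 : 0 < x := lt_of_lt_of_le one_pos hx
  have h1 : (⌈δ * n⌉₊ : ℝ) ≤ δ * n + 1 := (Nat.ceil_lt_add_one (by positivity)).le
  have hl : 0 ≤ Real.log x := Real.log_nonneg hx
  rw [nua_pow_exp hx0]
  calc Real.exp (⌈δ * n⌉₊ * Real.log x) ≤ Real.exp ((δ * n + 1) * Real.log x) :=
        Real.exp_le_exp.2 (mul_le_mul_of_nonneg_right h1 hl)
    _ = Real.exp (Real.log x + δ * n * Real.log x) := by congr 1; ring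
    _ = x * Real.exp (δ * n * Real.log x) := by rw [Real.exp_add, Real.exp_log hx0]

theorem entropy_gap (h0 : 0 < δ) (h1 : δ < 1 / 2) : 0 < Real.log 2 - Real.binEntropy δ := by
  rw [sub_pos, Real.binEntropy_lt_log_two]
  norm_num
  linarith

theorem bet_le (h0 : 0 < δ) (h1 : δ < 1 / 2) (n : ℕ) : bet δ n ⌈δ * n⌉₊ ≤
    (1 - δ) / δ * Real.exp (-(Real.log 2 - Real.binEntropy δ) * n) := by
  unfold bet
  have hd : 0 < 1 - δ := by linarith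
  have hx : 1 ≤ (1 - δ) / δ := by rw [le_div_iff₀ h0]; linarith
  have hy : 0 < 1 / (2 * (1 - δ)) := by positivity
  calc ((1 - δ) / δ) ^ ⌈δ * n⌉₊ * (1 / (2 * (1 - δ))) ^ n
      ≤ ((1 - δ) / δ * Real.exp (δ * n * Real.log ((1 - δ) / δ))) *
          (1 / (2 * (1 - δ))) ^ n :=
        mul_le_mul_of_nonneg_right (nua_ceil_le hx h0 n) (by positivity)
    _ = (1 - δ) / δ * Real.exp (-(Real.log 2 - Real.binEntropy δ) * n) := by
        rw [nua_pow_exp hy, mul_assoc, ← Real.exp_add]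
        congr 2
        rw [Real.log_div hd.ne' h0.ne', one_div, Real.log_inv, Real.log_mul two_ne_zero hd.ne']
        unfold Real.binEntropy
        rw [Real.log_inv, Real.log_inv]
        ring

theorem exists_gam_le (h0 : 0 < δ) (h1 : δ < 1 / 2) : ∃ c0 : ℝ, 0 < c0 ∧ ∀ n : ℕ,
    gam δ n ⌈δ * n⌉₊ ≤ 2 * Real.exp (-c0 * n) := by
  have hd : 0 < 1 - δ := by linarith
  have hy1 : 1 < 2 * (1 - δ) := by linarith
  have hlog := Real.log_lt_sub_one_of_pos (x := 2 * (1 - δ)) (by linarith) hy1.ne'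
  refine ⟨δ * (2 * (1 - δ) - 1 - Real.log (2 * (1 - δ))), mul_pos h0 (by linarith), fun n => ?_⟩
  unfold gam
  calc (2 * (1 - δ)) ^ ⌈δ * n⌉₊ *
        Real.exp (-(1 - 1 / (2 * (1 - δ))) * (2 * δ * (1 - δ)) * n)
      ≤ (2 * (1 - δ) * Real.exp (δ * n * Real.log (2 * (1 - δ)))) *
        Real.exp (-(1 - 1 / (2 * (1 - δ))) * (2 * δ * (1 - δ)) * n) :=
        mul_le_mul_of_nonneg_right (nua_ceil_le hy1.le h0 n) (Real.exp_pos _).le
    _ = 2 * (1 - δ) * Real.exp (-(δ * (2 * (1 - δ) - 1 - Real.log (2 * (1 - δ)))) * n) := by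
        rw [mul_assoc, ← Real.exp_add]
        congr 2
        field_simp
        ring
    _ ≤ 2 * Real.exp (-(δ * (2 * (1 - δ) - 1 - Real.log (2 * (1 - δ)))) * n) := by
        apply mul_le_mul_of_nonneg_right _ (Real.exp_pos _).le
        linarith

theorem L_le {κ : ℝ} (h0 : 0 < κ) (h1 : κ ≤ 1) {n l : ℕ} (hl : 1 ≤ l) :
    2 * ((1 / (κ / l ^ 2)) ^ ⌊κ * n / l ^ 2⌋₊ * (1 + κ / l ^ 2) ^ n) ≤
      2 * Real.exp (n * (κ / l ^ 2) * (Real.log (1 / κ) + 2 * l)) := by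
  have hl1 : (1 : ℝ) ≤ l := by exact_mod_cast hl
  have hl0 : (0 : ℝ) < l := by linarith
  have hs : 0 < κ / (l : ℝ) ^ 2 := by positivity
  have hs1 : κ / (l : ℝ) ^ 2 ≤ 1 := by
    rw [div_le_one (by positivity)]
    nlinarith
  have hlog0 : 0 ≤ Real.log (1 / (κ / (l : ℝ) ^ 2)) := by
    apply Real.log_nonneg
    rw [le_div_iff₀ hs]
    linarith
  have hk : (⌊κ * n / (l : ℝ) ^ 2⌋₊ : ℝ) ≤ κ / (l : ℝ) ^ 2 * n := by
    refine (Nat.floor_le (by positivity)).trans (le_of_eq ?_)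
    ring
  have hlog : Real.log (1 / (κ / (l : ℝ) ^ 2)) ≤ Real.log (1 / κ) + 2 * (l - 1) := by
    have e : 1 / (κ / (l : ℝ) ^ 2) = 1 / κ * (l : ℝ) ^ 2 := by field_simp
    rw [e, Real.log_mul (by positivity) (by positivity), Real.log_pow]
    have := Real.log_le_sub_one_of_pos hl0
    push_cast
    linarith
  apply mul_le_mul_of_nonneg_left _ (by norm_num)
  calc (1 / (κ / (l : ℝ) ^ 2)) ^ ⌊κ * n / (l : ℝ) ^ 2⌋₊ * (1 + κ / (l : ℝ) ^ 2) ^ n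
      ≤ Real.exp (κ / (l : ℝ) ^ 2 * n * (Real.log (1 / κ) + 2 * (l - 1))) *
        Real.exp (κ / (l : ℝ) ^ 2 * n) := by
        apply mul_le_mul _ _ (by positivity) (Real.exp_pos _).le
        · rw [nua_pow_exp (by positivity)]
          apply Real.exp_le_exp.2
          exact (mul_le_mul_of_nonneg_right hk hlog0).trans
            (mul_le_mul_of_nonneg_left hlog (by positivity))
        · rw [mul_comm (κ / (l : ℝ) ^ 2) (n : ℝ), Real.exp_nat_mul]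
          apply pow_le_pow_left₀ (by positivity)
          have := Real.add_one_le_exp (κ / (l : ℝ) ^ 2)
          linarith
    _ ≤ Real.exp (n * (κ / l ^ 2) * (Real.log (1 / κ) + 2 * l)) := by
        rw [← Real.exp_add]
        apply Real.exp_le_exp.2
        have : 0 ≤ κ / (l : ℝ) ^ 2 * n := by positivity
        nlinarith

theorem theta_pow_le {κ θ : ℝ} (h0 : 0 < κ) (h2 : 0 < θ) (h3 : θ < 1) {n l : ℕ} (hl : 1 ≤ l) :
    θ ^ ⌊κ * n / l ^ 2⌋₊ ≤ θ⁻¹ * Real.exp (-(Real.log (1 / θ) * κ / l ^ 2) * n) := by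
  have hlog : Real.log θ < 0 := Real.log_neg h2 h3
  have hk : κ * n / (l : ℝ) ^ 2 - 1 ≤ (⌊κ * n / (l : ℝ) ^ 2⌋₊ : ℝ) := (Nat.sub_one_lt_floor _).le
  have e : θ⁻¹ = Real.exp (-Real.log θ) := by
    rw [Real.exp_neg, Real.exp_log h2]
  rw [nua_pow_exp h2, e, ← Real.exp_add]
  apply Real.exp_le_exp.2
  rw [one_div, Real.log_inv]
  have h4 := mul_le_mul_of_nonpos_right hk hlog.le
  refine h4.trans (le_of_eq ?_)
  ring

theorem theta_pow_ge {κ θ : ℝ} (h0 : 0 < κ) (h2 : 0 < θ) (h3 : θ < 1) {n l : ℕ} (hl : 1 ≤ l) :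
    Real.exp (-(Real.log (1 / θ) * κ / l ^ 2) * n) ≤ θ ^ ⌊κ * n / l ^ 2⌋₊ := by
  have hlog : Real.log θ < 0 := Real.log_neg h2 h3
  have hk : (⌊κ * n / (l : ℝ) ^ 2⌋₊ : ℝ) ≤ κ * n / (l : ℝ) ^ 2 := Nat.floor_le (by positivity)
  rw [nua_pow_exp h2]
  apply Real.exp_le_exp.2
  rw [one_div, Real.log_inv]
  have h4 := mul_le_mul_of_nonpos_right hk hlog.le
  refine le_trans (le_of_eq ?_) h4
  ring

end Pool.Agent.Lib.MP_0430e4_lc.Lgv
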