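import Pool.Agent.Lib.MP_0430e4_lc.Lgv.NUA

/-!
# NUM: the choice of the parameters

`G = log 2 - binEntropy δ > 0`, `bet <= ((1-δ)/δ) e^(-n G)` (`d <= δ n + 1`), `gam <= 2(1-δ) e^(-c0 n)`,
`c0 = (1-ϱ) 2δ(1-δ) + δ log ϱ > 0`, `ϱ = 1/(2(1-δ))` (`log ϱ > 1 - 1/ϱ`). `θ = (1-δ)^2 + δ^2 < 1`.
`k = ⌊κ n / l^2⌋`, `s = κ / l^2`: `L <= 2 exp(n (κ/l^2) (log(l^2/κ) + 1))`, so `L^l <= 2^l exp(n κ (log(1/κ) + 3))`
(`log (l^2) <= 2 l`). Choose `κ` with `κ (log(1/κ) + 3 + log(1/θ)) <= min(c0, G)/8`.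
`q/μ <= (n+2) L/(n θ^k) <= 3 L θ^(-k)`, so `(q/μ)^i max(gam, q) <= (3 L θ^(-k))^l max(gam, q) <= 1` for large `n`
(`4^l <= n`). `μ <= n bet θ^k + 2 bet^2 L`, `θ^k <= θ^(-1) e^(-κ log(1/θ) n/l^2)`; `c = κ log(1/θ)/(2 log 2)` or smaller.
`2^(l*l+4) 4^(2^l)`: exponent `l^2 + 4 + 2 * 2^l <= l^2 + 4 + 2 sqrt n`, small compared to `n/l^2` as `4^l <= n`.
-/

set_option autoImplicit false

namespace Pool.Agent.Lib.MP_0430e4_lc.Lgv

open Finset
open Pool.Agent.Lib.MP_0430e4_lc.Lin (W wt chw sg)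

variable {n : ℕ}

theorem NUM_ev_pow (k : ℕ) {b C : ℝ} (hb : 0 < b) (hC : 0 < C) :
    ∀ᶠ x : ℝ in Filter.atTop, C * x ^ k ≤ Real.exp (b * x) := by
  have h := (isLittleO_pow_exp_pos_mul_atTop (k := k) hb).def (inv_pos.2 hC)
  filter_upwards [h, Filter.eventually_ge_atTop 0] with x hx h0
  rw [Real.norm_of_nonneg (by positivity), Real.norm_of_nonneg (Real.exp_pos _).le,
    ← div_eq_inv_mul, le_div_iff₀ hC] at hx
  linarith

theorem NUM_ev_log {ε : ℝ} (hε : 0 < ε) :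
    ∀ᶠ x : ℝ in Filter.atTop, ∀ l : ℕ, (2 : ℝ) ^ l ≤ x → (l : ℝ) ^ 2 ≤ ε * x := by
  have h := (Real.isLittleO_pow_log_id_atTop (n := 2)).def (show 0 < ε / 4 by positivity)
  filter_upwards [h, Filter.eventually_ge_atTop 1] with x hx h1 l hl
  have h2 : (l : ℝ) * Real.log 2 ≤ Real.log x := by
    rw [← Real.log_pow]
    exact Real.log_le_log (by positivity) hl
  have h3 := Real.log_two_gt_d9
  have h4 : 0 ≤ Real.log x := Real.log_nonneg h1
  have h0 : (0 : ℝ) ≤ l := Nat.cast_nonneg l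
  have h5 : (l : ℝ) ≤ 2 * Real.log x := by nlinarith
  have h6 : ‖id x‖ = x := by
    rw [id, Real.norm_of_nonneg (by linarith)]
  rw [Real.norm_of_nonneg (by positivity), h6] at hx
  nlinarith

/-- The choice of the constant. -/
theorem NUM_kappa {a c1 : ℝ} (ha : 0 < a) (hc : 0 < c1) : ∃ κ : ℝ, 0 < κ ∧ κ ≤ 1 ∧
    κ * (Real.log (1 / κ) + 2) + κ * a ≤ c1 / 4 := by
  have h1 : 0 < c1 / (4 * (4 + a)) := by positivity
  set ε := min 1 (c1 / (4 * (4 + a))) with hε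
  have hε0 : 0 < ε := lt_min one_pos h1
  have hε1 : ε ≤ 1 := min_le_left _ _
  have hε2 : ε ≤ c1 / (4 * (4 + a)) := min_le_right _ _
  have hε3 : ε * (4 + a) ≤ c1 / 4 := by
    rw [le_div_iff₀ (by positivity)] at hε2
    linarith
  refine ⟨ε ^ 2, by positivity, pow_le_one₀ hε0.le hε1, ?_⟩
  have h2 : Real.log (1 / ε ^ 2) = 2 * Real.log (1 / ε) := by
    rw [one_div, one_div, Real.log_inv, Real.log_inv, Real.log_pow]
    push_cast
    ring
  have h3 : Real.log (1 / ε) ≤ 1 / ε := by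
    have := Real.log_le_sub_one_of_pos (show 0 < 1 / ε by positivity)
    linarith
  have h4 : ε ^ 2 * Real.log (1 / ε) ≤ ε := by
    calc ε ^ 2 * Real.log (1 / ε) ≤ ε ^ 2 * (1 / ε) := mul_le_mul_of_nonneg_left h3 (by positivity)
      _ = ε := by
        field_simp
  have h5 : ε ^ 2 ≤ ε := by nlinarith
  rw [h2]
  nlinarith [mul_le_mul_of_nonneg_right h5 ha.le]

/-- The constant of the count. -/
theorem NUM_K_le {x : ℝ} (hx : 4 ≤ x) {l : ℕ} (h1 : (2 : ℝ) ^ l ≤ x) (h2 : (l : ℝ) ^ 2 ≤ x) :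
    (2 : ℝ) ^ (l * l + 4) * 4 ^ (2 ^ l) ≤ Real.exp (4 * x) := by
  have he : (2 : ℝ) ≤ Real.exp 1 := by
    have := Real.add_one_le_exp (1 : ℝ)
    linarith
  have e1 : (2 : ℝ) ^ (l * l + 4) * 4 ^ (2 ^ l) = 2 ^ (l * l + 4 + 2 * 2 ^ l) := by
    rw [pow_add 2 (l * l + 4), pow_mul 2 2]
    norm_num
  rw [e1]
  calc (2 : ℝ) ^ (l * l + 4 + 2 * 2 ^ l) ≤ (Real.exp 1) ^ (l * l + 4 + 2 * 2 ^ l) :=
        pow_le_pow_left₀ (by norm_num) he _
    _ = Real.exp ((l * l + 4 + 2 * 2 ^ l : ℕ) : ℝ) := by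
        rw [← Real.exp_nat_mul, mul_one]
    _ ≤ _ := by
        apply Real.exp_le_exp.2
        push_cast
        nlinarith

/-- The bound for the number of low frequencies. -/
theorem NUM_L {κ : ℝ} (h0 : 0 < κ) (h1 : κ ≤ 1) {n l : ℕ} (hl : 1 ≤ l) :
    2 * ((1 / (κ / l ^ 2)) ^ ⌊κ * n / l ^ 2⌋₊ * (1 + κ / l ^ 2) ^ n) ≤
      2 * Real.exp (n * (κ * (Real.log (1 / κ) + 2)) / l) := by
  refine (L_le h0 h1 hl).trans ?_
  have hl' : (1 : ℝ) ≤ l := by exact_mod_cast hl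
  have hlog : 0 ≤ Real.log (1 / κ) := Real.log_nonneg (by
    rw [le_div_iff₀ h0]
    linarith)
  refine mul_le_mul_of_nonneg_left (Real.exp_le_exp.2 ?_) (by norm_num)
  have e1 : n * (κ / (l : ℝ) ^ 2) * (Real.log (1 / κ) + 2 * l) =
      n * κ * (Real.log (1 / κ) + 2 * l) / (l : ℝ) ^ 2 := by ring
  have e2 : n * (κ * (Real.log (1 / κ) + 2)) / (l : ℝ) =
      n * κ * ((Real.log (1 / κ) + 2) * l) / (l : ℝ) ^ 2 := by
    have : (l : ℝ) ≠ 0 := by linarith
    field_simp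
  rw [e1, e2]
  refine div_le_div_of_nonneg_right ?_ (by positivity)
  refine mul_le_mul_of_nonneg_left ?_ (by positivity)
  nlinarith

/-- The estimates. -/
theorem NUM_core {n l : ℕ} {x A c0 c1 G E b θ β L T g : ℝ} (hA1 : 1 ≤ A) (hθ0 : 0 < θ)
    (hc10 : 0 < c1) (hc1G : c1 ≤ G) (hc1c : c1 ≤ c0) (hE0 : 0 ≤ E) (hb0 : 0 < b)
    (hκ : E + b ≤ c1 / 4) (f1 : 8 * A * (n : ℝ) ^ 3 ≤ Real.exp (c1 / 2 * n))
    (hlx1 : (l : ℝ) ^ 2 ≤ x) (hlx2 : (l : ℝ) ^ 2 ≤ b / 8 * x)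
    (f3 : 2 * (A / θ) * x ^ 2 ≤ Real.exp (2 * x)) (g2 : 8 * A ^ 2 ≤ Real.exp (2 * x))
    (hx4 : 4 ≤ x) (g3 : 8 ≤ G * x) (hx2 : x ^ 2 = n) (hl' : 1 ≤ (l : ℝ))
    (hlnR : (4 : ℝ) ^ l ≤ n) (h2l : (2 : ℝ) ^ l ≤ x) (hβ0 : 0 < β)
    (hβ : β ≤ A * Real.exp (-G * n)) (hL1 : 1 ≤ L) (hL : L ≤ 2 * Real.exp (n * E / l))
    (hT0 : 0 < T) (hT1 : T ≤ 1) (hTle : T ≤ θ⁻¹ * Real.exp (-(b / l ^ 2) * n))
    (hTge : Real.exp (-(b / l ^ 2) * n) ≤ T) (hg : g ≤ 2 * Real.exp (-c0 * n)) :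
    β * L ≤ 1 / 4 ∧ (n + 2) * β * L ≤ 1 ∧ n * β * T + 2 * β ^ 2 * L ≤ (n + 2) * β * L ∧
      (∀ i, 1 ≤ i → i ≤ l → max g ((n + 2) * β * L) * ((n + 2) * β * L) ^ i ≤
        (n * β * T + 2 * β ^ 2 * L) ^ i) ∧
      Real.exp (G * n + b / 4 / l ^ 2 * n) * (n * β * T + 2 * β ^ 2 * L) *
        (2 ^ (l * l + 4) * 4 ^ (2 ^ l)) ≤ 1 := by
  have hA0 : 0 < A := by linarith
  have hG : 0 < G := by linarith
  have hL0 : 0 < L := by linarith
  have hlp : 0 < (l : ℝ) ^ 2 := by positivity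
  have hn16 : (16 : ℝ) ≤ n := by
    have g := pow_le_pow_left₀ (by norm_num) hx4 2
    rw [hx2] at g
    linarith
  have hn0 : (0 : ℝ) ≤ n := by linarith
  have hx0 : 0 ≤ x := by linarith
  have hn1 : (1 : ℝ) ≤ n := by linarith
  have hLn : L ≤ 2 * Real.exp (n * E) := by
    refine hL.trans ?_
    refine mul_le_mul_of_nonneg_left (Real.exp_le_exp.2 ?_) (by norm_num)
    exact div_le_self (by positivity) hl'
  obtain ⟨q, hqdef⟩ : ∃ q, q = (n + 2) * β * L := ⟨_, rfl⟩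
  obtain ⟨μ, hμdef⟩ : ∃ μ, μ = n * β * T + 2 * β ^ 2 * L := ⟨_, rfl⟩
  rw [← hqdef, ← hμdef]
  have hμ0 : 0 < μ := by
    rw [hμdef]
    positivity
  have hq0 : 0 < q := by
    rw [hqdef]
    positivity
  -- the basic product
  have hEc : E ≤ c1 / 4 := by linarith
  have hbc : b ≤ c1 / 4 := by linarith
  have hβL : β * L ≤ 2 * A * Real.exp (-(3 / 4 * c1) * n) := by
    calc β * L ≤ (A * Real.exp (-G * n)) * (2 * Real.exp (n * E)) :=
          mul_le_mul hβ hLn hL0.le (by positivity)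
      _ = 2 * A * Real.exp (-G * n + n * E) := by
          rw [Real.exp_add]
          ring
      _ ≤ _ := by
          refine mul_le_mul_of_nonneg_left (Real.exp_le_exp.2 ?_) (by positivity)
          have g := mul_nonneg (show 0 ≤ G - E - 3 / 4 * c1 by linarith) hn0
          linarith
  have key1 : 8 * A * (n : ℝ) ^ 3 * Real.exp (-(c1 / 2) * n) ≤ 1 := by
    calc 8 * A * (n : ℝ) ^ 3 * Real.exp (-(c1 / 2) * n)
        ≤ Real.exp (c1 / 2 * n) * Real.exp (-(c1 / 2) * n) :=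
          mul_le_mul_of_nonneg_right f1 (Real.exp_pos _).le
      _ = 1 := by
          rw [← Real.exp_add, show c1 / 2 * n + -(c1 / 2) * n = (0 : ℝ) by ring, Real.exp_zero]
  have key2 : Real.exp (-(3 / 4 * c1) * n) ≤ Real.exp (-(c1 / 2) * n) := by
    apply Real.exp_le_exp.2
    have g := mul_nonneg hc10.le hn0
    linarith
  have hn3 : (n : ℝ) ≤ (n : ℝ) ^ 3 := le_self_pow₀ hn1 (by norm_num)
  have key3 : (n + 2) * (2 * A * Real.exp (-(3 / 4 * c1) * n)) ≤ 1 := by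
    refine le_trans ?_ key1
    calc (n + 2) * (2 * A * Real.exp (-(3 / 4 * c1) * n))
        ≤ (4 * n) * (2 * A * Real.exp (-(c1 / 2) * n)) := by
          refine mul_le_mul (by linarith) ?_ (by positivity) (by positivity)
          exact mul_le_mul_of_nonneg_left key2 (by positivity)
      _ = 8 * A * Real.exp (-(c1 / 2) * n) * n := by ring
      _ ≤ 8 * A * Real.exp (-(c1 / 2) * n) * (n : ℝ) ^ 3 :=
          mul_le_mul_of_nonneg_left hn3 (by positivity)
      _ = _ := by ring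
  have hq1' : (n + 2) * (β * L) ≤ 1 :=
    (mul_le_mul_of_nonneg_left hβL (by positivity)).trans key3
  have hβL4 : β * L ≤ 1 / 4 := by
    have g1 : 0 < β * L := mul_pos hβ0 hL0
    have g := mul_le_mul_of_nonneg_right (show (4 : ℝ) ≤ n + 2 by linarith) g1.le
    linarith
  have hq1 : q ≤ 1 := by
    rw [hqdef, mul_assoc]
    exact hq1'
  have hβ1 : β ≤ 1 := by
    have g := le_mul_of_one_le_right hβ0.le hL1
    linarith
  have hμq : μ ≤ q := by
    rw [hμdef, hqdef]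
    have g1 : n * β * T ≤ n * β * L := mul_le_mul_of_nonneg_left (hT1.trans hL1) (by positivity)
    have g2 : 2 * β ^ 2 * L ≤ 2 * β * L := by
      refine mul_le_mul_of_nonneg_right ?_ hL0.le
      have g := mul_le_mul_of_nonneg_left hβ1 hβ0.le
      rw [pow_two]
      linarith
    linarith
  refine ⟨hβL4, hq1, hμq, ?_, ?_⟩
  · -- the gap
    have hR : 1 ≤ 3 * L / T := by
      rw [le_div_iff₀ hT0]
      linarith
    have hqR : q ≤ 3 * L / T * μ := by
      have g1 : 3 * L / T * (n * β * T) = 3 * n * (β * L) := by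
        field_simp
      have g2 : q ≤ 3 * n * (β * L) := by
        rw [hqdef, mul_assoc]
        exact mul_le_mul_of_nonneg_right (by linarith) (mul_pos hβ0 hL0).le
      refine g2.trans ?_
      rw [← g1]
      refine mul_le_mul_of_nonneg_left ?_ (by positivity)
      rw [hμdef]
      have : 0 < 2 * β ^ 2 * L := by positivity
      linarith
    have hRl : (3 * L / T) ^ l ≤ (n : ℝ) ^ 2 * Real.exp (c1 / 4 * n) := by
      have g1 : 1 / T ≤ Real.exp (b / l ^ 2 * n) := by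
        rw [div_le_iff₀ hT0]
        calc (1 : ℝ) = Real.exp (b / l ^ 2 * n) * Real.exp (-(b / l ^ 2) * n) := by
              rw [← Real.exp_add, show b / (l : ℝ) ^ 2 * n + -(b / l ^ 2) * n = (0 : ℝ) by ring,
                Real.exp_zero]
          _ ≤ _ := mul_le_mul_of_nonneg_left hTge (Real.exp_pos _).le
      have g2 : 3 * L / T ≤ 6 * Real.exp (n * E / l + b / l * n) := by
        calc 3 * L / T = 3 * L * (1 / T) := by ring
          _ ≤ 3 * (2 * Real.exp (n * E / l)) * Real.exp (b / l ^ 2 * n) := by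
              refine mul_le_mul ?_ g1 (by positivity) (by positivity)
              exact mul_le_mul_of_nonneg_left hL (by norm_num)
          _ = 6 * Real.exp (n * E / l + b / l ^ 2 * n) := by
              rw [Real.exp_add]
              ring
          _ ≤ _ := by
              refine mul_le_mul_of_nonneg_left (Real.exp_le_exp.2 ?_) (by norm_num)
              have : b / (l : ℝ) ^ 2 ≤ b / l := by
                apply div_le_div_of_nonneg_left hb0.le (by linarith)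
                exact le_self_pow₀ hl' (by norm_num)
              have g := mul_le_mul_of_nonneg_right this hn0
              linarith
      calc (3 * L / T) ^ l ≤ (6 * Real.exp (n * E / l + b / l * n)) ^ l :=
            pow_le_pow_left₀ (by positivity) g2 l
        _ = 6 ^ l * Real.exp (n * E + b * n) := by
            rw [mul_pow, ← Real.exp_nat_mul]
            congr 2
            have : (l : ℝ) ≠ 0 := by linarith
            field_simp
        _ ≤ (n : ℝ) ^ 2 * Real.exp (c1 / 4 * n) := by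
            refine mul_le_mul ?_ (Real.exp_le_exp.2 ?_) (Real.exp_pos _).le (by positivity)
            · calc (6 : ℝ) ^ l ≤ 16 ^ l := pow_le_pow_left₀ (by norm_num) (by norm_num) l
                _ = (4 ^ l) ^ 2 := by
                    rw [← pow_mul, mul_comm, pow_mul]
                    norm_num
                _ ≤ (n : ℝ) ^ 2 := pow_le_pow_left₀ (by positivity) hlnR 2
            · have g := mul_le_mul_of_nonneg_right hκ hn0
              linarith
    have hexp : Real.exp (-(3 / 4 * c1) * n) * Real.exp (c1 / 4 * n) =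
        Real.exp (-(c1 / 2) * n) := by
      rw [← Real.exp_add]
      congr 1
      ring
    have hmax : max (g) q * (3 * L / T) ^ l ≤ 1 := by
      have g1 : max (g) q ≤ 8 * A * n * Real.exp (-(3 / 4 * c1) * n) := by
        apply max_le
        · refine hg.trans ?_
          have g2 : Real.exp (-c0 * n) ≤ Real.exp (-(3 / 4 * c1) * n) := by
            apply Real.exp_le_exp.2
            have g := mul_nonneg (show 0 ≤ c0 - 3 / 4 * c1 by linarith) hn0
            linarith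
          have g3 : 1 ≤ A * n := one_le_mul_of_one_le_of_one_le hA1 hn1
          have g4 : 0 < Real.exp (-(3 / 4 * c1) * n) := Real.exp_pos _
          have g5 := mul_le_mul_of_nonneg_right g3 g4.le
          linarith
        · rw [hqdef, mul_assoc]
          calc (n + 2) * (β * L) ≤ (4 * n) * (2 * A * Real.exp (-(3 / 4 * c1) * n)) :=
                mul_le_mul (by linarith) hβL (by positivity) (by positivity)
            _ = _ := by ring
      calc max (g) q * (3 * L / T) ^ l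
          ≤ (8 * A * n * Real.exp (-(3 / 4 * c1) * n)) *
            ((n : ℝ) ^ 2 * Real.exp (c1 / 4 * n)) :=
            mul_le_mul g1 hRl (by positivity) (by positivity)
        _ = 8 * A * (n : ℝ) ^ 3 * (Real.exp (-(3 / 4 * c1) * n) * Real.exp (c1 / 4 * n)) := by
            ring
        _ ≤ 1 := by
            rw [hexp]
            exact key1
    intro i _ hil
    have hmax0 : 0 ≤ max (g) q := hq0.le.trans (le_max_right _ _)
    calc max (g) q * q ^ i ≤ max (g) q * ((3 * L / T) ^ l * μ ^ i) := by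
          refine mul_le_mul_of_nonneg_left ?_ hmax0
          calc q ^ i ≤ (3 * L / T * μ) ^ i := pow_le_pow_left₀ hq0.le hqR i
            _ = (3 * L / T) ^ i * μ ^ i := mul_pow _ _ _
            _ ≤ _ := mul_le_mul_of_nonneg_right (pow_le_pow_right₀ hR hil) (by positivity)
      _ = (max (g) q * (3 * L / T) ^ l) * μ ^ i := by ring
      _ ≤ 1 * μ ^ i := mul_le_mul_of_nonneg_right hmax (by positivity)
      _ = μ ^ i := one_mul _
  · -- the value
    have hK := NUM_K_le hx4 h2l hlx1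
    obtain ⟨K, hKdef⟩ : ∃ K, K = (2 : ℝ) ^ (l * l + 4) * 4 ^ (2 ^ l) := ⟨_, rfl⟩
    rw [← hKdef] at hK ⊢
    have hK0 : 0 < K := by
      rw [hKdef]
      positivity
    have hGn : Real.exp (G * n) * β ≤ A := by
      calc Real.exp (G * n) * β ≤ Real.exp (G * n) * (A * Real.exp (-G * n)) :=
            mul_le_mul_of_nonneg_left hβ (Real.exp_pos _).le
        _ = A * Real.exp (G * n + -G * n) := by
            rw [Real.exp_add]
            ring
        _ = A := by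
            rw [show G * n + -G * n = (0 : ℝ) by ring, Real.exp_zero, mul_one]
    have t1 : Real.exp (G * n + b / 4 / l ^ 2 * n) * (n * β * T) * K ≤ 1 / 2 := by
      have g1 : Real.exp (b / 4 / l ^ 2 * n) * T ≤ θ⁻¹ * Real.exp (-(6 * x)) := by
        calc Real.exp (b / 4 / l ^ 2 * n) * T
            ≤ Real.exp (b / 4 / l ^ 2 * n) * (θ⁻¹ * Real.exp (-(b / l ^ 2) * n)) :=
              mul_le_mul_of_nonneg_left hTle (Real.exp_pos _).le
          _ = θ⁻¹ * Real.exp (b / 4 / l ^ 2 * n + -(b / l ^ 2) * n) := by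
              rw [Real.exp_add]
              ring
          _ ≤ _ := by
              refine mul_le_mul_of_nonneg_left (Real.exp_le_exp.2 ?_) (by positivity)
              have g2 : b / 4 / (l : ℝ) ^ 2 * n + -(b / l ^ 2) * n = -(3 / 4 * b * n / l ^ 2) := by
                ring
              rw [g2]
              apply neg_le_neg
              rw [le_div_iff₀ hlp, ← hx2]
              have g := mul_le_mul_of_nonneg_left hlx2 (show 0 ≤ 6 * x by linarith)
              linarith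
      calc Real.exp (G * n + b / 4 / l ^ 2 * n) * (n * β * T) * K
          = (Real.exp (G * n) * β) * n * (Real.exp (b / 4 / l ^ 2 * n) * T) * K := by
            rw [Real.exp_add]
            ring
        _ ≤ A * n * (θ⁻¹ * Real.exp (-(6 * x))) * Real.exp (4 * x) := by
            refine mul_le_mul ?_ hK hK0.le (by positivity)
            refine mul_le_mul ?_ g1 (by positivity) (by positivity)
            exact mul_le_mul_of_nonneg_right hGn (by positivity)
        _ = (2 * (A / θ) * x ^ 2) * (Real.exp (-(6 * x)) * Real.exp (4 * x)) / 2 := by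
            rw [hx2]
            ring
        _ ≤ Real.exp (2 * x) * (Real.exp (-(6 * x)) * Real.exp (4 * x)) / 2 := by
            refine div_le_div_of_nonneg_right ?_ (by norm_num)
            exact mul_le_mul_of_nonneg_right f3 (by positivity)
        _ = 1 / 2 := by
            rw [← Real.exp_add, ← Real.exp_add,
              show 2 * x + (-(6 * x) + 4 * x) = 0 by ring, Real.exp_zero]
    have t2 : Real.exp (G * n + b / 4 / l ^ 2 * n) * (2 * β ^ 2 * L) * K ≤ 1 / 2 := by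
      have g1 : Real.exp (b / 4 / l ^ 2 * n) ≤ Real.exp (b * n) := by
        apply Real.exp_le_exp.2
        have : b / 4 / (l : ℝ) ^ 2 ≤ b := by
          rw [div_div, div_le_iff₀ (by positivity)]
          have g := mul_le_mul_of_nonneg_left (one_le_pow₀ hl' : 1 ≤ (l : ℝ) ^ 2) hb0.le
          linarith
        exact mul_le_mul_of_nonneg_right this (by positivity)
      calc Real.exp (G * n + b / 4 / l ^ 2 * n) * (2 * β ^ 2 * L) * K
          = 2 * (Real.exp (G * n) * β) * β * Real.exp (b / 4 / l ^ 2 * n) * L * K := by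
            rw [Real.exp_add]
            ring
        _ ≤ 2 * A * (A * Real.exp (-G * n)) * Real.exp (b * n) * (2 * Real.exp (n * E)) *
            Real.exp (4 * x) := by
            refine mul_le_mul ?_ hK hK0.le (by positivity)
            refine mul_le_mul ?_ hLn hL0.le (by positivity)
            refine mul_le_mul ?_ g1 (by positivity) (by positivity)
            refine mul_le_mul ?_ hβ hβ0.le (by positivity)
            exact mul_le_mul_of_nonneg_left hGn (by norm_num)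
        _ = 8 * A ^ 2 * Real.exp (-G * n + b * n + n * E + 4 * x) / 2 := by
            rw [Real.exp_add, Real.exp_add, Real.exp_add]
            ring
        _ ≤ Real.exp (2 * x) * Real.exp (-G * n + b * n + n * E + 4 * x) / 2 := by
            refine div_le_div_of_nonneg_right ?_ (by norm_num)
            exact mul_le_mul_of_nonneg_right g2 (by positivity)
        _ = Real.exp (2 * x + (-G * n + b * n + n * E + 4 * x)) / 2 := by
            rw [← Real.exp_add]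
        _ ≤ Real.exp 0 / 2 := by
            refine div_le_div_of_nonneg_right (Real.exp_le_exp.2 ?_) (by norm_num)
            have g4 : b + E ≤ G / 4 := by linarith
            have g5 : (b + E) * n ≤ G / 4 * n := mul_le_mul_of_nonneg_right g4 (by positivity)
            have g6 : 8 * x ≤ G * n := by
              rw [← hx2]
              have g := mul_le_mul_of_nonneg_right g3 hx0
              linarith
            linarith
        _ = 1 / 2 := by rw [Real.exp_zero]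
    rw [hμdef]
    calc Real.exp (G * n + b / 4 / l ^ 2 * n) * (n * β * T + 2 * β ^ 2 * L) * K
        = Real.exp (G * n + b / 4 / l ^ 2 * n) * (n * β * T) * K +
          Real.exp (G * n + b / 4 / l ^ 2 * n) * (2 * β ^ 2 * L) * K := by ring
      _ ≤ 1 := by linarith

/-- The choice of the parameters. -/
theorem params {δ : ℝ} (h0 : 0 < δ) (h1 : δ < 1 / 2) : ∃ c : ℝ, 0 < c ∧ ∃ n0 : ℕ, ∀ n ≥ n0,
    ∀ l : ℕ, 1 ≤ l → 4 ^ l ≤ n → ∃ (k : ℕ) (s : ℝ), 0 < s ∧ s ≤ 1 ∧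
      let d := ⌈δ * n⌉₊
      let β := bet δ n d
      let L := 2 * ((1 / s) ^ k * (1 + s) ^ n)
      let q := (n + 2) * β * L
      let μ := n * β * ((1 - δ) ^ 2 + δ ^ 2) ^ k + 2 * β ^ 2 * L
      β * L ≤ 1 / 4 ∧ q ≤ 1 ∧ μ ≤ q ∧
      (∀ i, 1 ≤ i → i ≤ l → max (gam δ n d) q * q ^ i ≤ μ ^ i) ∧
      2 ^ (l * l + 4) * 4 ^ (2 ^ l) * μ ≤ 1 ∧
      (2 : ℝ) ^ (n * (1 - Real.binEntropy δ / Real.log 2 + c / l ^ 2)) ≤
        μ⁻¹ / (2 ^ (l * l + 4) * 4 ^ (2 ^ l)) := by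
  have hG := entropy_gap h0 h1
  obtain ⟨c0, hc0, hgam⟩ := exists_gam_le h0 h1
  have hA1 : 1 ≤ (1 - δ) / δ := by
    rw [le_div_iff₀ h0]
    linarith
  have hA0 : 0 < (1 - δ) / δ := by linarith
  obtain ⟨θ, hθ⟩ : ∃ θ, θ = (1 - δ) ^ 2 + δ ^ 2 := ⟨_, rfl⟩
  have hθ0 : 0 < θ := by
    rw [hθ]
    positivity
  have hθ1 : θ < 1 := by
    rw [hθ]
    nlinarith
  rw [← hθ]
  have hlθ : 0 < Real.log (1 / θ) := Real.log_pos (by
    rw [lt_div_iff₀ hθ0]
    linarith)
  obtain ⟨c1, hc10, hc1G, hc1c⟩ : ∃ c1 : ℝ, 0 < c1 ∧ c1 ≤ Real.log 2 - Real.binEntropy δ ∧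
      c1 ≤ c0 := ⟨min c0 (Real.log 2 - Real.binEntropy δ), lt_min hc0 hG, min_le_right _ _,
        min_le_left _ _⟩
  obtain ⟨κ, hκ0, hκ1, hκ⟩ := NUM_kappa hlθ hc10
  have hE0 : 0 ≤ κ * (Real.log (1 / κ) + 2) := by
    have hlog : 0 ≤ Real.log (1 / κ) := Real.log_nonneg (by
      rw [le_div_iff₀ hκ0]
      linarith)
    positivity
  have hb0 : 0 < κ * Real.log (1 / θ) := by positivity
  have hl2 : 0 < Real.log 2 := Real.log_pos (by norm_num)
  have hε : 0 < min 1 (κ * Real.log (1 / θ) / 8) := lt_min one_pos (by positivity)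
  have ev1 := NUM_ev_pow 3 (show 0 < c1 / 2 by positivity)
    (show 0 < 8 * ((1 - δ) / δ) by positivity)
  have ev2 := NUM_ev_log hε
  have ev3 := NUM_ev_pow 2 (show (0 : ℝ) < 2 by norm_num)
    (show 0 < 2 * ((1 - δ) / δ / θ) by positivity)
  have ev4 := NUM_ev_pow 0 (show (0 : ℝ) < 2 by norm_num)
    (show 0 < 8 * ((1 - δ) / δ) ^ 2 by positivity)
  have ev5 := Filter.eventually_ge_atTop (max 4 (8 / (Real.log 2 - Real.binEntropy δ)))
  have hnat : Filter.Tendsto (fun n : ℕ => (n : ℝ)) Filter.atTop Filter.atTop :=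
    tendsto_natCast_atTop_atTop
  have hsq : Filter.Tendsto (fun n : ℕ => √(n : ℝ)) Filter.atTop Filter.atTop :=
    Real.tendsto_sqrt_atTop.comp hnat
  have ev := (hnat.eventually ev1).and ((hsq.eventually ev2).and ((hsq.eventually ev3).and
    ((hsq.eventually ev4).and (hsq.eventually ev5))))
  obtain ⟨n0, hn0⟩ := Filter.eventually_atTop.1 ev
  refine ⟨κ * Real.log (1 / θ) / (4 * Real.log 2), by positivity, max n0 1,
    fun n hn l hl hln => ?_⟩
  obtain ⟨f1, f2, f3, f4, f5⟩ := hn0 n ((le_max_left _ _).trans hn)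
  have hn1 : (1 : ℝ) ≤ n := by exact_mod_cast (le_max_right _ _).trans hn
  have hl' : (1 : ℝ) ≤ l := by exact_mod_cast hl
  have hlp : 0 < (l : ℝ) ^ 2 := by positivity
  have hx2 : √(n : ℝ) ^ 2 = n := Real.sq_sqrt (by linarith)
  have hx4 : 4 ≤ √(n : ℝ) := (le_max_left _ _).trans f5
  have hxG : 8 / (Real.log 2 - Real.binEntropy δ) ≤ √(n : ℝ) := (le_max_right _ _).trans f5
  have g3 : 8 ≤ (Real.log 2 - Real.binEntropy δ) * √(n : ℝ) := by
    rw [div_le_iff₀ hG] at hxG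
    linarith
  have hlnR : (4 : ℝ) ^ l ≤ n := by exact_mod_cast hln
  have h2l : (2 : ℝ) ^ l ≤ √(n : ℝ) := by
    have h3 : ((2 : ℝ) ^ l) ^ 2 ≤ √(n : ℝ) ^ 2 := by
      rw [hx2, ← pow_mul, mul_comm, pow_mul]
      norm_num
      exact hlnR
    exact (pow_le_pow_iff_left₀ (by positivity) (by linarith) (by norm_num)).1 h3
  have hlx := f2 l h2l
  have hlx1 : (l : ℝ) ^ 2 ≤ √(n : ℝ) := by
    refine hlx.trans ?_
    have h3 : min 1 (κ * Real.log (1 / θ) / 8) ≤ 1 := min_le_left _ _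
    have h4 : 0 ≤ √(n : ℝ) := by linarith
    calc min 1 (κ * Real.log (1 / θ) / 8) * √(n : ℝ) ≤ 1 * √(n : ℝ) :=
          mul_le_mul_of_nonneg_right h3 h4
      _ = _ := one_mul _
  have hlx2 : (l : ℝ) ^ 2 ≤ κ * Real.log (1 / θ) / 8 * √(n : ℝ) := by
    refine hlx.trans ?_
    exact mul_le_mul_of_nonneg_right (min_le_right _ _) (by linarith)
  have hs0 : 0 < κ / (l : ℝ) ^ 2 := by positivity
  have hl1 : (1 : ℝ) ≤ (l : ℝ) ^ 2 := one_le_pow₀ hl'
  have hs1 : κ / (l : ℝ) ^ 2 ≤ 1 := by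
    rw [div_le_one hlp]
    linarith
  have hβ := bet_le h0 h1 n
  have hβ0 : 0 < bet δ n ⌈δ * n⌉₊ := by
    unfold bet
    have h2 : 0 < 1 / (2 * (1 - δ)) := by
      apply div_pos one_pos
      linarith
    positivity
  have hL := NUM_L hκ0 hκ1 (n := n) hl
  have hL1 : 1 ≤ 2 * ((1 / (κ / (l : ℝ) ^ 2)) ^ ⌊κ * n / l ^ 2⌋₊ * (1 + κ / (l : ℝ) ^ 2) ^ n) := by
    have h2 : 1 ≤ (1 / (κ / (l : ℝ) ^ 2)) ^ ⌊κ * n / l ^ 2⌋₊ := by
      apply one_le_pow₀
      rw [le_div_iff₀ hs0]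
      linarith
    have h3 : 1 ≤ (1 + κ / (l : ℝ) ^ 2) ^ n := by
      apply one_le_pow₀
      linarith
    have h4 := one_le_mul_of_one_le_of_one_le h2 h3
    linarith
  have hT0 : 0 < θ ^ ⌊κ * n / (l : ℝ) ^ 2⌋₊ := pow_pos hθ0 _
  have hT1 : θ ^ ⌊κ * n / (l : ℝ) ^ 2⌋₊ ≤ 1 := pow_le_one₀ hθ0.le hθ1.le
  have hTle := theta_pow_le (n := n) hκ0 hθ0 hθ1 hl
  rw [mul_comm (Real.log (1 / θ)) κ] at hTle
  have hTge := theta_pow_ge (n := n) hκ0 hθ0 hθ1 hl
  rw [mul_comm (Real.log (1 / θ)) κ] at hTge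
  rw [pow_zero, mul_one] at f4
  obtain ⟨r1, r2, r3, r4, r5⟩ := NUM_core hA1 hθ0 hc10 hc1G hc1c hE0 hb0 hκ f1 hlx1 hlx2 f3 f4
    hx4 g3 hx2 hl' hlnR h2l hβ0 hβ hL1 hL hT0 hT1 hTle hTge (hgam n)
  refine ⟨⌊κ * n / l ^ 2⌋₊, κ / (l : ℝ) ^ 2, hs0, hs1, r1, r2, r3, r4, ?_⟩
  have eN : (2 : ℝ) ^ (n * (1 - Real.binEntropy δ / Real.log 2 +
      κ * Real.log (1 / θ) / (4 * Real.log 2) / (l : ℝ) ^ 2)) =
      Real.exp ((Real.log 2 - Real.binEntropy δ) * n +
        κ * Real.log (1 / θ) / 4 / l ^ 2 * n) := by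
    rw [Real.rpow_def_of_pos (by norm_num)]
    congr 1
    field_simp
  obtain ⟨μ, hμdef⟩ : ∃ μ, μ = n * bet δ n ⌈δ * n⌉₊ * θ ^ ⌊κ * n / (l : ℝ) ^ 2⌋₊ +
      2 * bet δ n ⌈δ * n⌉₊ ^ 2 *
      (2 * ((1 / (κ / (l : ℝ) ^ 2)) ^ ⌊κ * n / l ^ 2⌋₊ * (1 + κ / (l : ℝ) ^ 2) ^ n)) := ⟨_, rfl⟩
  have hμ0 : 0 < μ := by
    rw [hμdef]
    have h2 := lt_of_lt_of_le one_pos hL1
    have h3 : 0 < (n : ℝ) := by linarith
    exact add_pos (mul_pos (mul_pos h3 hβ0) hT0) (mul_pos (by positivity) h2)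
  show 2 ^ (l * l + 4) * 4 ^ (2 ^ l) * (n * bet δ n ⌈δ * n⌉₊ * θ ^ ⌊κ * n / (l : ℝ) ^ 2⌋₊ +
      2 * bet δ n ⌈δ * n⌉₊ ^ 2 *
      (2 * ((1 / (κ / (l : ℝ) ^ 2)) ^ ⌊κ * n / l ^ 2⌋₊ * (1 + κ / (l : ℝ) ^ 2) ^ n))) ≤ 1 ∧
    (2 : ℝ) ^ (n * (1 - Real.binEntropy δ / Real.log 2 +
      κ * Real.log (1 / θ) / (4 * Real.log 2) / (l : ℝ) ^ 2)) ≤
      (n * bet δ n ⌈δ * n⌉₊ * θ ^ ⌊κ * n / (l : ℝ) ^ 2⌋₊ +
      2 * bet δ n ⌈δ * n⌉₊ ^ 2 *
      (2 * ((1 / (κ / (l : ℝ) ^ 2)) ^ ⌊κ * n / l ^ 2⌋₊ * (1 + κ / (l : ℝ) ^ 2) ^ n)))⁻¹ /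
      (2 ^ (l * l + 4) * 4 ^ (2 ^ l))
  rw [eN]
  rw [← hμdef] at r5 ⊢
  obtain ⟨K, hKdef⟩ : ∃ K, K = (2 : ℝ) ^ (l * l + 4) * 4 ^ (2 ^ l) := ⟨_, rfl⟩
  rw [← hKdef] at r5 ⊢
  have hK0 : 0 < K := by
    rw [hKdef]
    positivity
  have hN1 : 1 ≤ Real.exp ((Real.log 2 - Real.binEntropy δ) * n +
      κ * Real.log (1 / θ) / 4 / l ^ 2 * n) := by
    apply Real.one_le_exp
    positivity
  constructor
  · refine le_trans ?_ r5
    have g1 : 0 < K * μ := mul_pos hK0 hμ0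
    have g := mul_le_mul_of_nonneg_right hN1 g1.le
    linarith
  · rw [le_div_iff₀ hK0, inv_eq_one_div, le_div_iff₀ hμ0]
    linarith

end Pool.Agent.Lib.MP_0430e4_lc.Lgv
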