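import Pool.Agent.Lib.MP_0430e4_lc.Lgv.BAS

/-!
# ORB: one orbit

PROOF. Take `e` from `exists_compl`. Tuples `Y` correspond to pairs `(X', Z)`, `X' i = cmb Y (b i)`,
`Z k = cmb Y (e k)`; coefficient vectors `v` correspond to `(a, s)`, `v = ∑ a i • b i + ∑ s k • e k`, and
`cmb Y v = cmb X' a + cmb Z s`. So with `X' = Xb`: `gg φ Y = gg φ Xb * gc φ Xb Z`. Write
`a s = ∑ C s i • b i + ∑ B s k • e k`: the span of `b` and `a` has dimension `u + rank B`. The sum over `C`
gives `∏_s ∏_i (1 + chw (Ξ s) (Xb i))`, the sum over `Z` gives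
`2^(n j) Gh φ Xb (fun k => ∑ s, B s k • Ξ s)`. (chw is multiplicative in both arguments: Lin.chw_add etc.)
-/

set_option autoImplicit false

namespace Pool.Agent.Lib.MP_0430e4_lc.Lgv

open Finset
open Pool.Agent.Lib.MP_0430e4_lc.Lin (W wt chw sg)

variable {n : ℕ}

theorem orb_cmb_add {ι : Type} [Fintype ι] (Y : ι → W n) (a b : ι → ZMod 2) :
    cmb Y (a + b) = cmb Y a + cmb Y b := by
  unfold cmb
  rw [← sum_add_distrib]
  exact sum_congr rfl fun k _ => by rw [Pi.add_apply, add_smul]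

theorem orb_cmb_smul {ι : Type} [Fintype ι] (Y : ι → W n) (c : ZMod 2) (a : ι → ZMod 2) :
    cmb Y (c • a) = c • cmb Y a := by
  unfold cmb
  rw [smul_sum]
  exact sum_congr rfl fun k _ => by rw [Pi.smul_apply, smul_assoc]

theorem orb_cmb_zero {ι : Type} [Fintype ι] (Y : ι → W n) : cmb Y 0 = 0 := by
  unfold cmb
  simp

theorem orb_cmb_sum {ι κ : Type} [Fintype ι] (Y : ι → W n) (s : Finset κ)
    (f : κ → ι → ZMod 2) : cmb Y (∑ k ∈ s, f k) = ∑ k ∈ s, cmb Y (f k) := by
  classical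
  induction s using Finset.induction_on with
  | empty => simp [orb_cmb_zero]
  | insert a s ha ih => rw [sum_insert ha, sum_insert ha, orb_cmb_add, ih]

theorem orb_chw_add (w x y : W n) : chw w (x + y) = chw w x * chw w y := by
  rw [Lin.chw_comm, Lin.chw_add, Lin.chw_comm, Lin.chw_comm y]

theorem orb_chw_zero (w : W n) : chw w 0 = 1 := by
  rw [Lin.chw_comm, Lin.chw_zero]

theorem orb_chw_sum {κ : Type} (w : W n) (s : Finset κ) (f : κ → W n) :
    chw w (∑ k ∈ s, f k) = ∏ k ∈ s, chw w (f k) := by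
  classical
  induction s using Finset.induction_on with
  | empty => simp [orb_chw_zero]
  | insert a s ha ih => rw [sum_insert ha, prod_insert ha, orb_chw_add, ih]

theorem orb_chw_smul (w x : W n) (c : ZMod 2) : chw (c • w) x = chw w (c • x) := by
  unfold chw
  refine prod_congr rfl fun i _ => ?_
  rw [Pi.smul_apply, Pi.smul_apply, smul_eq_mul, smul_eq_mul]
  congr 1
  ring

theorem orb_sum_cmb {u : ℕ} (w : W n) (X : Fin u → W n) :
    ∑ v : Fin u → ZMod 2, chw w (cmb X v) = ∏ i, (1 + chw w (X i)) := by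
  have h1 : ∀ v : Fin u → ZMod 2, chw w (cmb X v) = ∏ i, chw w (v i • X i) := by
    intro v
    unfold cmb
    exact orb_chw_sum w _ _
  simp_rw [h1]
  have h2 := (Finset.prod_univ_sum (fun _ : Fin u => (univ : Finset (ZMod 2)))
    fun i c => chw w (c • X i)).symm
  rw [Fintype.piFinset_univ] at h2
  rw [h2]
  refine prod_congr rfl fun i _ => ?_
  have : (univ : Finset (ZMod 2)) = {0, 1} := by decide
  rw [this, sum_pair (by decide), zero_smul, one_smul, orb_chw_zero]

theorem orb_gg_def {ι : Type} [Fintype ι] [DecidableEq ι] (φ : W n → ℝ) (Y : ι → W n) :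
    gg φ Y = ∏ a ∈ (univ : Finset (ι → ZMod 2)).erase 0, (1 + φ (cmb Y a)) := by
  unfold gg
  refine prod_congr ?_ fun a _ => rfl
  ext a
  simp only [mem_erase, mem_univ]

theorem orb_gg {l u j : ℕ} {φ : W n → ℝ} {Y : Fin l → W n} {b : Fin u → Fin l → ZMod 2}
    {e : Fin j → Fin l → ZMod 2}
    (h : Function.Bijective (fun p : P u j => ∑ i, p.1 i • b i + ∑ k, p.2 k • e k)) :
    gg φ Y = gg φ (fun i => cmb Y (b i)) * gc φ (fun i => cmb Y (b i)) (fun k => cmb Y (e k)) := by
  classical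
  have hwd : ∀ p : P u j, cmb Y (∑ i, p.1 i • b i + ∑ k, p.2 k • e k) =
      wd (fun i => cmb Y (b i)) (fun k => cmb Y (e k)) p := by
    intro p
    rw [orb_cmb_add, orb_cmb_sum, orb_cmb_sum]
    unfold wd
    congr 1
    · unfold cmb
      refine sum_congr rfl fun i _ => ?_
      exact orb_cmb_smul Y _ _
    · unfold cmb
      refine sum_congr rfl fun i _ => ?_
      exact orb_cmb_smul Y _ _
  have h1 : gg φ Y = ∏ p ∈ (univ : Finset (P u j)).erase 0,
      (1 + φ (wd (fun i => cmb Y (b i)) (fun k => cmb Y (e k)) p)) := by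
    rw [orb_gg_def]
    symm
    refine Finset.prod_bij (fun p _ => ∑ i, p.1 i • b i + ∑ k, p.2 k • e k) ?_ ?_ ?_ ?_
    · intro p hp
      rw [mem_erase] at hp ⊢
      refine ⟨fun h0 => hp.1 ?_, mem_univ _⟩
      apply h.1
      show _ = ∑ i, (0 : P u j).1 i • b i + ∑ k, (0 : P u j).2 k • e k
      simpa using h0
    · intro p _ q _ hpq
      exact h.1 hpq
    · intro a ha
      obtain ⟨p, hp⟩ := h.2 a
      refine ⟨p, ?_, hp⟩
      rw [mem_erase] at ha ⊢
      refine ⟨fun h0 => ha.1 ?_, mem_univ _⟩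
      rw [← hp, h0]
      simp
    · intro p _
      rw [hwd]
  rw [h1]
  have h2 : (univ : Finset (P u j)).erase 0 =
      ((univ : Finset (Fin u → ZMod 2)).erase 0).map
        ⟨fun a => (a, 0), fun a b h => (Prod.mk.inj h).1⟩ ∪ Pz u j := by
    ext p
    rw [mem_erase, mem_union, mem_map]
    unfold Pz
    rw [mem_filter]
    constructor
    · rintro ⟨h3, _⟩
      by_cases h4 : p.2 = 0
      · left
        refine ⟨p.1, mem_erase.2 ⟨fun h5 => h3 (Prod.ext h5 h4), mem_univ _⟩, ?_⟩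
        exact Prod.ext rfl h4.symm
      · right
        exact ⟨mem_univ _, h4⟩
    · rintro (⟨a, ha, rfl⟩ | ⟨_, h4⟩)
      · refine ⟨fun h5 => (mem_erase.1 ha).1 ?_, mem_univ _⟩
        exact congrArg Prod.fst h5
      · exact ⟨fun h5 => h4 (by rw [h5]; rfl), mem_univ _⟩
  rw [h2, prod_union, prod_map]
  · rw [orb_gg_def]
    unfold gc
    congr 1
    refine prod_congr rfl fun a _ => ?_
    show 1 + φ (wd _ _ ((a, 0) : P u j)) = _
    unfold wd
    rw [orb_cmb_zero, add_zero]
  · rw [disjoint_left]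
    intro p hp hp2
    rw [mem_map] at hp
    obtain ⟨a, _, rfl⟩ := hp
    unfold Pz at hp2
    rw [mem_filter] at hp2
    exact hp2.2 rfl

/-- One orbit: the sum over the tuples `Y` for which `cmb Y (b i)` is prescribed for `u`
independent coefficient vectors `b i`. -/
theorem orbit {l u j : ℕ} (huj : u + j = l) (φ : W n → ℝ) (c : ℝ) (Xb : Fin u → W n)
    (b : Fin u → Fin l → ZMod 2) (hb : LinearIndependent (ZMod 2) b) {S : Type} [Fintype S]
    [DecidableEq S] (Ξ : S → W n) :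
    ∑ Y : Fin l → W n, ∑ a : S → Fin l → ZMod 2,
      (if ∀ i, cmb Y (b i) = Xb i then
        c ^ Module.finrank (ZMod 2) (Submodule.span (ZMod 2) (Set.range b ∪ Set.range a)) *
          (gg φ Y * ∏ s, chw (Ξ s) (cmb Y (a s))) else 0)
    = gg φ Xb * (∏ s, ∏ i, (1 + chw (Ξ s) (Xb i))) * c ^ u * 2 ^ (n * j) *
      ∑ B : Matrix S (Fin j) (ZMod 2), c ^ B.rank * Gh φ Xb (fun k => ∑ s, B s k • Ξ s) := by
  classical
  obtain ⟨e, hb1, hb2, hb3⟩ := exists_compl huj hb
  -- the sum over `Y` with prescribed values is a sum over `Z`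
  set Ev := Equiv.ofBijective _ (hb2 n) with hEv
  have hE1 : ∀ (Z : Fin j → W n) (i : Fin u), cmb (Ev.symm (Xb, Z)) (b i) = Xb i := by
    intro Z i
    have := congrArg (fun q : (Fin u → W n) × (Fin j → W n) => q.1 i) (Ev.apply_symm_apply (Xb, Z))
    exact this
  have hE2 : ∀ (Z : Fin j → W n) (k : Fin j), cmb (Ev.symm (Xb, Z)) (e k) = Z k := by
    intro Z i
    have := congrArg (fun q : (Fin u → W n) × (Fin j → W n) => q.2 i) (Ev.apply_symm_apply (Xb, Z))
    exact this
  have hsumY : ∀ G : (Fin l → W n) → ℝ,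
      ∑ Y : Fin l → W n, (if ∀ i, cmb Y (b i) = Xb i then G Y else 0) =
        ∑ Z : Fin j → W n, G (Ev.symm (Xb, Z)) := by
    intro G
    rw [← Equiv.sum_comp Ev.symm, Fintype.sum_prod_type, sum_eq_single Xb]
    · refine sum_congr rfl fun Z _ => ?_
      rw [if_pos (hE1 Z)]
    · intro X' _ hX'
      refine sum_eq_zero fun Z _ => ?_
      rw [if_neg]
      intro h
      apply hX'
      funext i
      rw [← h i]
      have := congrArg (fun q : (Fin u → W n) × (Fin j → W n) => q.1 i)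
        (Ev.apply_symm_apply (X', Z))
      exact this.symm
    · intro h
      exact absurd (mem_univ _) h
  -- the sum over `a`
  set Ep := Equiv.ofBijective _ hb1 with hEp
  have hsumA : ∀ G : (S → Fin l → ZMod 2) → ℝ, ∑ a, G a =
      ∑ B : Matrix S (Fin j) (ZMod 2), ∑ C : Matrix S (Fin u) (ZMod 2),
        G (fun s => ∑ i, C s i • b i + ∑ k, B s k • e k) := by
    intro G
    rw [← Equiv.sum_comp (Equiv.piCongrRight fun _ : S => Ep),
      ← Equiv.sum_comp (Equiv.arrowProdEquivProdArrow S (fun _ => Fin u → ZMod 2)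
        (fun _ => Fin j → ZMod 2)).symm, Fintype.sum_prod_type, sum_comm]
    rfl
  have h1 : ∀ Y : Fin l → W n, ∑ a : S → Fin l → ZMod 2,
      (if ∀ i, cmb Y (b i) = Xb i then
        c ^ Module.finrank (ZMod 2) (Submodule.span (ZMod 2) (Set.range b ∪ Set.range a)) *
          (gg φ Y * ∏ s, chw (Ξ s) (cmb Y (a s))) else 0) =
      if ∀ i, cmb Y (b i) = Xb i then ∑ a : S → Fin l → ZMod 2,
        c ^ Module.finrank (ZMod 2) (Submodule.span (ZMod 2) (Set.range b ∪ Set.range a)) *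
          (gg φ Y * ∏ s, chw (Ξ s) (cmb Y (a s))) else 0 := by
    intro Y
    split_ifs with h
    · rfl
    · simp
  rw [sum_congr rfl fun Y _ => h1 Y, hsumY]
  have h2 : ∀ Z : Fin j → W n, ∑ a : S → Fin l → ZMod 2,
        c ^ Module.finrank (ZMod 2) (Submodule.span (ZMod 2) (Set.range b ∪ Set.range a)) *
          (gg φ (Ev.symm (Xb, Z)) * ∏ s, chw (Ξ s) (cmb (Ev.symm (Xb, Z)) (a s))) =
      ∑ B : Matrix S (Fin j) (ZMod 2), gg φ Xb * (∏ s, ∏ i, (1 + chw (Ξ s) (Xb i))) * c ^ u *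
        (c ^ B.rank * (gc φ Xb Z * cht (fun k => ∑ s, B s k • Ξ s) Z)) := by
    intro Z
    rw [hsumA]
    refine sum_congr rfl fun B _ => ?_
    have h3 : ∀ C : Matrix S (Fin u) (ZMod 2),
        c ^ Module.finrank (ZMod 2) (Submodule.span (ZMod 2) (Set.range b ∪
          Set.range fun s => ∑ i, C s i • b i + ∑ k, B s k • e k)) *
          (gg φ (Ev.symm (Xb, Z)) * ∏ s, chw (Ξ s) (cmb (Ev.symm (Xb, Z))
            (∑ i, C s i • b i + ∑ k, B s k • e k))) =
        (c ^ u * c ^ B.rank * gg φ Xb * gc φ Xb Z * cht (fun k => ∑ s, B s k • Ξ s) Z) *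
          ∏ s, chw (Ξ s) (cmb Xb (C s)) := by
      intro C
      rw [hb3 S C B, pow_add, orb_gg (φ := φ) (Y := Ev.symm (Xb, Z)) hb1]
      have h4 : (fun i => cmb (Ev.symm (Xb, Z)) (b i)) = Xb := funext fun i => hE1 Z i
      have h5 : (fun k => cmb (Ev.symm (Xb, Z)) (e k)) = Z := funext fun i => hE2 Z i
      rw [h4, h5]
      have h6 : ∏ s, chw (Ξ s) (cmb (Ev.symm (Xb, Z)) (∑ i, C s i • b i + ∑ k, B s k • e k)) =
          (∏ s, chw (Ξ s) (cmb Xb (C s))) * cht (fun k => ∑ s, B s k • Ξ s) Z := by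
        have h7 : ∀ s, chw (Ξ s) (cmb (Ev.symm (Xb, Z)) (∑ i, C s i • b i + ∑ k, B s k • e k)) =
            chw (Ξ s) (cmb Xb (C s)) * ∏ k, chw (B s k • Ξ s) (Z k) := by
          intro s
          rw [orb_cmb_add, orb_chw_add, orb_cmb_sum, orb_cmb_sum]
          congr 1
          · congr 1
            unfold cmb
            refine sum_congr rfl fun i _ => ?_
            exact (orb_cmb_smul _ _ _).trans (by rw [hE1 Z i])
          · rw [orb_chw_sum]
            refine prod_congr rfl fun k _ => ?_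
            rw [orb_cmb_smul, hE2 Z k, orb_chw_smul]
        rw [prod_congr rfl fun s _ => h7 s, prod_mul_distrib, prod_comm]
        congr 1
        unfold cht
        refine prod_congr rfl fun k _ => ?_
        rw [Lin.chw_comm, orb_chw_sum]
        exact prod_congr rfl fun s _ => Lin.chw_comm _ _
      rw [h6]
      ring
    rw [sum_congr rfl fun C _ => h3 C, ← mul_sum]
    have h8 : ∑ C : Matrix S (Fin u) (ZMod 2), ∏ s, chw (Ξ s) (cmb Xb (C s)) =
        ∏ s, ∏ i, (1 + chw (Ξ s) (Xb i)) := by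
      have h9 := (Finset.prod_univ_sum (fun _ : S => (univ : Finset (Fin u → ZMod 2)))
        fun s v => chw (Ξ s) (cmb Xb v)).symm
      rw [Fintype.piFinset_univ] at h9
      rw [← prod_congr rfl fun s _ => orb_sum_cmb (Ξ s) Xb]
      exact h9
    rw [h8]
    ring
  rw [sum_congr rfl fun Z _ => h2 Z, sum_comm, mul_sum]
  refine sum_congr rfl fun B _ => ?_
  rw [← mul_sum, ← mul_sum]
  unfold Gh
  have h10 : (2 : ℝ) ^ (n * j) ≠ 0 := by positivity
  field_simp

end Pool.Agent.Lib.MP_0430e4_lc.Lgv
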