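import Pool.Agent.Lib.MP_0430e4_lc.Lgv.Defs

/-!
# POS: positivity of the sum over all matrices

PROOF. `K = {a : S → ZMod 2 | ∑ a s • Ξ s = 0}`, `κ = dim K <= |S| <= j`, `G = 2^(N+4) C`, `c = M/G >= 1`.
There is `B0` whose columns span `K`, so `B0.rank = κ` and its tuple is `0`; term `>= c^κ (1 - C/M) >= c^κ (15/16)`.
For `B` with tuple `0` the term is `>= 0`. If the tuple `Θ` of `B` is not `0`: `rk Θ >= 1` and
`rk Θ >= B.rank - κ` (`Θ` = image of the columns of `B` under `a ↦ ∑ a s • Ξ s`, kernel `K`; row rank = column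
rank), so `c^(rank) |F Θ| <= c^rank C M^(-max 1 (rank - κ)) <= c^κ C / G` (if `rank <= κ`: `C/M <= C/G`; if
`rank > κ`: `c^(rank-κ) M^(-(rank-κ)) = G^-(rank-κ)`). There are `2^(|S| j) <= 2^N` matrices, so the sum of the
bad terms is at most `c^κ / 16`. Compare Lin/ASM.lean, `transform_nonneg`, for a similar proof.
-/

set_option autoImplicit false

namespace Pool.Agent.Lib.MP_0430e4_lc.Lgv

open Finset
open Pool.Agent.Lib.MP_0430e4_lc.Lin (W wt chw sg)

variable {n : ℕ}

/-- the image of a coefficient vector -/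
def posL {S : Type} [Fintype S] (Ξ : S → W n) : (S → ZMod 2) →ₗ[ZMod 2] W n where
  toFun a := ∑ s, a s • Ξ s
  map_add' a b := by simp [add_smul, Finset.sum_add_distrib]
  map_smul' r a := by simp [Finset.smul_sum, mul_smul]

theorem posL_apply {S : Type} [Fintype S] (Ξ : S → W n) (a : S → ZMod 2) :
    posL Ξ a = ∑ s, a s • Ξ s := rfl

theorem pos_rk {S : Type} [Fintype S] [DecidableEq S] {j : ℕ} (Ξ : S → W n)
    (B : Matrix S (Fin j) (ZMod 2)) :
    B.rank ≤ rk (fun k => ∑ s, B s k • Ξ s) +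
      Module.finrank (ZMod 2) (LinearMap.ker (posL Ξ)) := by
  have h1 : B.rank = Module.finrank (ZMod 2) (Submodule.span (ZMod 2) (Set.range B.col)) :=
    Matrix.rank_eq_finrank_span_cols B
  set P : Submodule (ZMod 2) (S → ZMod 2) := Submodule.span (ZMod 2) (Set.range B.col) with hP
  have h2 : P.map (posL Ξ) =
      Submodule.span (ZMod 2) (Set.range (fun k => ∑ s, B s k • Ξ s)) := by
    rw [hP, Submodule.map_span, ← Set.range_comp]
    rfl
  have h3 := LinearMap.finrank_range_add_finrank_ker ((posL Ξ).domRestrict P)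
  rw [LinearMap.range_domRestrict, h2, LinearMap.ker_domRestrict] at h3
  have h4 : Module.finrank (ZMod 2) ((LinearMap.ker (posL Ξ)).submoduleOf P) ≤
      Module.finrank (ZMod 2) (LinearMap.ker (posL Ξ)) := by
    apply LinearMap.finrank_le_finrank_of_injective
      (f := (P.subtype.restrict (p := (LinearMap.ker (posL Ξ)).submoduleOf P)
        (q := LinearMap.ker (posL Ξ)) (fun x hx => hx)))
    intro x y hxy
    have := congrArg Subtype.val hxy
    exact Subtype.ext (Subtype.ext this)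
  unfold rk
  rw [h1, ← h3]
  exact Nat.add_le_add_left h4 _

theorem pos_exists {S : Type} [Fintype S] [DecidableEq S] {j : ℕ} (hS : Fintype.card S ≤ j)
    (Ξ : S → W n) :
    ∃ B : Matrix S (Fin j) (ZMod 2),
      B.rank = Module.finrank (ZMod 2) (LinearMap.ker (posL Ξ)) ∧
      (fun k => ∑ s, B s k • Ξ s) = 0 := by
  set κ := Module.finrank (ZMod 2) (LinearMap.ker (posL Ξ)) with hκ
  have hκj : κ ≤ j := by
    refine le_trans ?_ hS
    refine (Submodule.finrank_le _).trans ?_
    rw [Module.finrank_fintype_fun_eq_card]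
  let b := Module.finBasis (ZMod 2) (LinearMap.ker (posL Ξ))
  let v : Fin j → LinearMap.ker (posL Ξ) := fun k => if h : (k : ℕ) < κ then b ⟨k, h⟩ else 0
  refine ⟨Matrix.of fun s k => (v k : S → ZMod 2) s, ?_, ?_⟩
  · rw [Matrix.rank_eq_finrank_span_cols]
    have h1 : Submodule.span (ZMod 2)
        (Set.range (Matrix.of fun s (k : Fin j) => (v k : S → ZMod 2) s).col) =
        LinearMap.ker (posL Ξ) := by
      apply le_antisymm
      · rw [Submodule.span_le]
        rintro _ ⟨k, rfl⟩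
        exact (v k).2
      · intro x hx
        have h2 : (⟨x, hx⟩ : LinearMap.ker (posL Ξ)) ∈ Submodule.span (ZMod 2) (Set.range b) := by
          rw [b.span_eq]; trivial
        have h3 : Submodule.span (ZMod 2) (Set.range b) ≤
            (Submodule.span (ZMod 2)
              (Set.range (Matrix.of fun s (k : Fin j) => (v k : S → ZMod 2) s).col)).comap
              (LinearMap.ker (posL Ξ)).subtype := by
          rw [Submodule.span_le]
          rintro _ ⟨i, rfl⟩
          apply Submodule.subset_span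
          refine ⟨⟨i, lt_of_lt_of_le i.2 hκj⟩, ?_⟩
          have : v ⟨i, lt_of_lt_of_le i.2 hκj⟩ = b i := by
            simp only [v]
            rw [dif_pos i.2]
          change (v ⟨i, lt_of_lt_of_le i.2 hκj⟩ : S → ZMod 2) = _
          rw [this]
          rfl
        exact h3 h2
    rw [h1]
  · funext k
    have := (v k).2
    rw [LinearMap.mem_ker, posL_apply] at this
    exact this

/-- Positivity of the sum over all matrices. -/
theorem pos_sum {S : Type} [Fintype S] [DecidableEq S] {j N : ℕ} (hS : Fintype.card S ≤ j)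
    (hN : Fintype.card S * j ≤ N) {M C : ℝ} (hC : 1 ≤ C) (hM : 2 ^ (N + 4) * C ≤ M)
    {F : (Fin j → W n) → ℝ}
    (hF : ∀ Θ, |F Θ - if Θ = 0 then 1 else 0| ≤ C * M⁻¹ ^ max (rk Θ) 1) (Ξ : S → W n) :
    0 ≤ ∑ B : Matrix S (Fin j) (ZMod 2),
      (M / (2 ^ (N + 4) * C)) ^ B.rank * F (fun k => ∑ s, B s k • Ξ s) := by
  classical
  set κ := Module.finrank (ZMod 2) (LinearMap.ker (posL Ξ)) with hκ
  set G : ℝ := 2 ^ (N + 4) * C with hG
  have hp : (1 : ℝ) ≤ 2 ^ (N + 4) := one_le_pow₀ (by norm_num)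
  have hG1 : 1 ≤ G := by rw [hG]; nlinarith
  have hG0 : 0 < G := by linarith
  have hM0 : 0 < M := by linarith
  have hM1 : 1 ≤ M := by linarith
  have hc1 : 1 ≤ M / G := by rw [le_div_iff₀ hG0]; linarith
  set c : ℝ := M / G with hc
  have hc0 : 0 < c := by linarith
  have hcκ : 0 < c ^ κ := pow_pos hc0 _
  have hCM : C * M⁻¹ ≤ 1 / 2 ^ (N + 4) := by
    have : M⁻¹ ≤ G⁻¹ := inv_anti₀ hG0 hM
    have h2 : C * G⁻¹ = 1 / 2 ^ (N + 4) := by
      rw [hG]; field_simp
    rw [← h2]
    exact mul_le_mul_of_nonneg_left this (by linarith)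
  have h16 : (1 : ℝ) / 2 ^ (N + 4) ≤ 1 / 16 := by
    apply one_div_le_one_div_of_le (by norm_num)
    calc (16 : ℝ) = 2 ^ 4 := by norm_num
      _ ≤ 2 ^ (N + 4) := pow_le_pow_right₀ (by norm_num) (by omega)
  have hM' : M⁻¹ ≤ 1 := inv_le_one_of_one_le₀ hM1
  have hM'0 : 0 ≤ M⁻¹ := by positivity
  -- the value at zero
  have hF0 : 15 / 16 ≤ F 0 := by
    have h := hF 0
    rw [if_pos rfl] at h
    have h2 : C * M⁻¹ ^ max (rk (0 : Fin j → W n)) 1 ≤ C * M⁻¹ := by
      apply mul_le_mul_of_nonneg_left _ (by linarith)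
      exact pow_le_of_le_one hM'0 hM' (by omega)
    have h3 := (abs_le.1 h).1
    linarith
  -- all terms
  have hterm : ∀ B : Matrix S (Fin j) (ZMod 2),
      0 ≤ c ^ B.rank * F (fun k => ∑ s, B s k • Ξ s) + c ^ κ * (1 / 2 ^ (N + 4)) := by
    intro B
    by_cases h0 : (fun k => ∑ s, B s k • Ξ s) = (0 : Fin j → W n)
    · rw [h0]
      have : 0 ≤ c ^ B.rank * F 0 := mul_nonneg (pow_nonneg hc0.le _) (by linarith)
      have : 0 ≤ c ^ κ * (1 / 2 ^ (N + 4)) := by positivity
      linarith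
    · have h := hF (fun k => ∑ s, B s k • Ξ s)
      rw [if_neg h0, sub_zero] at h
      have hrk := pos_rk Ξ B
      have h2 : c ^ B.rank * (C * M⁻¹ ^ max (rk (fun k => ∑ s, B s k • Ξ s)) 1) ≤
          c ^ κ * (1 / 2 ^ (N + 4)) := by
        rcases le_or_gt B.rank κ with hle | hgt
        · have e1 : c ^ B.rank ≤ c ^ κ := pow_le_pow_right₀ hc1 hle
          have e2 : C * M⁻¹ ^ max (rk (fun k => ∑ s, B s k • Ξ s)) 1 ≤ C * M⁻¹ := by
            apply mul_le_mul_of_nonneg_left _ (by linarith)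
            exact pow_le_of_le_one hM'0 hM' (by omega)
          apply mul_le_mul e1 (e2.trans hCM) (by positivity) hcκ.le
        · obtain ⟨t, ht⟩ : ∃ t, B.rank = κ + (t + 1) := ⟨B.rank - κ - 1, by omega⟩
          have e1 : M⁻¹ ^ max (rk (fun k => ∑ s, B s k • Ξ s)) 1 ≤ M⁻¹ ^ (t + 1) :=
            pow_le_pow_of_le_one hM'0 hM' (by omega)
          have e2 : c * M⁻¹ = G⁻¹ := by rw [hc]; field_simp
          have e3 : G⁻¹ ≤ 1 := inv_le_one_of_one_le₀ hG1
          calc c ^ B.rank * (C * M⁻¹ ^ max (rk (fun k => ∑ s, B s k • Ξ s)) 1)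
              ≤ c ^ B.rank * (C * M⁻¹ ^ (t + 1)) := by
                apply mul_le_mul_of_nonneg_left _ (by positivity)
                exact mul_le_mul_of_nonneg_left e1 (by linarith)
            _ = c ^ κ * (C * (c * M⁻¹) ^ (t + 1)) := by rw [ht, pow_add, mul_pow]; ring
            _ = c ^ κ * (C * G⁻¹ ^ (t + 1)) := by rw [e2]
            _ ≤ c ^ κ * (C * G⁻¹) := by
                apply mul_le_mul_of_nonneg_left _ hcκ.le
                apply mul_le_mul_of_nonneg_left _ (by linarith)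
                exact pow_le_of_le_one (by positivity) e3 (by omega)
            _ = c ^ κ * (1 / 2 ^ (N + 4)) := by
                congr 1
                rw [hG]; field_simp
      have h3 : -(C * M⁻¹ ^ max (rk (fun k => ∑ s, B s k • Ξ s)) 1) ≤
          F (fun k => ∑ s, B s k • Ξ s) := (abs_le.1 h).1
      have h4 := mul_le_mul_of_nonneg_left h3 (pow_nonneg hc0.le B.rank)
      linarith
  obtain ⟨B0, hB1, hB2⟩ := pos_exists hS Ξ
  have hsum : c ^ B0.rank * F (fun k => ∑ s, B0 s k • Ξ s) + c ^ κ * (1 / 2 ^ (N + 4)) ≤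
      ∑ B : Matrix S (Fin j) (ZMod 2),
        (c ^ B.rank * F (fun k => ∑ s, B s k • Ξ s) + c ^ κ * (1 / 2 ^ (N + 4))) :=
    Finset.single_le_sum (f := fun B : Matrix S (Fin j) (ZMod 2) =>
      c ^ B.rank * F (fun k => ∑ s, B s k • Ξ s) + c ^ κ * (1 / 2 ^ (N + 4)))
      (fun B _ => hterm B) (Finset.mem_univ B0)
  rw [Finset.sum_add_distrib, Finset.sum_const, nsmul_eq_mul] at hsum
  have hcard : ((Finset.univ : Finset (Matrix S (Fin j) (ZMod 2))).card : ℝ) ≤ 2 ^ N := by
    have h1 : (Finset.univ : Finset (Matrix S (Fin j) (ZMod 2))).card =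
        2 ^ (j * Fintype.card S) := by
      have h : Fintype.card (S → Fin j → ZMod 2) = 2 ^ (j * Fintype.card S) := by
        simp [ZMod.card, pow_mul]
      rw [← h]
      exact Fintype.card_congr (Equiv.refl _)
    rw [h1]
    push_cast
    exact pow_le_pow_right₀ (by norm_num) (by rw [mul_comm]; exact hN)
  have hconst : ((Finset.univ : Finset (Matrix S (Fin j) (ZMod 2))).card : ℝ) *
      (c ^ κ * (1 / 2 ^ (N + 4))) ≤ c ^ κ * (1 / 16) := by
    calc _ ≤ 2 ^ N * (c ^ κ * (1 / 2 ^ (N + 4))) :=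
          mul_le_mul_of_nonneg_right hcard (by positivity)
      _ = c ^ κ * (1 / 16) := by
          rw [pow_add]; field_simp; norm_num
  have hB0 : c ^ κ * (15 / 16) ≤ c ^ B0.rank * F (fun k => ∑ s, B0 s k • Ξ s) := by
    rw [hB1, hB2]
    exact mul_le_mul_of_nonneg_left hF0 hcκ.le
  have : 0 ≤ c ^ κ * (1 / 2 ^ (N + 4)) := by positivity
  linarith

end Pool.Agent.Lib.MP_0430e4_lc.Lgv
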