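import Pool.Agent.Lib.MP_0430e4_lc.Lgv.Defs

/-!
# ROW: matrices with prescribed images of some rows

PROOF. `cmb Y` is an injective linear map `Λ` from `Fin l → ZMod 2` to words. If `X j` is not in the range of `Λ` for
some `j ∉ S` both sides are `0` (a `b` with `Λ (b i) = Xb i` for all `i` puts the span of `Xb` in the range).
Otherwise there are unique `A0 j` (`j ∉ S`) with `Λ (A0 j) = X j` and unique `b0 i` with `Λ (b0 i) = Xb i`; `b0` is
linearly independent and has the same span as the `A0 j` (images under `Λ` have the same span, `Λ` injective). The left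
side is the sum over the matrices with rows `A0 j` for `j ∉ S` and `a s` for `s ∈ S`, whose rank is the dimension of the
span of `b0` and `a`; the right side is the term `b = b0`.
-/

set_option autoImplicit false

namespace Pool.Agent.Lib.MP_0430e4_lc.Lgv

open Finset
open Pool.Agent.Lib.MP_0430e4_lc.Lin (W wt chw sg)

variable {n : ℕ}

open Classical in
/-- Matrices with prescribed images of some rows. -/
theorem row_split {l u : ℕ} {Y : Fin l → W n} (hY : ∀ a, cmb Y a = 0 → a = 0)
    (S : Finset (Fin l)) (X : Fin l → W n) {Xb : Fin u → W n}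
    (hXb : LinearIndependent (ZMod 2) Xb)
    (hsp : Submodule.span (ZMod 2) (Set.range Xb) = Submodule.span (ZMod 2) (X '' {j | j ∉ S}))
    (c : ℝ) (g : ({j // j ∈ S} → Fin l → ZMod 2) → ℝ) :
    ∑ A : Matrix (Fin l) (Fin l) (ZMod 2),
      (if ∀ j, j ∉ S → cmb Y (A j) = X j then c ^ A.rank * g (fun s => A s) else 0)
    = ∑ b : Fin u → Fin l → ZMod 2, if LinearIndependent (ZMod 2) b then
        ∑ a : {j // j ∈ S} → Fin l → ZMod 2, (if ∀ i, cmb Y (b i) = Xb i then
          c ^ Module.finrank (ZMod 2) (Submodule.span (ZMod 2) (Set.range b ∪ Set.range a)) * g a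
          else 0) else 0 := by
  let Λ : (Fin l → ZMod 2) →ₗ[ZMod 2] W n := Fintype.linearCombination (ZMod 2) Y
  have hΛ : ∀ a, Λ a = cmb Y a := fun a => rfl
  have hinj : Function.Injective Λ := by
    rw [injective_iff_map_eq_zero]
    intro a ha
    exact hY a ha
  by_cases hr : ∀ j, j ∉ S → ∃ a, Λ a = X j
  · have hr' : ∀ j, ∃ a, j ∉ S → Λ a = X j := by
      intro j
      by_cases hj : j ∈ S
      · exact ⟨0, fun h => absurd hj h⟩
      · obtain ⟨a, ha⟩ := hr j hj
        exact ⟨a, fun _ => ha⟩
    choose A0 hA0 using hr'
    have hXr : ∀ i, ∃ a, Λ a = Xb i := by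
      intro i
      have h1 : Xb i ∈ Submodule.span (ZMod 2) (Set.range Xb) :=
        Submodule.subset_span ⟨i, rfl⟩
      rw [hsp] at h1
      have h2 : Submodule.span (ZMod 2) (X '' {j | j ∉ S}) ≤ LinearMap.range Λ := by
        rw [Submodule.span_le]
        rintro _ ⟨j, hj, rfl⟩
        obtain ⟨a, ha⟩ := hr j hj
        exact ⟨a, ha⟩
      exact h2 h1
    choose b0 hb0 using hXr
    have hb0i : LinearIndependent (ZMod 2) b0 := by
      refine LinearIndependent.of_comp Λ ?_
      have : (Λ ∘ b0 : Fin u → W n) = Xb := funext hb0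
      rw [this]
      exact hXb
    have hspan : Submodule.span (ZMod 2) (Set.range b0)
        = Submodule.span (ZMod 2) (A0 '' {j | j ∉ S}) := by
      apply Submodule.map_injective_of_injective hinj
      rw [Submodule.map_span, Submodule.map_span]
      have h1 : Λ '' Set.range b0 = Set.range Xb := by
        rw [← Set.range_comp]
        exact congrArg Set.range (funext hb0)
      have h2 : Λ '' (A0 '' {j | j ∉ S}) = X '' {j | j ∉ S} := by
        rw [Set.image_image]
        exact Set.image_congr fun j hj => hA0 j hj
      rw [h1, h2, hsp]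
    rw [sum_eq_single b0]
    · rw [if_pos hb0i, ← sum_filter]
      have hb0' : ∀ i, cmb Y (b0 i) = Xb i := hb0
      have hR : ∀ a : {j // j ∈ S} → Fin l → ZMod 2, (if ∀ i, cmb Y (b0 i) = Xb i then
          c ^ Module.finrank (ZMod 2) (Submodule.span (ZMod 2) (Set.range b0 ∪ Set.range a)) * g a
          else 0) = c ^ Module.finrank (ZMod 2)
            (Submodule.span (ZMod 2) (Set.range b0 ∪ Set.range a)) * g a := by
        intro a
        rw [if_pos hb0']
      rw [sum_congr rfl fun a _ => hR a]
      have hrest : ∀ A : Matrix (Fin l) (Fin l) (ZMod 2),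
          (∀ j, j ∉ S → cmb Y (A j) = X j) → ∀ j, j ∉ S → A j = A0 j := by
        intro A hA j hj
        exact hinj ((hA j hj).trans (hA0 j hj).symm)
      refine sum_nbij' (fun A => fun s => A s)
        (fun a => Matrix.of fun k => if h : k ∈ S then a ⟨k, h⟩ else A0 k) ?_ ?_ ?_ ?_ ?_
      · intro A _
        exact mem_univ _
      · intro a _
        rw [mem_filter]
        refine ⟨mem_univ _, fun j hj => ?_⟩
        have : (Matrix.of (fun k => if h : k ∈ S then a ⟨k, h⟩ else A0 k) :
            Matrix (Fin l) (Fin l) (ZMod 2)) j = A0 j := by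
          funext x
          rw [Matrix.of_apply, dif_neg hj]
        rw [this]
        exact hA0 j hj
      · intro A hA
        rw [mem_filter] at hA
        ext k x
        rw [Matrix.of_apply]
        by_cases hk : k ∈ S
        · rw [dif_pos hk]
        · rw [dif_neg hk, hrest A hA.2 k hk]
      · intro a _
        funext s x
        rw [Matrix.of_apply, dif_pos s.2]
      · intro A hA
        rw [mem_filter] at hA
        congr 2
        rw [Matrix.rank_eq_finrank_span_row]
        have h1 : Set.range A.row = (fun k => A k) '' {j | j ∉ S}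
            ∪ Set.range (fun s : {j // j ∈ S} => A s) := by
          ext v
          constructor
          · rintro ⟨k, rfl⟩
            by_cases hk : k ∈ S
            · exact Or.inr ⟨⟨k, hk⟩, rfl⟩
            · exact Or.inl ⟨k, hk, rfl⟩
          · rintro (⟨k, _, rfl⟩ | ⟨s, rfl⟩)
            · exact ⟨k, rfl⟩
            · exact ⟨s, rfl⟩
        have h2 : (fun k => A k) '' {j | j ∉ S} = A0 '' {j | j ∉ S} :=
          Set.image_congr fun j hj => hrest A hA.2 j hj
        rw [h1, h2, Submodule.span_union, Submodule.span_union, hspan]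
    · intro b _ hne
      by_cases hb : LinearIndependent (ZMod 2) b
      · rw [if_pos hb]
        refine sum_eq_zero fun a _ => if_neg fun h => hne ?_
        funext i
        exact hinj ((h i).trans (hb0 i).symm)
      · rw [if_neg hb]
    · intro h
      exact absurd (mem_univ _) h
  · rw [sum_eq_zero, sum_eq_zero]
    · intro b _
      by_cases hb : LinearIndependent (ZMod 2) b
      · rw [if_pos hb]
        refine sum_eq_zero fun a _ => if_neg fun h => hr ?_
        intro j hj
        have h1 : X j ∈ Submodule.span (ZMod 2) (X '' {j | j ∉ S}) :=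
          Submodule.subset_span ⟨j, hj, rfl⟩
        rw [← hsp] at h1
        have h2 : Submodule.span (ZMod 2) (Set.range Xb) ≤ LinearMap.range Λ := by
          rw [Submodule.span_le]
          rintro _ ⟨i, rfl⟩
          exact ⟨b i, h i⟩
        exact h2 h1
      · rw [if_neg hb]
    · intro A _
      refine if_neg fun h => hr ?_
      intro j hj
      exact ⟨A j, h j hj⟩

end Pool.Agent.Lib.MP_0430e4_lc.Lgv
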