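import Mathlib

/-!
# POSC: the sum over matrices weighted by rank

PROOF. A matrix of rank `r` is a product of an `S × Fin r` and an `Fin r × Fin j` matrix (basis of the column space and
coordinates), so there are at most `2^((|S| + j) r)` of them. So the sum is at most `∑_{r >= 1} (2^(|S|+j) x)^r <= 1/3`.
-/

set_option autoImplicit false

namespace Pool.Agent.Lib.MP_0430e4_lc.Lgv

open Finset

/-- Rank factorisation. -/
theorem posc_factor {S : Type} [Fintype S] [DecidableEq S] {j r : ℕ}
    (B : Matrix S (Fin j) (ZMod 2)) (hB : B.rank = r) :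
    ∃ (M : Matrix S (Fin r) (ZMod 2)) (N : Matrix (Fin r) (Fin j) (ZMod 2)), M * N = B := by
  have h1 : Module.finrank (ZMod 2) (Submodule.span (ZMod 2) (Set.range B.col)) = r := by
    rw [← hB]
    exact (Matrix.rank_eq_finrank_span_cols B).symm
  let b := Module.finBasisOfFinrankEq (ZMod 2) (Submodule.span (ZMod 2) (Set.range B.col)) h1
  have hmem : ∀ k, B.col k ∈ Submodule.span (ZMod 2) (Set.range B.col) := fun k =>
    Submodule.subset_span ⟨k, rfl⟩
  refine ⟨Matrix.of fun s i => (b i : S → ZMod 2) s,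
    Matrix.of fun i k => b.repr ⟨B.col k, hmem k⟩ i, ?_⟩
  ext s k
  have h2 := b.sum_repr ⟨B.col k, hmem k⟩
  have h3 := congrArg (fun v : Submodule.span (ZMod 2) (Set.range B.col) => (v : S → ZMod 2) s) h2
  simp only [Submodule.coe_sum, Submodule.coe_smul, Finset.sum_apply, Pi.smul_apply,
    smul_eq_mul] at h3
  rw [Matrix.mul_apply]
  simp only [Matrix.of_apply]
  have h4 : B s k = B.col k s := rfl
  rw [h4, ← h3]
  exact Finset.sum_congr rfl fun i _ => mul_comm _ _

theorem posc_card_mat {S T : Type} [Fintype S] [DecidableEq S] [Fintype T] [DecidableEq T] :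
    Fintype.card (Matrix S T (ZMod 2)) = 2 ^ (Fintype.card S * Fintype.card T) := by
  have h1 : Fintype.card (Matrix S T (ZMod 2)) = Fintype.card (S → T → ZMod 2) :=
    Fintype.card_congr (Equiv.refl _)
  rw [h1, Fintype.card_fun, Fintype.card_fun, ZMod.card, ← pow_mul, mul_comm]

theorem posc_card {S : Type} [Fintype S] [DecidableEq S] (j r : ℕ) :
    (univ.filter fun B : Matrix S (Fin j) (ZMod 2) => B.rank = r).card ≤
      2 ^ ((Fintype.card S + j) * r) := by
  have h1 : (univ.filter fun B : Matrix S (Fin j) (ZMod 2) => B.rank = r) ⊆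
      (univ : Finset (Matrix S (Fin r) (ZMod 2) × Matrix (Fin r) (Fin j) (ZMod 2))).image
        (fun p => p.1 * p.2) := by
    intro B hB
    rw [mem_filter] at hB
    obtain ⟨M, N, h⟩ := posc_factor B hB.2
    exact mem_image.2 ⟨(M, N), mem_univ _, h⟩
  refine (card_le_card h1).trans (card_image_le.trans ?_)
  rw [card_univ, Fintype.card_prod, posc_card_mat, posc_card_mat, Fintype.card_fin,
    Fintype.card_fin, ← pow_add]
  apply le_of_eq
  congr 1
  ring

theorem posc_geom (R : ℕ) : ∑ r ∈ range R, (1 / 4 : ℝ) ^ (r + 1) ≤ 1 / 3 - 1 / 3 * (1 / 4) ^ R := by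
  induction R with
  | zero => simp
  | succ R ih =>
    rw [sum_range_succ, pow_succ]
    linarith

theorem posc_rank_pos {S : Type} [Fintype S] [DecidableEq S] {j : ℕ}
    {B : Matrix S (Fin j) (ZMod 2)} (hB : B ≠ 0) : B.rank ≠ 0 := by
  intro h
  obtain ⟨M, N, h1⟩ := posc_factor B h
  apply hB
  rw [← h1]
  ext s k
  rw [Matrix.mul_apply]
  simp

theorem posc_sum {S : Type} [Fintype S] [DecidableEq S] {j : ℕ} {x : ℝ} (hx : 0 ≤ x)
    (h : 2 ^ (Fintype.card S + j) * x ≤ 1 / 4) :
    ∑ B ∈ (univ : Finset (Matrix S (Fin j) (ZMod 2))).erase 0, x ^ B.rank ≤ 1 / 3 := by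
  have hmap : ∀ B ∈ (univ : Finset (Matrix S (Fin j) (ZMod 2))).erase 0,
      B.rank - 1 ∈ range (j + 1) := by
    intro B _
    have := Matrix.rank_le_card_width B
    rw [Fintype.card_fin] at this
    rw [mem_range]
    omega
  rw [← sum_fiberwise_of_maps_to hmap]
  have hterm : ∀ r ∈ range (j + 1),
      ∑ B ∈ ((univ : Finset (Matrix S (Fin j) (ZMod 2))).erase 0).filter
        (fun B => B.rank - 1 = r), x ^ B.rank ≤ (1 / 4 : ℝ) ^ (r + 1) := by
    intro r _
    have e1 : ∀ B ∈ ((univ : Finset (Matrix S (Fin j) (ZMod 2))).erase 0).filter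
        (fun B => B.rank - 1 = r), B.rank = r + 1 := by
      intro B hB
      rw [mem_filter, mem_erase] at hB
      have := posc_rank_pos hB.1.1
      omega
    rw [sum_congr rfl fun B hB => by rw [e1 B hB], sum_const, nsmul_eq_mul]
    have e2 : (((univ : Finset (Matrix S (Fin j) (ZMod 2))).erase 0).filter
        (fun B => B.rank - 1 = r)).card ≤ 2 ^ ((Fintype.card S + j) * (r + 1)) := by
      refine (card_le_card ?_).trans (posc_card (S := S) j (r + 1))
      intro B hB
      exact mem_filter.2 ⟨mem_univ _, e1 B hB⟩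
    have e3 : (((((univ : Finset (Matrix S (Fin j) (ZMod 2))).erase 0).filter
        (fun B => B.rank - 1 = r)).card : ℕ) : ℝ) ≤ 2 ^ ((Fintype.card S + j) * (r + 1)) := by
      exact_mod_cast e2
    calc _ ≤ (2 : ℝ) ^ ((Fintype.card S + j) * (r + 1)) * x ^ (r + 1) :=
          mul_le_mul_of_nonneg_right e3 (pow_nonneg hx _)
      _ = (2 ^ (Fintype.card S + j) * x) ^ (r + 1) := by rw [pow_mul, ← mul_pow]
      _ ≤ (1 / 4 : ℝ) ^ (r + 1) := pow_le_pow_left₀ (by positivity) h _
  refine (sum_le_sum hterm).trans ((posc_geom (j + 1)).trans ?_)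
  have : (0 : ℝ) ≤ 1 / 3 * (1 / 4) ^ (j + 1) := by positivity
  linarith

end Pool.Agent.Lib.MP_0430e4_lc.Lgv
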