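import Pool.Agent.Lib.MP_0430e4_lc.Lgv.Defs
import Pool.Agent.Lib.MP_0430e4_lc.Lgv.POSC

/-!
# POSB: positivity of the sum over all matrices, stronger version

PROOF. `K = {a : S → ZMod 2 | ∑ a s • Ξ s = 0}`, `π` a linear projection of `S → ZMod 2` onto `K` (Submodule.exists_isCompl).
Apply `π` and `1 - π` to the columns: `B = B1 + B2`, `B1` with columns in `K`, `B2` with columns in the complement `K'`; this is a
bijection of the matrices with the pairs `(B1, B2)`. The tuple of `B` is the tuple `Θ2` of `B2`; it is `0` iff `B2 = 0`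
and `rk Θ2 = B2.rank` (`a ↦ ∑ a s • Ξ s` is injective on `K'`; row rank = column rank). `B.rank <= B1.rank + B2.rank`, `1 <= c`. So
with `Σ0 = ∑_{B1} c^(B1.rank)`: the sum over `B2 = 0` is `Σ0 * F 0 >= Σ0 (1 - 1/M)`, the rest is in absolute value at
most `Σ0 * ∑_{B2 ≠ 0} (c/M)^(B2.rank) <= Σ0 / 3` (posc_sum, `|S| <= j`), and `1/M <= 1/4`.
See POS.lean for a similar proof (rank comparisons).
-/

set_option autoImplicit false

namespace Pool.Agent.Lib.MP_0430e4_lc.Lgv

open Finset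
open Pool.Agent.Lib.MP_0430e4_lc.Lin (W wt chw sg)

variable {n : ℕ}

/-- the image of a coefficient vector -/
def posbL {S : Type} [Fintype S] (Ξ : S → W n) : (S → ZMod 2) →ₗ[ZMod 2] W n where
  toFun a := ∑ s, a s • Ξ s
  map_add' a b := by simp [add_smul, Finset.sum_add_distrib]
  map_smul' r a := by simp [Finset.smul_sum, mul_smul]

theorem posbL_apply {S : Type} [Fintype S] (Ξ : S → W n) (a : S → ZMod 2) :
    posbL Ξ a = ∑ s, a s • Ξ s := rfl

theorem posb_proj {S : Type} [Fintype S] [DecidableEq S] (Ξ : S → W n) :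
    ∃ A : Matrix S S (ZMod 2), A * A = A ∧ (∀ a, posbL Ξ (A.mulVec a) = posbL Ξ a) ∧
      ∀ a, posbL Ξ a = 0 → A.mulVec a = 0 := by
  obtain ⟨g, hg⟩ := (posbL Ξ).rangeRestrict.exists_rightInverse_of_surjective
    (LinearMap.range_rangeRestrict _)
  have hg' : ∀ y, (posbL Ξ).rangeRestrict (g y) = y := fun y => LinearMap.congr_fun hg y
  set q : (S → ZMod 2) →ₗ[ZMod 2] (S → ZMod 2) := g ∘ₗ (posbL Ξ).rangeRestrict with hq
  have h1 : ∀ a, (LinearMap.toMatrix' q).mulVec a = q a := fun a => by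
    rw [← Matrix.toLin'_apply, Matrix.toLin'_toMatrix']
  have hqq : ∀ a, q (q a) = q a := by
    intro a
    simp only [hq, LinearMap.comp_apply, hg']
  refine ⟨LinearMap.toMatrix' q, ?_, ?_, ?_⟩
  · rw [← LinearMap.toMatrix'_comp]
    congr 1
    ext1 i
    apply LinearMap.ext
    intro a
    exact congrArg _ rfl |>.trans (hqq _)
  · intro a
    rw [h1]
    have h2 := hg' ((posbL Ξ).rangeRestrict a)
    have h3 := congrArg Subtype.val h2
    exact h3
  · intro a ha
    rw [h1]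
    have h2 : (posbL Ξ).rangeRestrict a = 0 := Subtype.ext ha
    simp only [hq, LinearMap.comp_apply, h2, map_zero]

theorem posb_rank {S : Type} [Fintype S] [DecidableEq S] {j : ℕ} (Ξ : S → W n)
    {A : Matrix S S (ZMod 2)} (h0 : ∀ a, posbL Ξ a = 0 → A.mulVec a = 0)
    {B : Matrix S (Fin j) (ZMod 2)} (hB : A * B = B) :
    B.rank ≤ rk (fun k => ∑ s, B s k • Ξ s) := by
  have h1 : B.rank = Module.finrank (ZMod 2) (Submodule.span (ZMod 2) (Set.range B.col)) :=
    Matrix.rank_eq_finrank_span_cols B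
  set P : Submodule (ZMod 2) (S → ZMod 2) := Submodule.span (ZMod 2) (Set.range B.col) with hP
  have h2 : P.map (posbL Ξ) =
      Submodule.span (ZMod 2) (Set.range (fun k => ∑ s, B s k • Ξ s)) := by
    rw [hP, Submodule.map_span, ← Set.range_comp]
    rfl
  have hfix : ∀ x ∈ P, A.mulVec x = x := by
    intro x hx
    have hle : P ≤ LinearMap.eqLocus (Matrix.mulVecLin A) LinearMap.id := by
      rw [hP, Submodule.span_le]
      rintro _ ⟨k, rfl⟩
      change A.mulVec (B.col k) = B.col k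
      funext s
      have := congrFun (congrFun hB s) k
      rw [Matrix.mul_apply] at this
      exact this
    exact hle hx
  have h3 := LinearMap.finrank_range_add_finrank_ker ((posbL Ξ).domRestrict P)
  rw [LinearMap.range_domRestrict, h2] at h3
  have h4 : LinearMap.ker ((posbL Ξ).domRestrict P) = ⊥ := by
    rw [LinearMap.ker_eq_bot']
    intro x hx
    have h5 : posbL Ξ (x : S → ZMod 2) = 0 := hx
    have h6 := h0 _ h5
    rw [hfix _ x.2] at h6
    exact Subtype.ext h6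
  rw [h4, finrank_bot, add_zero] at h3
  unfold rk
  rw [h1, ← h3]

theorem posb_rank_add {S : Type} [Fintype S] [DecidableEq S] {j : ℕ}
    (B1 B2 : Matrix S (Fin j) (ZMod 2)) : (B1 + B2).rank ≤ B1.rank + B2.rank := by
  rw [Matrix.rank_eq_finrank_span_cols, Matrix.rank_eq_finrank_span_cols,
    Matrix.rank_eq_finrank_span_cols]
  refine le_trans (Submodule.finrank_mono ?_) (Submodule.finrank_add_le_finrank_add_finrank _ _)
  rw [Submodule.span_le]
  rintro _ ⟨k, rfl⟩
  have h1 : (B1 + B2).col k = B1.col k + B2.col k := rfl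
  rw [h1]
  exact Submodule.add_mem_sup (Submodule.subset_span ⟨k, rfl⟩) (Submodule.subset_span ⟨k, rfl⟩)

/-- Positivity of the sum over all matrices, stronger version. -/
theorem pos_sumB {S : Type} [Fintype S] [DecidableEq S] {j : ℕ} (hS : Fintype.card S ≤ j)
    {M c : ℝ} (hc : 1 ≤ c) (hM : 2 ^ (2 * j + 2) * c ≤ M) {F : (Fin j → W n) → ℝ}
    (hF : ∀ Θ, |F Θ - if Θ = 0 then 1 else 0| ≤ M⁻¹ ^ max (rk Θ) 1) (Ξ : S → W n) :
    0 ≤ ∑ B : Matrix S (Fin j) (ZMod 2), c ^ B.rank * F (fun k => ∑ s, B s k • Ξ s) := by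
  classical
  obtain ⟨A, hAA, hA1, hA0⟩ := posb_proj Ξ
  have hc0 : 0 < c := by linarith
  have h4 : (4 : ℝ) ≤ 2 ^ (2 * j + 2) := by
    calc (4 : ℝ) = 2 ^ 2 := by norm_num
      _ ≤ 2 ^ (2 * j + 2) := pow_le_pow_right₀ (by norm_num) (by omega)
  have hM4 : 4 ≤ M := by nlinarith
  have hM0 : 0 < M := by linarith
  have hMi0 : 0 ≤ M⁻¹ := by positivity
  have hMi1 : M⁻¹ ≤ 1 := inv_le_one_of_one_le₀ (by linarith)
  have hMi4 : M⁻¹ ≤ 1 / 4 := by
    rw [one_div]; exact inv_anti₀ (by norm_num) hM4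
  -- value at zero
  have hF0 : 3 / 4 ≤ F 0 := by
    have h := hF 0
    rw [if_pos rfl] at h
    have h2 : M⁻¹ ^ max (rk (0 : Fin j → W n)) 1 ≤ M⁻¹ :=
      pow_le_of_le_one hMi0 hMi1 (by omega)
    have h3 := (abs_le.1 h).1
    linarith
  set Z : Finset (Matrix S (Fin j) (ZMod 2)) := univ.filter (fun B => A * B = 0) with hZ
  set T : Finset (Matrix S (Fin j) (ZMod 2)) := univ.filter (fun B => A * B = B) with hT
  have hcol : ∀ (B : Matrix S (Fin j) (ZMod 2)) (k : Fin j),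
      (∑ s, B s k • Ξ s) = posbL Ξ (fun s => B s k) := fun B k => rfl
  have hmulcol : ∀ (B : Matrix S (Fin j) (ZMod 2)) (k : Fin j),
      (fun s => (A * B) s k) = A.mulVec (fun s => B s k) := by
    intro B k; funext s; rw [Matrix.mul_apply]; rfl
  have htup : ∀ B1 ∈ Z, ∀ B2 : Matrix S (Fin j) (ZMod 2),
      (fun k => ∑ s, (B1 + B2) s k • Ξ s) = fun k => ∑ s, B2 s k • Ξ s := by
    intro B1 hB1 B2
    funext k
    have h1 : A * B1 = 0 := (mem_filter.1 hB1).2
    have h2 : posbL Ξ (fun s => B1 s k) = 0 := by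
      rw [← hA1, ← hmulcol, h1]
      exact (posbL Ξ).map_zero
    rw [hcol, hcol]
    have h3 : (fun s => (B1 + B2) s k) = (fun s => B1 s k) + fun s => B2 s k := rfl
    rw [h3, map_add, h2, zero_add]
  set g : Matrix S (Fin j) (ZMod 2) → ℝ :=
    fun B => c ^ B.rank * F (fun k => ∑ s, B s k • Ξ s) with hg
  have hmaps : ∀ B ∈ (univ : Finset (Matrix S (Fin j) (ZMod 2))), A * B ∈ T := by
    intro B _
    refine mem_filter.2 ⟨mem_univ _, ?_⟩
    rw [← Matrix.mul_assoc, hAA]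
  have hfib : ∑ B, g B = ∑ B2 ∈ T, ∑ B1 ∈ Z, g (B1 + B2) := by
    rw [← sum_fiberwise_of_maps_to hmaps]
    refine sum_congr rfl fun B2 hB2 => ?_
    have hB2' : A * B2 = B2 := (mem_filter.1 hB2).2
    symm
    refine sum_nbij' (fun B1 => B1 + B2) (fun B => B - B2) ?_ ?_ ?_ ?_ ?_
    · intro B1 hB1
      have h1 : A * B1 = 0 := (mem_filter.1 hB1).2
      refine mem_filter.2 ⟨mem_univ _, ?_⟩
      rw [Matrix.mul_add, h1, hB2', zero_add]
    · intro B hB
      have h1 : A * B = B2 := (mem_filter.1 hB).2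
      refine mem_filter.2 ⟨mem_univ _, ?_⟩
      rw [Matrix.mul_sub, h1, hB2', sub_self]
    · intro B1 _; exact add_sub_cancel_right _ _
    · intro B _; exact sub_add_cancel _ _
    · intro B1 _; rfl
  set S0 : ℝ := ∑ B1 ∈ Z, c ^ B1.rank with hS0
  have hS00 : 0 ≤ S0 := sum_nonneg fun _ _ => by positivity
  have h0T : (0 : Matrix S (Fin j) (ZMod 2)) ∈ T :=
    mem_filter.2 ⟨mem_univ _, Matrix.mul_zero _⟩
  have hzero : S0 * (3 / 4) ≤ ∑ B1 ∈ Z, g (B1 + 0) := by
    rw [hS0, sum_mul]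
    refine sum_le_sum fun B1 hB1 => ?_
    have e := htup B1 hB1 0
    have e2 : (fun k => ∑ s, (0 : Matrix S (Fin j) (ZMod 2)) s k • Ξ s) = (0 : Fin j → W n) := by
      funext k; simp
    have e3 : g (B1 + 0) = c ^ B1.rank * F 0 := by
      simp only [hg]
      rw [e, e2, add_zero]
    rw [e3]
    exact mul_le_mul_of_nonneg_left hF0 (by positivity)
  have hother : ∀ B2 ∈ T.erase 0, -(S0 * (c / M) ^ B2.rank) ≤ ∑ B1 ∈ Z, g (B1 + B2) := by
    intro B2 hB2
    obtain ⟨hne, hB2T⟩ := mem_erase.1 hB2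
    have hB2' : A * B2 = B2 := (mem_filter.1 hB2T).2
    have hr := posb_rank Ξ hA0 hB2'
    have hr0 := posc_rank_pos hne
    have hne' : (fun k => ∑ s, B2 s k • Ξ s) ≠ (0 : Fin j → W n) := by
      intro h
      apply hr0
      have h1 : rk (fun k => ∑ s, B2 s k • Ξ s) = 0 := by
        rw [h]
        unfold rk
        have h2 : Submodule.span (ZMod 2) (Set.range (0 : Fin j → W n)) = ⊥ := by
          rw [Submodule.span_eq_bot]
          rintro _ ⟨k, rfl⟩
          rfl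
        rw [h2, finrank_bot]
      omega
    have h := hF (fun k => ∑ s, B2 s k • Ξ s)
    rw [if_neg hne', sub_zero] at h
    have hb : M⁻¹ ^ max (rk (fun k => ∑ s, B2 s k • Ξ s)) 1 ≤ M⁻¹ ^ B2.rank :=
      pow_le_pow_of_le_one hMi0 hMi1 (by omega)
    have hF2 : -(M⁻¹ ^ B2.rank) ≤ F (fun k => ∑ s, B2 s k • Ξ s) := by
      have := (abs_le.1 h).1
      linarith
    have hneg : -(S0 * (c / M) ^ B2.rank) =
        ∑ B1 ∈ Z, -(c ^ B1.rank * (c / M) ^ B2.rank) := by
      rw [sum_neg_distrib, hS0, sum_mul]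
    rw [hneg]
    refine sum_le_sum fun B1 hB1 => ?_
    have e := htup B1 hB1 B2
    have e3 : g (B1 + B2) = c ^ (B1 + B2).rank * F (fun k => ∑ s, B2 s k • Ξ s) := by
      simp only [hg]
      rw [e]
    rw [e3]
    have hrk : (B1 + B2).rank ≤ B1.rank + B2.rank := posb_rank_add B1 B2
    have hp : c ^ (B1 + B2).rank ≤ c ^ B1.rank * c ^ B2.rank := by
      rw [← pow_add]; exact pow_le_pow_right₀ hc hrk
    have e4 : c ^ B1.rank * (c / M) ^ B2.rank = (c ^ B1.rank * c ^ B2.rank) * M⁻¹ ^ B2.rank := by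
      rw [div_eq_mul_inv, mul_pow]; ring
    rw [e4]
    have hMp : 0 ≤ M⁻¹ ^ B2.rank := by positivity
    have hcp : 0 ≤ c ^ (B1 + B2).rank := by positivity
    nlinarith [mul_le_mul_of_nonneg_left hF2 hcp, mul_le_mul_of_nonneg_right hp hMp]
  have hxs : ∑ B ∈ (univ : Finset (Matrix S (Fin j) (ZMod 2))).erase 0,
      (c / M) ^ B.rank ≤ 1 / 3 := by
    apply posc_sum (by positivity)
    have h1 : (2 : ℝ) ^ (Fintype.card S + j) ≤ 2 ^ (2 * j) :=
      pow_le_pow_right₀ (by norm_num) (by omega)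
    have h2 : c / M ≤ 1 / 2 ^ (2 * j + 2) := by
      rw [div_le_div_iff₀ hM0 (by positivity)]
      linarith
    calc (2 : ℝ) ^ (Fintype.card S + j) * (c / M) ≤ 2 ^ (2 * j) * (1 / 2 ^ (2 * j + 2)) :=
          mul_le_mul h1 h2 (by positivity) (by positivity)
      _ = 1 / 4 := by rw [pow_add]; field_simp; norm_num
  have hsub : ∑ B ∈ T.erase 0, (c / M) ^ B.rank ≤ 1 / 3 := by
    refine le_trans (sum_le_sum_of_subset_of_nonneg ?_ ?_) hxs
    · exact erase_subset_erase _ (subset_univ _)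
    · intro B _ _; positivity
  have hsum2 : -(S0 * (1 / 3)) ≤ ∑ B2 ∈ T.erase 0, ∑ B1 ∈ Z, g (B1 + B2) := by
    refine le_trans ?_ (sum_le_sum hother)
    rw [sum_neg_distrib, ← mul_sum]
    have := mul_le_mul_of_nonneg_left hsub hS00
    linarith
  change 0 ≤ ∑ B, g B
  rw [hfib, ← add_sum_erase _ _ h0T]
  nlinarith

end Pool.Agent.Lib.MP_0430e4_lc.Lgv
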