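import Pool.Agent.Lib.MP_0430e4_lc.Lgv.FA
import Pool.Agent.Lib.MP_0430e4_lc.Lgv.FB
import Pool.Agent.Lib.MP_0430e4_lc.Lgv.ORB
import Pool.Agent.Lib.MP_0430e4_lc.Lgv.ROW
import Pool.Agent.Lib.MP_0430e4_lc.Lgv.POSB

/-!
# PARB: positivity of the partial transforms, stronger version

PROOF. Use `fA_sum`; the denominator is nonnegative (gg_nonneg). `u` = dimension of the span of `X j`, `j ∉ S`, `Xb` a
basis of this span. For `Y` with `gg φ Y = 0` the terms vanish, for `gg φ Y ≠ 0` the map `cmb Y` is injective (good_of_gg,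
`1 <= d`), so `row_split` (with `g a = gg φ Y * ∏ s, chw (Ξ s) (cmb Y (a s))`) gives: numerator =
`∑_b [b independent] ∑_Y ∑_a ...`, and for each independent `b` the inner sum is given by `orbit` with
`S` as a type and `j = l - u`. If `gg φ Xb = 0` it is `0`. Otherwise `Xb` is `Good` (good_of_gg) and
`pos_sumB` (`|S| <= l - u = j`) gives positivity; the other factors are nonnegative (`1 + chw >= 0`).
-/

set_option autoImplicit false

namespace Pool.Agent.Lib.MP_0430e4_lc.Lgv

open Finset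
open Pool.Agent.Lib.MP_0430e4_lc.Lin (W wt chw sg)

variable {n : ℕ}

/-- Positivity of the partial transforms. -/
theorem par_nonnegB {l d : ℕ} (hd : 1 ≤ d) {φ : W n → ℝ} {M c : ℝ}
    (hφ0 : ∀ x, wt x < d → φ x = -1)
    (hφ1 : ∀ x, -1 ≤ φ x) (hc : 1 ≤ c) (hM : 2 ^ (2 * l + 2) * c ≤ M)
    (hG : ∀ u j : ℕ, u + j = l → ∀ X : Fin u → W n, Good d X → ∀ Θ : Fin j → W n,
      |Gh φ X Θ - if Θ = 0 then 1 else 0| ≤ M⁻¹ ^ max (rk Θ) 1)
    (S : Finset (Fin l)) (X Ξ : Fin l → W n) :
    0 ≤ ∑ Z ∈ univ.filter (fun Z : Fin l → W n => ∀ j, j ∉ S → Z j = X j),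
      fA c φ Z * ∏ j ∈ S, chw (Ξ j) (Z j) := by
  classical
  rw [fA_sum]
  refine div_nonneg ?_ (sum_nonneg fun Y _ => gg_nonneg hφ1 Y)
  have hc0 : 0 ≤ c := zero_le_one.trans hc
  set V := Submodule.span (ZMod 2) (X '' {j | j ∉ S}) with hV
  set u := Module.finrank (ZMod 2) V with hu
  set bs := Module.finBasis (ZMod 2) V with hbs
  set Xb : Fin u → W n := fun i => (bs i : W n) with hXb
  have hXbi : LinearIndependent (ZMod 2) Xb :=
    bs.linearIndependent.map' V.subtype (Submodule.ker_subtype V)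
  have hXbs : Submodule.span (ZMod 2) (Set.range Xb) = V := by
    have h1 : Set.range Xb = V.subtype '' Set.range bs := by
      rw [← Set.range_comp]
      rfl
    rw [h1, Submodule.span_image, bs.span_eq, Submodule.map_top, Submodule.range_subtype]
  have hcard : u ≤ (Sᶜ : Finset (Fin l)).card := by
    have h1 : X '' {j | j ∉ S} = ((Sᶜ).image X : Finset (W n)) := by
      rw [coe_image]
      congr 1
      ext j
      simp
    rw [hu, hV, h1]
    exact (finrank_span_finset_le_card _).trans card_image_le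
  rw [card_compl, Fintype.card_fin] at hcard
  have hSl : S.card ≤ l := by
    simpa using card_le_univ S
  have huj : u + (l - u) = l := by omega
  -- the numerator
  have h1 : ∑ A : Matrix (Fin l) (Fin l) (ZMod 2), c ^ A.rank * ∑ Y : Fin l → W n,
      (if ∀ j, j ∉ S → cmb Y (A j) = X j then gg φ Y * ∏ j ∈ S, chw (Ξ j) (cmb Y (A j)) else 0) =
      ∑ b : Fin u → Fin l → ZMod 2, if LinearIndependent (ZMod 2) b then
        ∑ Y : Fin l → W n, ∑ a : {j // j ∈ S} → Fin l → ZMod 2,
          (if ∀ i, cmb Y (b i) = Xb i then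
            c ^ Module.finrank (ZMod 2) (Submodule.span (ZMod 2) (Set.range b ∪ Set.range a)) *
              (gg φ Y * ∏ s : {j // j ∈ S}, chw (Ξ s) (cmb Y (a s))) else 0) else 0 := by
    have h2 : ∀ Y : Fin l → W n, ∑ A : Matrix (Fin l) (Fin l) (ZMod 2),
        (if ∀ j, j ∉ S → cmb Y (A j) = X j then
          c ^ A.rank * (gg φ Y * ∏ s : {j // j ∈ S}, chw (Ξ s) (cmb Y (A s))) else 0) =
        ∑ b : Fin u → Fin l → ZMod 2, if LinearIndependent (ZMod 2) b then
          ∑ a : {j // j ∈ S} → Fin l → ZMod 2, (if ∀ i, cmb Y (b i) = Xb i then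
            c ^ Module.finrank (ZMod 2) (Submodule.span (ZMod 2) (Set.range b ∪ Set.range a)) *
              (gg φ Y * ∏ s : {j // j ∈ S}, chw (Ξ s) (cmb Y (a s))) else 0) else 0 := by
      intro Y
      by_cases hY : gg φ Y = 0
      · simp [hY]
      · have hinj : ∀ a, cmb Y a = 0 → a = 0 := by
          intro a ha
          by_contra hne
          have := good_of_gg hφ0 hY a hne
          rw [ha] at this
          have h3 : wt (0 : W n) = 0 := by
            unfold Lin.wt
            simp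
          omega
        have := row_split hinj S X hXbi (by rw [hXbs]) c
          (fun a => gg φ Y * ∏ s : {j // j ∈ S}, chw (Ξ s) (cmb Y (a s)))
        convert this
    have h3 : ∑ A : Matrix (Fin l) (Fin l) (ZMod 2), c ^ A.rank * ∑ Y : Fin l → W n,
        (if ∀ j, j ∉ S → cmb Y (A j) = X j then gg φ Y * ∏ j ∈ S, chw (Ξ j) (cmb Y (A j))
          else 0) =
        ∑ Y : Fin l → W n, ∑ A : Matrix (Fin l) (Fin l) (ZMod 2),
        (if ∀ j, j ∉ S → cmb Y (A j) = X j then
          c ^ A.rank * (gg φ Y * ∏ s : {j // j ∈ S}, chw (Ξ s) (cmb Y (A s))) else 0) := by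
      rw [sum_comm]
      refine sum_congr rfl fun A _ => ?_
      rw [mul_sum]
      refine sum_congr rfl fun Y _ => ?_
      rw [mul_ite, mul_zero]
      congr 2
      rw [prod_coe_sort S fun j => chw (Ξ j) (cmb Y (A j))]
    rw [h3, sum_congr rfl fun Y _ => h2 Y, sum_comm]
    refine sum_congr rfl fun b _ => ?_
    split_ifs with hb
    · rfl
    · simp
  rw [h1]
  refine sum_nonneg fun b _ => ?_
  split_ifs with hb
  swap
  · exact le_refl _
  rw [orbit huj φ c Xb b hb (fun s : {j // j ∈ S} => Ξ s)]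
  by_cases hg : gg φ Xb = 0
  · rw [hg]
    simp
  have hgood : Good d Xb := good_of_gg hφ0 hg
  have hpos := pos_sumB (S := {j // j ∈ S}) (j := l - u)
    (by rw [Fintype.card_coe]; omega) hc
    (le_trans (mul_le_mul_of_nonneg_right (pow_le_pow_right₀ (by norm_num) (by omega)) hc0) hM)
    (F := Gh φ Xb) (fun Θ => hG u (l - u) huj Xb hgood Θ) (fun s : {j // j ∈ S} => Ξ s)
  have h4 : 0 ≤ ∏ s : {j // j ∈ S}, ∏ i, (1 + chw (Ξ s) (Xb i)) := by
    refine prod_nonneg fun s _ => prod_nonneg fun i _ => ?_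
    have := neg_abs_le (chw (Ξ s) (Xb i))
    rw [Lin.abs_chw] at this
    linarith
  have h5 := gg_nonneg hφ1 Xb
  exact mul_nonneg (mul_nonneg (mul_nonneg (mul_nonneg h5 h4) (pow_nonneg hc0 _))
    (by positivity)) hpos

end Pool.Agent.Lib.MP_0430e4_lc.Lgv
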