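import Pool.Agent.Lib.MP_0430e4_lc.Lgv.Defs

/-!
# TILT: one column

PROOF. With `s x = 1 - 2 * (if x = 0 then 0 else 1)` (the sign `(-1)^x`, multiplicative) we have
`(if x = 0 then 1 else ϱ) = (1 + ϱ)/2 + (1 - ϱ)/2 * s x`; expand: the first part is the product
`(1 + r)^card ι`, the second is `s y * ∏_{q ∈ J} (1 - r) * ∏_{q ∉ J} (1 + r)`
(Finset.prod_univ_sum, the sum over `b` factorises).
-/

set_option autoImplicit false

namespace Pool.Agent.Lib.MP_0430e4_lc.Lgv

open Finset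
open Pool.Agent.Lib.MP_0430e4_lc.Lin (W wt chw sg)

private theorem tilt_two (f : ZMod 2 → ℝ) : ∑ x, f x = f 0 + f 1 := Fin.sum_univ_two f

private theorem tilt_prod {ι : Type} [Fintype ι] [DecidableEq ι] (f : ι → ZMod 2 → ℝ) :
    ∑ b : ι → ZMod 2, ∏ q, f q (b q) = ∏ q, (f q 0 + f q 1) := by
  have h := Finset.prod_univ_sum (fun _ : ι => (univ : Finset (ZMod 2))) f
  rw [Fintype.piFinset_univ] at h
  rw [← h]
  exact prod_congr rfl fun q _ => tilt_two _

theorem sum_tilt0 {ι : Type} [Fintype ι] [DecidableEq ι] (r : ℝ) :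
    ∑ b : ι → ZMod 2, ∏ q, (if b q = 0 then 1 else r) = (1 + r) ^ Fintype.card ι := by
  rw [tilt_prod (fun _ x => if x = 0 then (1 : ℝ) else r)]
  simp

/-- the sign of a bit -/
private def tilt_s (x : ZMod 2) : ℝ := if x = 0 then 1 else -1

private theorem tilt_cases (x : ZMod 2) : x = 0 ∨ x = 1 := by
  revert x
  decide

private theorem tilt_s_add (x y : ZMod 2) : tilt_s (x + y) = tilt_s x * tilt_s y := by
  rcases tilt_cases x with rfl | rfl <;> rcases tilt_cases y with rfl | rfl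
  · simp [tilt_s]
  · simp [tilt_s]
  · simp [tilt_s]
  · rw [show (1 : ZMod 2) + 1 = 0 from rfl]
    simp [tilt_s]

private theorem tilt_s_sum {ι : Type} [DecidableEq ι] (J : Finset ι) (b : ι → ZMod 2) :
    tilt_s (∑ q ∈ J, b q) = ∏ q ∈ J, tilt_s (b q) := by
  induction J using Finset.induction_on with
  | empty => simp [tilt_s]
  | insert a s ha ih => rw [sum_insert ha, prod_insert ha, tilt_s_add, ih]

/-- One column. -/
theorem sum_tilt {ι : Type} [Fintype ι] [DecidableEq ι] (r ϱ : ℝ) (J : Finset ι) (y : ZMod 2) :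
    ∑ b : ι → ZMod 2, (∏ q, (if b q = 0 then 1 else r)) * (if y + ∑ q ∈ J, b q = 0 then 1 else ϱ) =
      (1 + ϱ) / 2 * (1 + r) ^ Fintype.card ι +
        (1 - ϱ) / 2 * (if y = 0 then 1 else -1) * (1 - r) ^ J.card *
          (1 + r) ^ (Fintype.card ι - J.card) := by
  have h1 : ∀ b : ι → ZMod 2,
      (∏ q, (if b q = 0 then 1 else r)) * (if y + ∑ q ∈ J, b q = 0 then 1 else ϱ) =
        (1 + ϱ) / 2 * ∏ q, (if b q = 0 then 1 else r) +
          (1 - ϱ) / 2 * tilt_s y *
            ∏ q, (if b q = 0 then 1 else r) * (if q ∈ J then tilt_s (b q) else 1) := by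
    intro b
    have h2 : (if y + ∑ q ∈ J, b q = 0 then 1 else ϱ) =
        (1 + ϱ) / 2 + (1 - ϱ) / 2 * (tilt_s y * ∏ q ∈ J, tilt_s (b q)) := by
      rw [← tilt_s_sum, ← tilt_s_add]
      unfold tilt_s
      split_ifs <;> ring
    have h3 : ∏ q, (if q ∈ J then tilt_s (b q) else 1) = ∏ q ∈ J, tilt_s (b q) := by
      rw [Finset.prod_ite_mem, univ_inter]
    rw [h2, prod_mul_distrib, h3]
    ring
  rw [sum_congr rfl fun b _ => h1 b, sum_add_distrib, ← mul_sum, ← mul_sum, sum_tilt0]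
  rw [tilt_prod (fun q x => (if x = 0 then (1 : ℝ) else r) * (if q ∈ J then tilt_s x else 1))]
  have h4 : ∏ q, ((if (0 : ZMod 2) = 0 then (1 : ℝ) else r) * (if q ∈ J then tilt_s 0 else 1) +
      (if (1 : ZMod 2) = 0 then (1 : ℝ) else r) * (if q ∈ J then tilt_s 1 else 1)) =
      ∏ q, (if q ∈ J then (1 - r) else (1 + r)) := by
    refine prod_congr rfl fun q _ => ?_
    by_cases hq : q ∈ J
    · simp only [hq, if_true, tilt_s]
      simp
      ring
    · simp [hq]
  rw [h4, Finset.prod_ite, prod_const, prod_const]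
  have h5 : (univ.filter (fun q => q ∈ J)) = J := by ext; simp
  have h6 : (univ.filter (fun q => ¬ q ∈ J)) = Jᶜ := by ext; simp
  rw [h5, h6, card_compl]
  unfold tilt_s
  ring

end Pool.Agent.Lib.MP_0430e4_lc.Lgv
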