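import Pool.Agent.Lib.MP_0430e4_lc.Lgv.COL
import Pool.Agent.Lib.MP_0430e4_lc.Lgv.TILT

/-!
# PRB: the probability that several combinations are in the ball

PROOF. `r = δ/(1-δ) <= 1`, `1 + r = 1/(1-δ)`, `(1 - r)/(1 + r) = 1 - 2δ`.
`bl d x <= (1/r)^d r^(wt x)`, `r^(wt x) = ∏_i (if x i = 0 then 1 else r)`.
avg_ind: `sum_col` and `sum_tilt0` give at most
`(1/r)^(d |T|) (2^(j - |T|) (1 + r)^|T|)^n / 2^(n j) = (1/r)^(d|T|) ((1+r)/2)^(n |T|)`; `(1+r)/2 = 1/(2(1-δ))`.
avg_dep: `bl d (wd X Z p) <= (1/ϱ)^d ϱ^(wt)`, `ϱ = 1/(2(1-δ)) <= 1`. Write `p.2 = ∑_{q ∈ J} q.2` with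
`J` a nonempty set of elements of `T`. Then `wd X Z p = y + ∑_{q ∈ J} wd X Z q`, `y = cmb X (p.1 + ∑_J q.1)`.
`sum_col` and `sum_tilt` give `∏_i 2^(j-|T|) (1+r)^|T| (1 - (1-ϱ) m_i)` with
`m_i = (1 - (-1)^(y i) (1-2δ)^|J|)/2`.
If `|J| >= 2`: `m_i >= 2δ(1-δ)`. If `J = {q}`: `m_i = δ` if `y i = 0`, else `1 - δ`; `q.1 ≠ p.1` (otherwise
`p = q ∈ T`), so `wt y >= d >= δ n` by `Good`, and `∑_i m_i = δ n + (1-2δ) wt y >= 2δ(1-δ) n`.
Finally `∏ (1 - (1-ϱ) m_i) <= exp(-(1-ϱ) ∑ m_i)`.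
-/

set_option autoImplicit false

namespace Pool.Agent.Lib.MP_0430e4_lc.Lgv

open Finset
open Pool.Agent.Lib.MP_0430e4_lc.Lin (W wt chw sg)

variable {n : ℕ}

theorem PRB_pow_wt (r : ℝ) (x : W n) : ∏ i, (if x i = 0 then (1 : ℝ) else r) = r ^ wt x := by
  unfold wt
  rw [Finset.prod_ite, prod_const_one, one_mul, prod_const]

theorem PRB_bl_le {r : ℝ} (h0 : 0 < r) (h1 : r ≤ 1) (d : ℕ) (x : W n) :
    bl d x ≤ (1 / r) ^ d * ∏ i, (if x i = 0 then (1 : ℝ) else r) := by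
  rw [PRB_pow_wt]
  unfold bl
  split_ifs with h
  · rw [one_div, inv_pow, ← div_eq_inv_mul, le_div_iff₀ (pow_pos h0 d), one_mul]
    exact pow_le_pow_of_le_one h0.le h1 h.le
  · positivity

theorem PRB_bl_nonneg (d : ℕ) (x : W n) : 0 ≤ bl d x := by
  unfold bl
  split_ifs <;> norm_num

theorem PRB_prod_le {u j d : ℕ} {r : ℝ} (h0 : 0 < r) (h1 : r ≤ 1) (X : Fin u → W n)
    (Z : Fin j → W n) (T : Finset (P u j)) :
    ∏ p ∈ T, bl d (wd X Z p) ≤ ((1 / r) ^ d) ^ T.card *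
      ∏ i, ∏ p : {p // p ∈ T}, (if wd X Z p i = 0 then (1 : ℝ) else r) := by
  calc ∏ p ∈ T, bl d (wd X Z p)
      ≤ ∏ p ∈ T, ((1 / r) ^ d * ∏ i, (if wd X Z p i = 0 then (1 : ℝ) else r)) :=
        Finset.prod_le_prod (fun p _ => PRB_bl_nonneg d _) (fun p _ => PRB_bl_le h0 h1 d _)
    _ = ((1 / r) ^ d) ^ T.card * ∏ p ∈ T, ∏ i, (if wd X Z p i = 0 then (1 : ℝ) else r) := by
        rw [prod_mul_distrib, prod_const]
    _ = ((1 / r) ^ d) ^ T.card *
      ∏ i, ∏ p : {p // p ∈ T}, (if wd X Z p i = 0 then (1 : ℝ) else r) := by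
        rw [prod_comm]
        congr 1
        refine prod_congr rfl fun i _ => ?_
        exact (Finset.prod_coe_sort T (fun p => if wd X Z p i = 0 then (1 : ℝ) else r)).symm

theorem PRB_pow_split {j t : ℕ} (h : t ≤ j) (n : ℕ) (a : ℝ) :
    (2 ^ (j - t) * a ^ t) ^ n / 2 ^ (n * j) = ((a / 2) ^ n) ^ t := by
  have e : (2 : ℝ) ^ (n * j) = (2 ^ (j - t)) ^ n * (2 ^ n) ^ t := by
    rw [← pow_mul, ← pow_mul, ← pow_add]
    congr 1
    obtain ⟨m, rfl⟩ := Nat.exists_eq_add_of_le h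
    rw [Nat.add_sub_cancel_left]
    ring
  rw [e, mul_pow, mul_div_mul_left _ _ (by positivity), div_pow, div_pow, ← pow_mul, ← pow_mul,
    ← pow_mul, mul_comm t n]

/-- Independent words are rarely all in the ball. -/
theorem avg_ind {u j d : ℕ} {δ : ℝ} (h0 : 0 < δ) (h1 : δ ≤ 1 / 2) (X : Fin u → W n)
    {T : Finset (P u j)} (hT : Indp T) :
    (∑ Z : Fin j → W n, ∏ p ∈ T, bl d (wd X Z p)) / 2 ^ (n * j) ≤ bet δ n d ^ T.card := by
  have hd1 : 0 < 1 - δ := by linarith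
  have hr0 : 0 < δ / (1 - δ) := div_pos h0 hd1
  have hr1 : δ / (1 - δ) ≤ 1 := by
    rw [div_le_one hd1]
    linarith
  set r := δ / (1 - δ) with hr
  have e1 : (1 + r) / 2 = 1 / (2 * (1 - δ)) := by
    rw [hr]
    field_simp
    ring
  have e2 : 1 / r = (1 - δ) / δ := by
    rw [hr, one_div_div]
  have hs : ∑ Z : Fin j → W n, ∏ p ∈ T, bl d (wd X Z p) ≤
      ((1 / r) ^ d) ^ T.card * (2 ^ (j - T.card) * (1 + r) ^ T.card) ^ n := by
    calc ∑ Z : Fin j → W n, ∏ p ∈ T, bl d (wd X Z p)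
        ≤ ∑ Z : Fin j → W n, ((1 / r) ^ d) ^ T.card *
            ∏ i, ∏ p : {p // p ∈ T}, (if wd X Z p i = 0 then (1 : ℝ) else r) :=
          sum_le_sum fun Z _ => PRB_prod_le hr0 hr1 X Z T
      _ = ((1 / r) ^ d) ^ T.card * ∑ Z : Fin j → W n,
            ∏ i, ∏ p : {p // p ∈ T}, (if wd X Z p i = 0 then (1 : ℝ) else r) := by
          rw [mul_sum]
      _ = _ := by
          congr 1
          have := sum_col X hT (fun _ b => ∏ p, (if b p = 0 then (1 : ℝ) else r))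
          rw [this, sum_tilt0, prod_const, Fintype.card_coe, card_univ, Fintype.card_fin]
  have h2 : 0 < (2 : ℝ) ^ (n * j) := by positivity
  calc (∑ Z : Fin j → W n, ∏ p ∈ T, bl d (wd X Z p)) / 2 ^ (n * j)
      ≤ ((1 / r) ^ d) ^ T.card * (2 ^ (j - T.card) * (1 + r) ^ T.card) ^ n / 2 ^ (n * j) :=
        div_le_div_of_nonneg_right hs h2.le
    _ = ((1 / r) ^ d) ^ T.card * (((1 + r) / 2) ^ n) ^ T.card := by
        rw [mul_div_assoc, PRB_pow_split (card_le_of_indp hT)]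
    _ = bet δ n d ^ T.card := by
        unfold bet
        rw [← mul_pow, e1, e2]

theorem PRB_add_self (a : ZMod 2) : a + a = 0 := by
  have : ∀ a : ZMod 2, a + a = 0 := by decide
  exact this a

theorem PRB_cmb_add {ι : Type} [Fintype ι] (Y : ι → W n) (a b : ι → ZMod 2) :
    cmb Y (a + b) = cmb Y a + cmb Y b := by
  unfold cmb
  rw [← sum_add_distrib]
  exact sum_congr rfl fun k _ => add_smul _ _ _

theorem PRB_cmb_sum {ι κ : Type} [Fintype ι] (Y : ι → W n) (J : Finset κ)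
    (a : κ → ι → ZMod 2) : cmb Y (∑ q ∈ J, a q) = ∑ q ∈ J, cmb Y (a q) := by
  classical
  induction J using Finset.induction_on with
  | empty =>
    unfold cmb
    simp
  | insert q J hq ih => rw [sum_insert hq, sum_insert hq, PRB_cmb_add, ih]

/-- The dependent word is a sum. -/
theorem PRB_wd {u j : ℕ} (X : Fin u → W n) (Z : Fin j → W n) {T : Finset (P u j)}
    (J : Finset {p // p ∈ T}) {p : P u j} (hp : p.2 = ∑ q ∈ J, (q : P u j).2) :
    wd X Z p = cmb X (p.1 + ∑ q ∈ J, (q : P u j).1) + ∑ q ∈ J, wd X Z q := by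
  unfold wd
  rw [sum_add_distrib, hp, PRB_cmb_add, PRB_cmb_sum, PRB_cmb_sum]
  funext i
  simp only [Pi.add_apply]
  have h := PRB_add_self ((∑ q ∈ J, cmb X (q : P u j).1) i)
  linear_combination -h

theorem PRB_exists_J {u j : ℕ} {T : Finset (P u j)} {p : P u j}
    (hs : p.2 ∈ Submodule.span (ZMod 2) (Prod.snd '' (T : Set (P u j)))) :
    ∃ J : Finset {p // p ∈ T}, p.2 = ∑ q ∈ J, (q : P u j).2 := by
  have e : Prod.snd '' (T : Set (P u j)) =
      Set.range (fun q : {p // p ∈ T} => (q : P u j).2) := by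
    ext x
    simp only [Set.mem_image, Set.mem_range, Finset.mem_coe, Subtype.exists]
    constructor
    · rintro ⟨q, hq, rfl⟩
      exact ⟨q, hq, rfl⟩
    · rintro ⟨q, hq, rfl⟩
      exact ⟨q, hq, rfl⟩
  rw [e, Submodule.mem_span_range_iff_exists_fun] at hs
  obtain ⟨c, hc⟩ := hs
  refine ⟨univ.filter fun q => c q ≠ 0, ?_⟩
  rw [← hc, sum_filter]
  refine sum_congr rfl fun q _ => ?_
  have h2 : ∀ a : ZMod 2, a ≠ 0 → a = 1 := by decide
  split_ifs with h
  · rw [h2 _ h, one_smul]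
  · push Not at h
    rw [h, zero_smul]

/-- The exponent. -/
theorem PRB_sum_m {δ : ℝ} (h0 : 0 < δ) (h1 : δ < 1 / 2) {m : ℕ} (hm : 1 ≤ m) (y : W n)
    (hy : m = 1 → δ * n ≤ wt y) :
    2 * δ * (1 - δ) * n ≤ ∑ i, (1 - (if y i = 0 then 1 else -1) * (1 - 2 * δ) ^ m) / 2 := by
  by_cases h : m = 1
  · subst h
    have e : ∀ i, (1 - (if y i = 0 then (1 : ℝ) else -1) * (1 - 2 * δ) ^ 1) / 2 =
        δ + (1 - 2 * δ) * (if y i ≠ 0 then 1 else 0) := by
      intro i
      by_cases hi : y i = 0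
      · rw [if_pos hi, if_neg (not_not.2 hi)]
        ring
      · rw [if_neg hi, if_pos hi]
        ring
    rw [sum_congr rfl fun i _ => e i, sum_add_distrib, sum_const, card_univ, Fintype.card_fin,
      nsmul_eq_mul, ← mul_sum, ← Finset.sum_filter, sum_const, nsmul_eq_mul, mul_one]
    have h2 : δ * n ≤ wt y := hy rfl
    unfold wt at h2
    have h3 : 0 ≤ 1 - 2 * δ := by linarith
    nlinarith [mul_le_mul_of_nonneg_left h2 h3]
  · have h2 : 2 ≤ m := by omega
    have h3 : (1 - 2 * δ) ^ m ≤ (1 - 2 * δ) ^ 2 :=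
      pow_le_pow_of_le_one (by linarith) (by linarith) h2
    have h4 : 0 ≤ (1 - 2 * δ) ^ m := pow_nonneg (by linarith) m
    calc 2 * δ * (1 - δ) * n = ∑ _i : Fin n, 2 * δ * (1 - δ) := by
          rw [sum_const, card_univ, Fintype.card_fin, nsmul_eq_mul]
          ring
      _ ≤ _ := by
          refine sum_le_sum fun i _ => ?_
          split_ifs
          · nlinarith
          · nlinarith

/-- One more dependent word gives an additional gain. -/
theorem avg_dep {u j d : ℕ} {δ : ℝ} (h0 : 0 < δ) (h1 : δ < 1 / 2) (hd : δ * n ≤ d)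
    {X : Fin u → W n} (hX : Good d X) {T : Finset (P u j)} (hT : Indp T) {p : P u j}
    (hp : p ∉ T) (hp2 : p.2 ≠ 0)
    (hs : p.2 ∈ Submodule.span (ZMod 2) (Prod.snd '' (T : Set (P u j)))) :
    (∑ Z : Fin j → W n, (∏ q ∈ T, bl d (wd X Z q)) * bl d (wd X Z p)) / 2 ^ (n * j) ≤
      gam δ n d * bet δ n d ^ T.card := by
  obtain ⟨J, hJ⟩ := PRB_exists_J hs
  have hd1 : 0 < 1 - δ := by linarith
  have hr0 : 0 < δ / (1 - δ) := div_pos h0 hd1
  have hr1 : δ / (1 - δ) ≤ 1 := by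
    rw [div_le_one hd1]
    linarith
  set r := δ / (1 - δ) with hr
  have e1 : (1 + r) / 2 = 1 / (2 * (1 - δ)) := by
    rw [hr]
    field_simp
    ring
  have e2 : 1 / r = (1 - δ) / δ := by
    rw [hr, one_div_div]
  have e3 : 1 - r = (1 - 2 * δ) * (1 + r) := by
    rw [hr]
    field_simp
    ring
  have hρ0 : 0 < 1 / (2 * (1 - δ)) := by positivity
  have hρ1 : 1 / (2 * (1 - δ)) ≤ 1 := by
    rw [div_le_one (by positivity)]
    linarith
  set ϱ := 1 / (2 * (1 - δ)) with hϱ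
  have e4 : 1 / ϱ = 2 * (1 - δ) := by
    rw [hϱ, one_div_one_div]
  set y : W n := cmb X (p.1 + ∑ q ∈ J, (q : P u j).1) with hy
  have hJ1 : 1 ≤ J.card := by
    rw [Nat.one_le_iff_ne_zero]
    intro h
    rw [Finset.card_eq_zero] at h
    rw [h, sum_empty] at hJ
    exact hp2 hJ
  have hJT : J.card ≤ T.card := by
    have := Finset.card_le_univ J
    rwa [Fintype.card_coe] at this
  have hyw : J.card = 1 → δ * n ≤ wt y := by
    intro h
    obtain ⟨q, hq⟩ := Finset.card_eq_one.1 h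
    refine hd.trans ?_
    have h2 := hX (p.1 + ∑ q ∈ J, (q : P u j).1) (by
      rw [hq, sum_singleton]
      intro h3
      apply hp
      have h4 : p.1 = (q : P u j).1 := by
        funext i
        have h5 := congrFun h3 i
        simp only [Pi.add_apply, Pi.zero_apply] at h5
        have h6 := PRB_add_self ((q : P u j).1 i)
        linear_combination h5 - h6
      have h5 : p.2 = (q : P u j).2 := by
        rw [hJ, hq, sum_singleton]
      have h6 : p = (q : P u j) := Prod.ext h4 h5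
      rw [h6]
      exact q.2)
    exact_mod_cast h2
  have hsum : ∑ Z : Fin j → W n, (∏ q ∈ T, bl d (wd X Z q)) * bl d (wd X Z p) ≤
      ((1 / r) ^ d) ^ T.card * (1 / ϱ) ^ d * ((2 ^ (j - T.card) * (1 + r) ^ T.card) ^ n *
        ∏ i, (1 - (1 - ϱ) * ((1 - (if y i = 0 then 1 else -1) * (1 - 2 * δ) ^ J.card) / 2))) := by
    calc ∑ Z : Fin j → W n, (∏ q ∈ T, bl d (wd X Z q)) * bl d (wd X Z p)
        ≤ ∑ Z : Fin j → W n, (((1 / r) ^ d) ^ T.card *
            ∏ i, ∏ p : {p // p ∈ T}, (if wd X Z p i = 0 then (1 : ℝ) else r)) *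
            ((1 / ϱ) ^ d * ∏ i, (if wd X Z p i = 0 then (1 : ℝ) else ϱ)) := by
          refine sum_le_sum fun Z _ => ?_
          refine mul_le_mul (PRB_prod_le hr0 hr1 X Z T) (PRB_bl_le hρ0 hρ1 d _)
            (PRB_bl_nonneg d _) ?_
          refine mul_nonneg (by positivity) (prod_nonneg fun i _ => prod_nonneg fun q _ => ?_)
          split_ifs
          · norm_num
          · exact hr0.le
      _ = ((1 / r) ^ d) ^ T.card * (1 / ϱ) ^ d * ∑ Z : Fin j → W n,
            ∏ i, ((∏ p : {p // p ∈ T}, (if wd X Z p i = 0 then (1 : ℝ) else r)) *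
              (if y i + ∑ q ∈ J, wd X Z q i = 0 then (1 : ℝ) else ϱ)) := by
          rw [mul_sum]
          refine sum_congr rfl fun Z _ => ?_
          rw [prod_mul_distrib]
          have e5 : ∀ i, wd X Z p i = y i + ∑ q ∈ J, wd X Z q i := by
            intro i
            rw [PRB_wd X Z J hJ, Pi.add_apply, Finset.sum_apply]
          have e8 : ∏ i, (if wd X Z p i = 0 then (1 : ℝ) else ϱ) =
              ∏ i, (if y i + ∑ q ∈ J, wd X Z q i = 0 then (1 : ℝ) else ϱ) :=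
            prod_congr rfl fun i _ => by rw [e5 i]
          rw [e8]
          ring
      _ = _ := by
          congr 1
          have h3 := sum_col X hT (fun i b => (∏ p, (if b p = 0 then (1 : ℝ) else r)) *
            (if y i + ∑ q ∈ J, b q = 0 then (1 : ℝ) else ϱ))
          rw [h3]
          have e6 : (2 ^ (j - T.card) * (1 + r) ^ T.card) ^ n =
              ∏ _i : Fin n, (2 ^ (j - T.card) * (1 + r) ^ T.card) := by
            rw [prod_const, card_univ, Fintype.card_fin]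
          rw [e6, ← prod_mul_distrib]
          refine prod_congr rfl fun i _ => ?_
          rw [sum_tilt, Fintype.card_coe, e3, mul_pow]
          obtain ⟨m, hm⟩ := Nat.exists_eq_add_of_le hJT
          have e7 : (1 + r) ^ T.card = (1 + r) ^ J.card * (1 + r) ^ (T.card - J.card) := by
            rw [← pow_add]
            congr 1
            omega
          rw [e7]
          ring
  have hfac : ∀ i, 0 ≤ 1 - (1 - ϱ) *
      ((1 - (if y i = 0 then 1 else -1) * (1 - 2 * δ) ^ J.card) / 2) := by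
    intro i
    have h3 : 0 ≤ (1 - 2 * δ) ^ J.card := pow_nonneg (by linarith) _
    have h4 : (1 - 2 * δ) ^ J.card ≤ 1 := pow_le_one₀ (by linarith) (by linarith)
    split_ifs
    · nlinarith
    · nlinarith
  have hexp : ∏ i, (1 - (1 - ϱ) *
      ((1 - (if y i = 0 then 1 else -1) * (1 - 2 * δ) ^ J.card) / 2)) ≤
      Real.exp (-(1 - ϱ) * (2 * δ * (1 - δ)) * n) := by
    calc ∏ i, (1 - (1 - ϱ) *
          ((1 - (if y i = 0 then 1 else -1) * (1 - 2 * δ) ^ J.card) / 2))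
        ≤ ∏ i, Real.exp (-((1 - ϱ) *
          ((1 - (if y i = 0 then 1 else -1) * (1 - 2 * δ) ^ J.card) / 2))) := by
          refine prod_le_prod (fun i _ => hfac i) fun i _ => ?_
          exact Real.one_sub_le_exp_neg _
      _ = Real.exp (-((1 - ϱ) * ∑ i,
          ((1 - (if y i = 0 then 1 else -1) * (1 - 2 * δ) ^ J.card) / 2))) := by
          rw [← Real.exp_sum, sum_neg_distrib, mul_sum]
      _ ≤ _ := by
          apply Real.exp_le_exp.2
          have h3 := PRB_sum_m h0 h1 hJ1 y hyw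
          have h4 : 0 ≤ 1 - ϱ := by linarith
          have h5 := mul_le_mul_of_nonneg_left h3 h4
          linarith
  have h2 : 0 < (2 : ℝ) ^ (n * j) := by positivity
  calc (∑ Z : Fin j → W n, (∏ q ∈ T, bl d (wd X Z q)) * bl d (wd X Z p)) / 2 ^ (n * j)
      ≤ (((1 / r) ^ d) ^ T.card * (1 / ϱ) ^ d * ((2 ^ (j - T.card) * (1 + r) ^ T.card) ^ n *
        Real.exp (-(1 - ϱ) * (2 * δ * (1 - δ)) * n))) / 2 ^ (n * j) := by
        refine div_le_div_of_nonneg_right (hsum.trans ?_) h2.le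
        refine mul_le_mul_of_nonneg_left ?_ (by positivity)
        exact mul_le_mul_of_nonneg_left hexp (by positivity)
    _ = ((1 / r) ^ d) ^ T.card * (1 / ϱ) ^ d * Real.exp (-(1 - ϱ) * (2 * δ * (1 - δ)) * n) *
        ((2 ^ (j - T.card) * (1 + r) ^ T.card) ^ n / 2 ^ (n * j)) := by ring
    _ = ((1 / r) ^ d) ^ T.card * (1 / ϱ) ^ d * Real.exp (-(1 - ϱ) * (2 * δ * (1 - δ)) * n) *
        (((1 + r) / 2) ^ n) ^ T.card := by
        rw [PRB_pow_split (card_le_of_indp hT)]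
    _ = gam δ n d * bet δ n d ^ T.card := by
        unfold gam bet
        rw [← hϱ, ← e4, e1, ← e2, mul_pow]
        ring

end Pool.Agent.Lib.MP_0430e4_lc.Lgv
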