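import Pool.Agent.Lib.MP_0430e4_lc.Lgv.Defs

/-!
# TRA: expansion of the transform of a product

PROOF. `φ x = ∑_w ft φ w * chw w x` (inversion), expand the product (Finset.prod_univ_sum over the
subtype), `chw ω (wd X Z p) = chw ω (cmb X p.1) * ∏_k chw (p.2 k • ω) (Z k)`, and
`∑_Z ∏_k chw (Θ k + ∑_p p.2 k • ω p) (Z k) = 2^(n j)` or `0` (Lin.sum_chw_left).
abs_tr_ind: for independent second components at most one `ω` satisfies the equations (all
coordinates: `∑_p ω p x • p.2 = column x of Θ`).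
tr_eq_zero: if the equations hold then every column of `Θ` is in the span of the second components,
so `rk Θ` (row rank = column rank of the matrix `Θ k x`) is at most `rp T`.
-/

set_option autoImplicit false

namespace Pool.Agent.Lib.MP_0430e4_lc.Lgv

open Finset
open Pool.Agent.Lib.MP_0430e4_lc.Lin (W wt chw sg)

variable {n : ℕ}

theorem tra_add_right (w x y : W n) : chw w (x + y) = chw w x * chw w y := by
  rw [Lin.chw_comm, Lin.chw_add, Lin.chw_comm x, Lin.chw_comm y]

theorem tra_zero_right (w : W n) : chw w 0 = 1 := by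
  rw [Lin.chw_comm, Lin.chw_zero]

theorem tra_sum_right {ι : Type*} (s : Finset ι) (w : W n) (f : ι → W n) :
    chw w (∑ i ∈ s, f i) = ∏ i ∈ s, chw w (f i) := by
  classical
  induction s using Finset.induction_on with
  | empty => rw [sum_empty, prod_empty, tra_zero_right]
  | insert a s ha ih => rw [sum_insert ha, prod_insert ha, tra_add_right, ih]

theorem tra_sum_left {ι : Type*} (s : Finset ι) (w : W n) (f : ι → W n) :
    chw (∑ i ∈ s, f i) w = ∏ i ∈ s, chw (f i) w := by
  rw [Lin.chw_comm, tra_sum_right]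
  exact prod_congr rfl fun i _ => Lin.chw_comm _ _

theorem tra_smul (c : ZMod 2) (w x : W n) : chw w (c • x) = chw (c • w) x := by
  unfold chw
  refine prod_congr rfl fun i _ => ?_
  rw [Pi.smul_apply, Pi.smul_apply, smul_eq_mul, smul_eq_mul]
  congr 1
  ring

/-- The inversion formula. -/
theorem tra_inv (φ : W n → ℝ) (x : W n) : φ x = ∑ w, ft φ w * chw w x := by
  unfold ft
  have h1 : ∀ w : W n, (∑ y, φ y * chw w y) / 2 ^ n * chw w x
      = ∑ y, φ y / 2 ^ n * chw w (y + x) := by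
    intro w
    rw [sum_div, sum_mul]
    refine sum_congr rfl fun y _ => ?_
    rw [tra_add_right]
    ring
  rw [sum_congr rfl fun w _ => h1 w, sum_comm]
  have h2 : ∀ y : W n, ∑ w : W n, φ y / 2 ^ n * chw w (y + x) = if y = x then φ x else 0 := by
    intro y
    rw [← mul_sum, Lin.sum_chw_left]
    by_cases h : y = x
    · subst h
      rw [if_pos (Lin.add_self_W y), if_pos rfl]
      field_simp
    · rw [if_neg (fun h0 => h (Lin.eq_of_add_U h0)), if_neg h, mul_zero]
  rw [sum_congr rfl fun y _ => h2 y, sum_ite_eq' univ x, if_pos (mem_univ x)]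

theorem tra_sum_prod {j : ℕ} (V : Fin j → W n) :
    ∑ Z : Fin j → W n, ∏ k, chw (V k) (Z k) = if ∀ k, V k = 0 then 2 ^ (n * j) else 0 := by
  have h := (Finset.prod_univ_sum (fun _ : Fin j => (univ : Finset (W n)))
    fun k z => chw (V k) z).symm
  rw [Fintype.piFinset_univ] at h
  rw [h]
  have h2 : ∀ k : Fin j, ∑ z : W n, chw (V k) z = if V k = 0 then 2 ^ n else 0 := by
    intro k
    rw [← Lin.sum_chw_left]
    exact sum_congr rfl fun z _ => Lin.chw_comm _ _
  rw [prod_congr rfl fun k _ => h2 k]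
  by_cases hV : ∀ k, V k = 0
  · rw [if_pos hV, prod_congr rfl fun k _ => if_pos (hV k), prod_const, card_univ,
      Fintype.card_fin, ← pow_mul]
  · rw [if_neg hV]
    push Not at hV
    obtain ⟨k, hk⟩ := hV
    exact prod_eq_zero (mem_univ k) (if_neg hk)

theorem tra_wd {u j : ℕ} (X : Fin u → W n) (Z : Fin j → W n) (p : P u j) (w : W n) :
    chw w (wd X Z p) = chw w (cmb X p.1) * ∏ k, chw (p.2 k • w) (Z k) := by
  unfold wd
  rw [tra_add_right]
  congr 1
  unfold cmb
  rw [tra_sum_right]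
  exact prod_congr rfl fun k _ => tra_smul _ _ _

/-- The expansion of the transform. -/
theorem tr_eq {u j : ℕ} (φ : W n → ℝ) (X : Fin u → W n) (T : Finset (P u j)) (Θ : Fin j → W n) :
    tr φ X T Θ = ∑ ω : {p // p ∈ T} → W n,
      (∏ p : {p // p ∈ T}, ft φ (ω p) * chw (ω p) (cmb X (p : P u j).1)) *
        if ∀ i, Θ i = ∑ p : {p // p ∈ T}, (p : P u j).2 i • ω p then 1 else 0 := by
  unfold tr
  have h1 : ∀ Z : Fin j → W n, (∏ p ∈ T, φ (wd X Z p)) * cht Θ Z
      = ∑ ω : {p // p ∈ T} → W n,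
        (∏ p : {p // p ∈ T}, ft φ (ω p) * chw (ω p) (cmb X (p : P u j).1)) *
          ∏ k, chw (Θ k + ∑ p : {p // p ∈ T}, (p : P u j).2 k • ω p) (Z k) := by
    intro Z
    rw [← prod_coe_sort T fun p => φ (wd X Z p)]
    rw [prod_congr rfl fun (p : {p // p ∈ T}) _ => tra_inv φ (wd X Z p)]
    rw [Finset.prod_univ_sum, Fintype.piFinset_univ, sum_mul]
    refine sum_congr rfl fun ω _ => ?_
    have h2 : ∀ p : {p // p ∈ T}, ft φ (ω p) * chw (ω p) (wd X Z p)
        = (ft φ (ω p) * chw (ω p) (cmb X (p : P u j).1)) *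
          ∏ k, chw ((p : P u j).2 k • ω p) (Z k) := by
      intro p
      rw [tra_wd, mul_assoc]
    rw [prod_congr rfl fun p _ => h2 p, prod_mul_distrib, mul_assoc]
    congr 1
    rw [prod_comm]
    unfold cht
    rw [← prod_mul_distrib]
    refine prod_congr rfl fun k _ => ?_
    rw [Lin.chw_add, tra_sum_left, mul_comm]
  rw [sum_congr rfl fun Z _ => h1 Z, sum_comm, sum_div]
  refine sum_congr rfl fun ω _ => ?_
  rw [← mul_sum, tra_sum_prod, mul_div_assoc]
  congr 1
  have h3 : (∀ k, Θ k + ∑ p : {p // p ∈ T}, (p : P u j).2 k • ω p = 0)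
      ↔ ∀ i, Θ i = ∑ p : {p // p ∈ T}, (p : P u j).2 i • ω p := by
    constructor
    · intro h k
      exact Lin.eq_of_add_U (h k)
    · intro h k
      rw [h k]
      exact Lin.add_self_W _
  by_cases h4 : ∀ i, Θ i = ∑ p : {p // p ∈ T}, (p : P u j).2 i • ω p
  · rw [if_pos (h3.mpr h4), if_pos h4]
    exact div_self (by positivity)
  · rw [if_neg (fun h => h4 (h3.mp h)), if_neg h4, zero_div]

theorem tra_unique {u j : ℕ} {T : Finset (P u j)} (hT : Indp T) (Θ : Fin j → W n)
    {ω ω' : {p // p ∈ T} → W n}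
    (h : ∀ i, Θ i = ∑ p : {p // p ∈ T}, (p : P u j).2 i • ω p)
    (h' : ∀ i, Θ i = ∑ p : {p // p ∈ T}, (p : P u j).2 i • ω' p) : ω = ω' := by
  have hT' := Fintype.linearIndependent_iff.mp hT
  funext p x
  have h1 := hT' (fun p => ω p x - ω' p x) (by
    funext k
    have h2 := congrFun ((h k).symm.trans (h' k)) x
    rw [Finset.sum_apply, Finset.sum_apply] at h2
    rw [Finset.sum_apply, Pi.zero_apply]
    have h3 : ∀ p : {p // p ∈ T}, ((ω p x - ω' p x) • (p : P u j).2) k
        = ((p : P u j).2 k • ω p) x - ((p : P u j).2 k • ω' p) x := by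
      intro p
      simp only [Pi.smul_apply, smul_eq_mul]
      ring
    rw [sum_congr rfl fun p _ => h3 p, sum_sub_distrib, h2, sub_self]) p
  exact sub_eq_zero.mp h1

theorem abs_tr_ind {u j : ℕ} {φ : W n → ℝ} {μ : ℝ} (hμ : ∀ w, |ft φ w| ≤ μ) (X : Fin u → W n)
    {T : Finset (P u j)} (hT : Indp T) (Θ : Fin j → W n) : |tr φ X T Θ| ≤ μ ^ T.card := by
  classical
  have hμ0 : 0 ≤ μ := (abs_nonneg _).trans (hμ 0)
  have hb : ∀ ω : {p // p ∈ T} → W n,
      |∏ p : {p // p ∈ T}, ft φ (ω p) * chw (ω p) (cmb X (p : P u j).1)| ≤ μ ^ T.card := by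
    intro ω
    rw [abs_prod]
    calc ∏ p : {p // p ∈ T}, |ft φ (ω p) * chw (ω p) (cmb X (p : P u j).1)|
        ≤ ∏ _p : {p // p ∈ T}, μ := by
          refine prod_le_prod (fun _ _ => abs_nonneg _) fun p _ => ?_
          rw [abs_mul, Lin.abs_chw, mul_one]
          exact hμ _
      _ = μ ^ T.card := by
          rw [prod_const, card_univ, Fintype.card_coe]
  rw [tr_eq]
  by_cases hex : ∃ ω : {p // p ∈ T} → W n,
      ∀ i, Θ i = ∑ p : {p // p ∈ T}, (p : P u j).2 i • ω p
  · obtain ⟨ω, hω⟩ := hex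
    rw [sum_eq_single ω]
    · rw [if_pos hω, mul_one]
      exact hb ω
    · intro ω' _ hne
      rw [if_neg (fun h => hne (tra_unique hT Θ h hω)), mul_zero]
    · intro h
      exact absurd (mem_univ _) h
  · push Not at hex
    rw [sum_eq_zero]
    · rw [abs_zero]
      exact pow_nonneg hμ0 _
    · intro ω _
      rw [if_neg (fun h => ?_), mul_zero]
      obtain ⟨i, hi⟩ := hex ω
      exact hi (h i)

theorem tr_eq_zero {u j : ℕ} (φ : W n → ℝ) (X : Fin u → W n) {T : Finset (P u j)}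
    {Θ : Fin j → W n} (h : rp T < rk Θ) : tr φ X T Θ = 0 := by
  rw [tr_eq]
  refine sum_eq_zero fun ω _ => ?_
  rw [if_neg (fun h0 => ?_), mul_zero]
  let A : Matrix (Fin j) {p // p ∈ T} (ZMod 2) := Matrix.of fun i p => (p : P u j).2 i
  let B : Matrix {p // p ∈ T} (Fin n) (ZMod 2) := Matrix.of ω
  have h1 : (Matrix.of Θ : Matrix (Fin j) (Fin n) (ZMod 2)) = A * B := by
    ext i x
    rw [Matrix.mul_apply, Matrix.of_apply, h0 i, Finset.sum_apply]
    rfl
  have h2 : rk Θ = (Matrix.of Θ : Matrix (Fin j) (Fin n) (ZMod 2)).rank := by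
    rw [Matrix.rank_eq_finrank_span_row]
    rfl
  have h3 : rp T = A.rank := by
    rw [Matrix.rank_eq_finrank_span_cols]
    unfold rp
    have : Prod.snd '' (T : Set (P u j)) = Set.range A.col := by
      ext v
      constructor
      · rintro ⟨p, hp, rfl⟩
        exact ⟨⟨p, hp⟩, rfl⟩
      · rintro ⟨p, rfl⟩
        exact ⟨p, p.2, rfl⟩
    rw [this]
  have h4 := Matrix.rank_mul_le_left A B
  rw [← h1, ← h2, ← h3] at h4
  omega

end Pool.Agent.Lib.MP_0430e4_lc.Lgv
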